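import Mathlib

/-!
Basic theory of loops: multiplication group, inner mapping group and its generators.
-/

universe u v

namespace Pool.Agent.Lib.MP_c6182e_al

/-- A loop, with both divisions as operations. -/
class LoopStr (Q : Type u) extends Mul Q, One Q where
  ldiv : Q → Q → Q
  rdiv : Q → Q → Q
  one_mul' : ∀ x : Q, (1 : Q) * x = x
  mul_one' : ∀ x : Q, x * (1 : Q) = x
  mul_ldiv : ∀ a b : Q, a * ldiv a b = b
  ldiv_mul : ∀ a b : Q, ldiv a (a * b) = b
  rdiv_mul : ∀ a b : Q, rdiv a b * b = a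
  mul_rdiv : ∀ a b : Q, rdiv (a * b) b = a

open LoopStr

section basic

variable {Q : Type u} [LoopStr Q]

theorem lone_mul (x : Q) : (1 : Q) * x = x := LoopStr.one_mul' x
theorem lmul_one (x : Q) : x * (1 : Q) = x := LoopStr.mul_one' x

theorem mul_left_cancel' {a b c : Q} (h : a * b = a * c) : b = c := by
  have := congrArg (ldiv a) h
  simpa [LoopStr.ldiv_mul] using this

theorem mul_right_cancel' {a b c : Q} (h : b * a = c * a) : b = c := by
  have := congrArg (fun t => rdiv t a) h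
  simpa [LoopStr.mul_rdiv] using this

/-- Left translation. -/
def lp (a : Q) : Equiv.Perm Q where
  toFun x := a * x
  invFun x := ldiv a x
  left_inv x := LoopStr.ldiv_mul a x
  right_inv x := LoopStr.mul_ldiv a x

/-- Right translation. -/
def rp (a : Q) : Equiv.Perm Q where
  toFun x := x * a
  invFun x := rdiv x a
  left_inv x := LoopStr.mul_rdiv x a
  right_inv x := LoopStr.rdiv_mul x a

@[simp] theorem lp_apply (a x : Q) : lp a x = a * x := rfl
@[simp] theorem rp_apply (a x : Q) : rp a x = x * a := rfl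
@[simp] theorem lp_inv_apply (a x : Q) : (lp a)⁻¹ x = ldiv a x := rfl
@[simp] theorem rp_inv_apply (a x : Q) : (rp a)⁻¹ x = rdiv x a := rfl

theorem lp_one : lp (1 : Q) = 1 := by
  ext x; simp [lone_mul]

theorem rp_one : rp (1 : Q) = 1 := by
  ext x; simp [lmul_one]

theorem ldiv_self (a : Q) : ldiv a a = 1 := by
  have := LoopStr.ldiv_mul a (1 : Q)
  rwa [lmul_one] at this

theorem rdiv_self (a : Q) : rdiv a a = 1 := by
  have := LoopStr.mul_rdiv (1 : Q) a
  rwa [lone_mul] at this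

theorem ldiv_one_left (a : Q) : ldiv 1 a = a := by
  have := LoopStr.ldiv_mul (1 : Q) a
  rwa [lone_mul] at this

theorem rdiv_one_right (a : Q) : rdiv a 1 = a := by
  have := LoopStr.mul_rdiv a (1 : Q)
  rwa [lmul_one] at this

theorem eq_ldiv_iff {a b c : Q} : c = ldiv a b ↔ a * c = b := by
  constructor
  · rintro rfl; exact LoopStr.mul_ldiv a b
  · rintro rfl; exact (LoopStr.ldiv_mul a c).symm

theorem eq_rdiv_iff {a b c : Q} : c = rdiv a b ↔ c * b = a := by
  constructor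
  · rintro rfl; exact LoopStr.rdiv_mul a b
  · rintro rfl; exact (LoopStr.mul_rdiv c b).symm

variable (Q) in
/-- The multiplication group. -/
def mlt : Subgroup (Equiv.Perm Q) := Subgroup.closure {σ | ∃ a : Q, σ = lp a ∨ σ = rp a}

variable (Q) in
/-- The inner mapping group. -/
def inn : Subgroup (Equiv.Perm Q) := mlt Q ⊓ MulAction.stabilizer (Equiv.Perm Q) (1 : Q)

theorem mem_inn {σ : Equiv.Perm Q} : σ ∈ inn Q ↔ σ ∈ mlt Q ∧ σ 1 = 1 := by
  unfold inn
  rw [Subgroup.mem_inf, MulAction.mem_stabilizer_iff]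
  rfl

theorem lp_mem (a : Q) : lp a ∈ mlt Q := Subgroup.subset_closure ⟨a, Or.inl rfl⟩
theorem rp_mem (a : Q) : rp a ∈ mlt Q := Subgroup.subset_closure ⟨a, Or.inr rfl⟩

theorem inn_le_mlt : inn Q ≤ mlt Q := inf_le_left

theorem inn_one {σ : Equiv.Perm Q} (h : σ ∈ inn Q) : σ 1 = 1 := (mem_inn.1 h).2

/-- `T_x`. -/
def tt (x : Q) : Equiv.Perm Q := (rp x)⁻¹ * lp x
/-- `L_{x,y}`. -/
def ll (x y : Q) : Equiv.Perm Q := (lp (x * y))⁻¹ * lp x * lp y
/-- `R_{x,y}`. -/
def rr (x y : Q) : Equiv.Perm Q := (rp (x * y))⁻¹ * rp y * rp x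
/-- `C_{x,y}`. -/
def cc (x y : Q) : Equiv.Perm Q := (lp x)⁻¹ * (rp y)⁻¹ * lp x * rp y

theorem tt_apply (x z : Q) : tt x z = rdiv (x * z) x := rfl
theorem ll_apply (x y z : Q) : ll x y z = ldiv (x * y) (x * (y * z)) := rfl
theorem rr_apply (x y z : Q) : rr x y z = rdiv ((z * x) * y) (x * y) := rfl
theorem cc_apply (x y z : Q) : cc x y z = ldiv x (rdiv (x * (z * y)) y) := rfl

theorem tt_mem (x : Q) : tt x ∈ inn Q := by
  rw [mem_inn]
  refine ⟨mul_mem (inv_mem (rp_mem x)) (lp_mem x), ?_⟩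
  rw [tt_apply, lmul_one, rdiv_self]

theorem ll_mem (x y : Q) : ll x y ∈ inn Q := by
  rw [mem_inn]
  refine ⟨mul_mem (mul_mem (inv_mem (lp_mem _)) (lp_mem x)) (lp_mem y), ?_⟩
  rw [ll_apply, lmul_one, ldiv_self]

theorem rr_mem (x y : Q) : rr x y ∈ inn Q := by
  rw [mem_inn]
  refine ⟨mul_mem (mul_mem (inv_mem (rp_mem _)) (rp_mem y)) (rp_mem x), ?_⟩
  rw [rr_apply, lone_mul, rdiv_self]

theorem cc_mem (x y : Q) : cc x y ∈ inn Q := by
  rw [mem_inn]
  refine ⟨mul_mem (mul_mem (mul_mem (inv_mem (lp_mem _)) (inv_mem (rp_mem _))) (lp_mem x))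
    (rp_mem y), ?_⟩
  rw [cc_apply, lone_mul, LoopStr.mul_rdiv, ldiv_self]

theorem lp_mul_lp (x y : Q) : lp x * lp y = lp (x * y) * ll x y := by
  unfold ll; group

theorem rp_mul_rp (x y : Q) : rp y * rp x = rp (x * y) * rr x y := by
  unfold rr; group

theorem lp_eq (x : Q) : lp x = rp x * tt x := by
  unfold tt; group

theorem rp_eq (x : Q) : rp x = lp x * (tt x)⁻¹ := by
  unfold tt; group

variable (Q) in
/-- The standard generators of the inner mapping group. -/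
def gens : Set (Equiv.Perm Q) :=
  {σ | (∃ x : Q, σ = tt x) ∨ (∃ x y : Q, σ = ll x y) ∨ (∃ x y : Q, σ = rr x y)}

theorem tt_gens (x : Q) : tt x ∈ gens Q := Or.inl ⟨x, rfl⟩
theorem ll_gens (x y : Q) : ll x y ∈ gens Q := Or.inr (Or.inl ⟨x, y, rfl⟩)
theorem rr_gens (x y : Q) : rr x y ∈ gens Q := Or.inr (Or.inr ⟨x, y, rfl⟩)

theorem gens_subset : gens Q ⊆ inn Q := by
  rintro σ (⟨x, rfl⟩ | ⟨x, y, rfl⟩ | ⟨x, y, rfl⟩)
  · exact tt_mem x
  · exact ll_mem x y
  · exact rr_mem x y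

/-- Every element of the multiplication group is `lp q * h` with `h` in the group generated by the
standard generators. -/
theorem mlt_decomp {σ : Equiv.Perm Q} (hσ : σ ∈ mlt Q) :
    ∃ q : Q, ∃ h ∈ Subgroup.closure (gens Q), σ = lp q * h := by
  have hL : ∀ (x q : Q), ∃ q' : Q, ∃ h ∈ Subgroup.closure (gens Q), lp x * lp q = lp q' * h :=
    fun x q => ⟨x * q, ll x q, Subgroup.subset_closure (ll_gens x q), lp_mul_lp x q⟩
  have hR : ∀ (x q : Q), ∃ q' : Q, ∃ h ∈ Subgroup.closure (gens Q), rp x * lp q = lp q' * h := by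
    intro x q
    refine ⟨q * x, (tt (q * x))⁻¹ * rr q x * tt q, ?_, ?_⟩
    · exact mul_mem (mul_mem (inv_mem (Subgroup.subset_closure (tt_gens _)))
        (Subgroup.subset_closure (rr_gens _ _))) (Subgroup.subset_closure (tt_gens _))
    · rw [lp_eq q, ← mul_assoc, rp_mul_rp, rp_eq (q * x)]
      group
  have hLi : ∀ (x q : Q), ∃ q' : Q, ∃ h ∈ Subgroup.closure (gens Q),
      (lp x)⁻¹ * lp q = lp q' * h := by
    intro x q
    refine ⟨ldiv x q, (ll x (ldiv x q))⁻¹, inv_mem (Subgroup.subset_closure (ll_gens _ _)), ?_⟩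
    have := lp_mul_lp x (ldiv x q)
    rw [LoopStr.mul_ldiv] at this
    rw [inv_mul_eq_iff_eq_mul, ← mul_assoc, this]
    group
  have hRi : ∀ (x q : Q), ∃ q' : Q, ∃ h ∈ Subgroup.closure (gens Q),
      (rp x)⁻¹ * lp q = lp q' * h := by
    intro x q
    refine ⟨rdiv q x, (tt (rdiv q x))⁻¹ * (rr (rdiv q x) x)⁻¹ * tt q, ?_, ?_⟩
    · exact mul_mem (mul_mem (inv_mem (Subgroup.subset_closure (tt_gens _)))
        (inv_mem (Subgroup.subset_closure (rr_gens _ _)))) (Subgroup.subset_closure (tt_gens _))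
    · have := rp_mul_rp (rdiv q x) x
      rw [LoopStr.rdiv_mul] at this
      rw [inv_mul_eq_iff_eq_mul, lp_eq q]
      have h2 : rp x * (lp (rdiv q x) * ((tt (rdiv q x))⁻¹ * (rr (rdiv q x) x)⁻¹ * tt q)) =
        (rp x * (lp (rdiv q x) * (tt (rdiv q x))⁻¹)) * (rr (rdiv q x) x)⁻¹ * tt q := by group
      rw [h2, ← rp_eq, this]
      group
  unfold mlt at hσ
  induction hσ using Subgroup.closure_induction_left with
  | one => exact ⟨1, 1, one_mem _, by rw [lp_one, mul_one]⟩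
  | mul_left x hx y hy ih =>
    obtain ⟨a, ha⟩ := hx
    obtain ⟨q, h, hh, rfl⟩ := ih
    rcases ha with rfl | rfl
    · obtain ⟨q', h', hh', e⟩ := hL a q
      exact ⟨q', h' * h, mul_mem hh' hh, by rw [← mul_assoc, e, mul_assoc]⟩
    · obtain ⟨q', h', hh', e⟩ := hR a q
      exact ⟨q', h' * h, mul_mem hh' hh, by rw [← mul_assoc, e, mul_assoc]⟩
  | inv_mul_cancel x hx y hy ih =>
    obtain ⟨a, ha⟩ := hx
    obtain ⟨q, h, hh, rfl⟩ := ih
    rcases ha with rfl | rfl
    · obtain ⟨q', h', hh', e⟩ := hLi a q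
      exact ⟨q', h' * h, mul_mem hh' hh, by rw [← mul_assoc, e, mul_assoc]⟩
    · obtain ⟨q', h', hh', e⟩ := hRi a q
      exact ⟨q', h' * h, mul_mem hh' hh, by rw [← mul_assoc, e, mul_assoc]⟩

theorem inn_eq_closure : inn Q = Subgroup.closure (gens Q) := by
  apply le_antisymm
  · intro σ hσ
    obtain ⟨q, h, hh, rfl⟩ := mlt_decomp (mem_inn.1 hσ).1
    have h1 : h 1 = 1 := by
      have : Subgroup.closure (gens Q) ≤ inn Q := (Subgroup.closure_le _).2 gens_subset
      exact inn_one (this hh)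
    have h2 := (mem_inn.1 hσ).2
    rw [Equiv.Perm.mul_apply, h1, lp_apply, lmul_one] at h2
    rw [h2, lp_one, one_mul]
    exact hh
  · exact (Subgroup.closure_le _).2 gens_subset

/-- Decomposition with the inner part in `inn`. -/
theorem mlt_decomp' {σ : Equiv.Perm Q} (hσ : σ ∈ mlt Q) :
    (lp (σ 1))⁻¹ * σ ∈ inn Q := by
  rw [mem_inn]
  refine ⟨mul_mem (inv_mem (lp_mem _)) hσ, ?_⟩
  rw [Equiv.Perm.mul_apply, lp_inv_apply, ldiv_self]

variable (Q) in
/-- The inner mapping group is abelian. -/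
def AIM : Prop := ∀ σ ∈ inn Q, ∀ τ ∈ inn Q, σ * τ = τ * σ

end basic

end Pool.Agent.Lib.MP_c6182e_al
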