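import Pool.Agent.Lib.MP_c6182e_al.Basic

/-!
Centre of a loop, central quotient, homomorphisms, subloops.
-/

universe u v

namespace Pool.Agent.Lib.MP_c6182e_al

open LoopStr

section hom

variable {Q : Type u} [LoopStr Q] {P : Type v} [LoopStr P]

/-- Homomorphisms of loops. -/
def IsHom (f : Q → P) : Prop := ∀ x y, f (x * y) = f x * f y

variable {f : Q → P}

theorem IsHom.map_one (hf : IsHom f) : f 1 = 1 := by
  have h := hf 1 1
  rw [lmul_one] at h
  have h2 : f 1 * f 1 = f 1 * 1 := by rw [← h, lmul_one]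
  exact mul_left_cancel' h2

theorem IsHom.map_ldiv (hf : IsHom f) (a b : Q) : f (ldiv a b) = ldiv (f a) (f b) := by
  rw [eq_ldiv_iff, ← hf, LoopStr.mul_ldiv]

theorem IsHom.map_rdiv (hf : IsHom f) (a b : Q) : f (rdiv a b) = rdiv (f a) (f b) := by
  rw [eq_rdiv_iff, ← hf, LoopStr.rdiv_mul]

theorem IsHom.exists_mlt (hf : IsHom f) {σ : Equiv.Perm Q} (hσ : σ ∈ mlt Q) :
    ∃ σ' ∈ mlt P, ∀ x, f (σ x) = σ' (f x) := by
  unfold mlt at hσ
  induction hσ using Subgroup.closure_induction with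
  | mem x hx =>
    obtain ⟨a, rfl | rfl⟩ := hx
    · exact ⟨lp (f a), lp_mem _, fun x => hf a x⟩
    · exact ⟨rp (f a), rp_mem _, fun x => hf x a⟩
  | one => exact ⟨1, one_mem _, fun x => rfl⟩
  | mul x y hx hy ihx ihy =>
    obtain ⟨x', hx', ex⟩ := ihx
    obtain ⟨y', hy', ey⟩ := ihy
    refine ⟨x' * y', mul_mem hx' hy', fun z => ?_⟩
    rw [Equiv.Perm.mul_apply, Equiv.Perm.mul_apply, ex, ey]
  | inv x hx ih =>
    obtain ⟨x', hx', ex⟩ := ih
    refine ⟨x'⁻¹, inv_mem hx', fun z => ?_⟩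
    rw [Equiv.Perm.eq_inv_iff_eq, ← ex]
    simp

theorem IsHom.exists_inn (hf : IsHom f) {σ : Equiv.Perm Q} (hσ : σ ∈ inn Q) :
    ∃ σ' ∈ inn P, ∀ x, f (σ x) = σ' (f x) := by
  obtain ⟨σ', h1, h2⟩ := hf.exists_mlt (mem_inn.1 hσ).1
  refine ⟨σ', mem_inn.2 ⟨h1, ?_⟩, h2⟩
  have := h2 1
  rw [inn_one hσ, hf.map_one] at this
  exact this.symm

theorem IsHom.exists_mlt_lift (hf : IsHom f) (hs : Function.Surjective f)
    {σ' : Equiv.Perm P} (hσ : σ' ∈ mlt P) :
    ∃ σ ∈ mlt Q, ∀ x, f (σ x) = σ' (f x) := by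
  unfold mlt at hσ
  induction hσ using Subgroup.closure_induction with
  | mem x hx =>
    obtain ⟨a, rfl | rfl⟩ := hx
    · obtain ⟨b, rfl⟩ := hs a
      exact ⟨lp b, lp_mem _, fun x => hf b x⟩
    · obtain ⟨b, rfl⟩ := hs a
      exact ⟨rp b, rp_mem _, fun x => hf x b⟩
  | one => exact ⟨1, one_mem _, fun x => rfl⟩
  | mul x y hx hy ihx ihy =>
    obtain ⟨x', hx', ex⟩ := ihx
    obtain ⟨y', hy', ey⟩ := ihy
    refine ⟨x' * y', mul_mem hx' hy', fun z => ?_⟩
    rw [Equiv.Perm.mul_apply, Equiv.Perm.mul_apply, ex, ey]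
  | inv x hx ih =>
    obtain ⟨x', hx', ex⟩ := ih
    refine ⟨x'⁻¹, inv_mem hx', fun z => ?_⟩
    rw [Equiv.Perm.eq_inv_iff_eq, ← ex]
    simp

theorem IsHom.exists_inn_lift (hf : IsHom f) (hs : Function.Surjective f)
    {σ' : Equiv.Perm P} (hσ : σ' ∈ inn P) :
    ∃ σ ∈ inn Q, ∀ x, f (σ x) = σ' (f x) := by
  obtain ⟨σ, h1, h2⟩ := hf.exists_mlt_lift hs (mem_inn.1 hσ).1
  refine ⟨(lp (σ 1))⁻¹ * σ, mlt_decomp' h1, fun x => ?_⟩
  rw [Equiv.Perm.mul_apply, lp_inv_apply, hf.map_ldiv, h2, h2, hf.map_one, inn_one hσ,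
    ldiv_one_left]

omit [LoopStr Q] [LoopStr P] in
theorem IsHom.pow_apply {f : Q → P} {σ : Equiv.Perm Q} {σ' : Equiv.Perm P}
    (h : ∀ x, f (σ x) = σ' (f x)) (n : ℕ) (x : Q) : f ((σ ^ n) x) = (σ' ^ n) (f x) := by
  induction n generalizing x with
  | zero => rfl
  | succ n ih => rw [pow_succ, pow_succ, Equiv.Perm.mul_apply, Equiv.Perm.mul_apply, ih, h]

theorem IsHom.aim_of_surjective (hf : IsHom f) (hs : Function.Surjective f) (h : AIM Q) :
    AIM P := by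
  intro σ hσ τ hτ
  obtain ⟨σ', h1, h2⟩ := hf.exists_inn_lift hs hσ
  obtain ⟨τ', h3, h4⟩ := hf.exists_inn_lift hs hτ
  ext y
  obtain ⟨x, rfl⟩ := hs y
  have := congrArg (fun g : Equiv.Perm Q => f (g x)) (h σ' h1 τ' h3)
  simp only [Equiv.Perm.mul_apply, h2, h4] at this
  simpa using this

theorem IsHom.aim_of_injective (hf : IsHom f) (hi : Function.Injective f) (h : AIM P) :
    AIM Q := by
  intro σ hσ τ hτ
  obtain ⟨σ', h1, h2⟩ := hf.exists_inn hσ
  obtain ⟨τ', h3, h4⟩ := hf.exists_inn hτ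
  ext x
  apply hi
  have := congrArg (fun g : Equiv.Perm P => g (f x)) (h σ' h1 τ' h3)
  simp only [Equiv.Perm.mul_apply] at this
  rw [Equiv.Perm.mul_apply, Equiv.Perm.mul_apply, h2, h4, this, h4, h2]

theorem IsHom.map_tt (hf : IsHom f) (x z : Q) : f (tt x z) = tt (f x) (f z) := by
  rw [tt_apply, tt_apply, hf.map_rdiv, hf]

theorem IsHom.map_ll (hf : IsHom f) (x y z : Q) : f (ll x y z) = ll (f x) (f y) (f z) := by
  rw [ll_apply, ll_apply, hf.map_ldiv, hf, hf, hf]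

theorem IsHom.map_rr (hf : IsHom f) (x y z : Q) : f (rr x y z) = rr (f x) (f y) (f z) := by
  rw [rr_apply, rr_apply, hf.map_rdiv, hf, hf, hf]

theorem IsHom.map_cc (hf : IsHom f) (x y z : Q) : f (cc x y z) = cc (f x) (f y) (f z) := by
  rw [cc_apply, cc_apply, hf.map_ldiv, hf.map_rdiv, hf, hf]

end hom

section center

variable {Q : Type u} [LoopStr Q]

variable (Q) in
/-- The centre of a loop, as the set of fixed points of the inner mapping group. -/
def cen : Set Q := {z | ∀ σ ∈ inn Q, σ z = z}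

theorem cen_iff {z : Q} :
    z ∈ cen Q ↔ (∀ x, tt x z = z) ∧ (∀ x y, ll x y z = z) ∧ (∀ x y, rr x y z = z) := by
  constructor
  · intro h
    exact ⟨fun x => h _ (tt_mem x), fun x y => h _ (ll_mem x y), fun x y => h _ (rr_mem x y)⟩
  · rintro ⟨h1, h2, h3⟩ σ hσ
    rw [inn_eq_closure] at hσ
    induction hσ using Subgroup.closure_induction with
    | mem x hx =>
      rcases hx with ⟨a, rfl⟩ | ⟨a, b, rfl⟩ | ⟨a, b, rfl⟩
      · exact h1 a
      · exact h2 a b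
      · exact h3 a b
    | one => rfl
    | mul x y _ _ ihx ihy => rw [Equiv.Perm.mul_apply, ihy, ihx]
    | inv x _ ih => rw [Equiv.Perm.inv_eq_iff_eq]; exact ih.symm

theorem cen_comm {z : Q} (hz : z ∈ cen Q) (x : Q) : x * z = z * x := by
  have := hz _ (tt_mem x)
  rw [tt_apply] at this
  have h2 := (eq_rdiv_iff.1 this.symm)
  exact h2.symm

theorem cen_assoc1 {z : Q} (hz : z ∈ cen Q) (x y : Q) : x * (y * z) = (x * y) * z := by
  have := hz _ (ll_mem x y)
  rw [ll_apply] at this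
  exact (eq_ldiv_iff.1 this.symm).symm

theorem cen_assoc2 {z : Q} (hz : z ∈ cen Q) (x y : Q) : (z * x) * y = z * (x * y) := by
  have := hz _ (rr_mem x y)
  rw [rr_apply] at this
  exact (eq_rdiv_iff.1 this.symm).symm

theorem cen_assoc3 {z : Q} (hz : z ∈ cen Q) (x y : Q) : x * (z * y) = (x * z) * y := by
  rw [← cen_comm hz y, cen_assoc1 hz, cen_comm hz (x * y), cen_comm hz x, cen_assoc2 hz]

theorem cen_lp_comm {z : Q} (hz : z ∈ cen Q) {σ : Equiv.Perm Q} (hσ : σ ∈ mlt Q) :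
    lp z * σ = σ * lp z := by
  unfold mlt at hσ
  induction hσ using Subgroup.closure_induction with
  | mem x hx =>
    obtain ⟨a, rfl | rfl⟩ := hx
    · ext q
      simp only [Equiv.Perm.mul_apply, lp_apply]
      rw [cen_assoc3 hz, ← cen_assoc2 hz, cen_comm hz]
    · ext q
      simp only [Equiv.Perm.mul_apply, lp_apply, rp_apply]
      rw [cen_assoc2 hz]
  | one => rw [mul_one, one_mul]
  | mul x y _ _ ihx ihy => rw [← mul_assoc, ihx, mul_assoc, ihy, mul_assoc]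
  | inv x _ ih =>
    rw [eq_inv_mul_iff_mul_eq, ← mul_assoc, ← ih, mul_assoc, mul_inv_cancel, mul_one]

theorem cen_rp_eq {z : Q} (hz : z ∈ cen Q) : rp z = lp z := by
  ext x; simp only [rp_apply, lp_apply]; exact cen_comm hz x

theorem cen_apply {z : Q} (hz : z ∈ cen Q) {σ : Equiv.Perm Q} (hσ : σ ∈ mlt Q) (x : Q) :
    σ (z * x) = z * σ x := by
  have := congrArg (fun g : Equiv.Perm Q => g x) (cen_lp_comm hz hσ)
  simpa using this.symm

theorem cen_apply' {z : Q} (hz : z ∈ cen Q) {σ : Equiv.Perm Q} (hσ : σ ∈ mlt Q) (x : Q) :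
    σ (x * z) = σ x * z := by
  rw [cen_comm hz, cen_apply hz hσ, cen_comm hz]

theorem mem_cen_of_comm {z : Q} (h : ∀ σ ∈ inn Q, lp z * σ = σ * lp z) : z ∈ cen Q := by
  intro σ hσ
  have := congrArg (fun g : Equiv.Perm Q => g 1) (h σ hσ)
  simp only [Equiv.Perm.mul_apply, lp_apply, lmul_one, inn_one hσ] at this
  exact this.symm

theorem one_mem_cen : (1 : Q) ∈ cen Q := fun _ hσ => inn_one hσ

theorem mul_mem_cen {z w : Q} (hz : z ∈ cen Q) (hw : w ∈ cen Q) : z * w ∈ cen Q := by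
  intro σ hσ
  rw [cen_apply hz (inn_le_mlt hσ), hw σ hσ]

theorem ldiv_mem_cen {z w : Q} (hz : z ∈ cen Q) (hw : w ∈ cen Q) : ldiv z w ∈ cen Q := by
  intro σ hσ
  have : z * σ (ldiv z w) = z * ldiv z w := by
    rw [← cen_apply hz (inn_le_mlt hσ), LoopStr.mul_ldiv, hw σ hσ]
  exact mul_left_cancel' this

variable (Q) in
/-- The centre as a type. -/
abbrev Cen : Type u := {z : Q // z ∈ cen Q}

instance : CommGroup (Cen Q) where
  mul a b := ⟨a.1 * b.1, mul_mem_cen a.2 b.2⟩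
  one := ⟨1, one_mem_cen⟩
  inv a := ⟨ldiv a.1 1, ldiv_mem_cen a.2 one_mem_cen⟩
  mul_assoc a b c := Subtype.ext (cen_assoc1 c.2 a.1 b.1).symm
  one_mul a := Subtype.ext (lone_mul a.1)
  mul_one a := Subtype.ext (lmul_one a.1)
  inv_mul_cancel a := Subtype.ext (by
    change ldiv a.1 1 * a.1 = 1
    rw [cen_comm a.2, LoopStr.mul_ldiv])
  mul_comm a b := Subtype.ext (cen_comm b.2 a.1)

theorem Cen.coe_mul (a b : Cen Q) : (a * b).1 = a.1 * b.1 := rfl
theorem Cen.coe_one : (1 : Cen Q).1 = 1 := rfl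

theorem Cen.ext {a b : Cen Q} (h : a.1 = b.1) : a = b := Subtype.ext h

theorem mul_cen_mul {z w : Q} (hz : z ∈ cen Q) (hw : w ∈ cen Q) (x y : Q) :
    (x * z) * (y * w) = (x * y) * (z * w) := by
  rw [cen_assoc1 hw, ← cen_assoc3 hz x y, ← cen_comm hz y, cen_assoc1 hz, ← cen_assoc1 hw]

variable (Q) in
/-- Congruence modulo the centre. -/
def cenSetoid : Setoid Q where
  r x y := ∃ z ∈ cen Q, y = x * z
  iseqv :=
    { refl := fun x => ⟨1, one_mem_cen, (lmul_one x).symm⟩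
      symm := by
        rintro x y ⟨z, hz, rfl⟩
        refine ⟨ldiv z 1, ldiv_mem_cen hz one_mem_cen, ?_⟩
        rw [← cen_assoc1 (ldiv_mem_cen hz one_mem_cen), LoopStr.mul_ldiv, lmul_one]
      trans := by
        rintro x y w ⟨z, hz, rfl⟩ ⟨z', hz', rfl⟩
        exact ⟨z * z', mul_mem_cen hz hz', (cen_assoc1 hz' x z).symm⟩ }

variable (Q) in
/-- The central quotient. -/
def QC : Type u := Quotient (cenSetoid Q)

/-- The projection onto the central quotient. -/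
def pr (x : Q) : QC Q := Quotient.mk (cenSetoid Q) x

theorem pr_surjective : Function.Surjective (pr : Q → QC Q) := Quotient.mk_surjective

theorem pr_eq_iff {x y : Q} : pr x = pr y ↔ ∃ z ∈ cen Q, y = x * z :=
  Quotient.eq (r := cenSetoid Q)

instance : LoopStr (QC Q) where
  mul := Quotient.map₂ (sa := cenSetoid Q) (sb := cenSetoid Q) (sc := cenSetoid Q) (· * ·) (by
    rintro x _ ⟨z, hz, rfl⟩ y _ ⟨w, hw, rfl⟩
    exact ⟨z * w, mul_mem_cen hz hw, mul_cen_mul hz hw x y⟩)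
  one := pr 1
  ldiv := Quotient.map₂ (sa := cenSetoid Q) (sb := cenSetoid Q) (sc := cenSetoid Q) ldiv (by
    rintro x _ ⟨z, hz, rfl⟩ y _ ⟨w, hw, rfl⟩
    refine ⟨ldiv z w, ldiv_mem_cen hz hw, ?_⟩
    symm
    rw [eq_ldiv_iff, mul_cen_mul hz (ldiv_mem_cen hz hw), LoopStr.mul_ldiv, LoopStr.mul_ldiv])
  rdiv := Quotient.map₂ (sa := cenSetoid Q) (sb := cenSetoid Q) (sc := cenSetoid Q) rdiv (by
    rintro x _ ⟨z, hz, rfl⟩ y _ ⟨w, hw, rfl⟩
    refine ⟨ldiv w z, ldiv_mem_cen hw hz, ?_⟩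
    symm
    rw [eq_rdiv_iff, mul_cen_mul (ldiv_mem_cen hw hz) hw, LoopStr.rdiv_mul,
      ← cen_comm (ldiv_mem_cen hw hz), LoopStr.mul_ldiv])
  one_mul' := by
    rintro ⟨x⟩; exact congrArg pr (lone_mul x)
  mul_one' := by
    rintro ⟨x⟩; exact congrArg pr (lmul_one x)
  mul_ldiv := by
    rintro ⟨x⟩ ⟨y⟩; exact congrArg pr (LoopStr.mul_ldiv x y)
  ldiv_mul := by
    rintro ⟨x⟩ ⟨y⟩; exact congrArg pr (LoopStr.ldiv_mul x y)
  rdiv_mul := by
    rintro ⟨x⟩ ⟨y⟩; exact congrArg pr (LoopStr.rdiv_mul x y)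
  mul_rdiv := by
    rintro ⟨x⟩ ⟨y⟩; exact congrArg pr (LoopStr.mul_rdiv x y)

theorem pr_hom : IsHom (pr : Q → QC Q) := fun _ _ => rfl

theorem pr_one : pr (1 : Q) = 1 := rfl

theorem pr_eq_one {x : Q} : pr x = 1 ↔ x ∈ cen Q := by
  rw [← pr_one, eq_comm, pr_eq_iff]
  constructor
  · rintro ⟨z, hz, rfl⟩; rwa [lone_mul]
  · intro h; exact ⟨x, h, (lone_mul x).symm⟩

theorem aim_QC (h : AIM Q) : AIM (QC Q) := pr_hom.aim_of_surjective pr_surjective h

end center

section sub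

variable {Q : Type u} [LoopStr Q] {P : Type v} [LoopStr P]

variable (Q) in
/-- Subloops. -/
structure SubL where
  carrier : Set Q
  one_mem : (1 : Q) ∈ carrier
  mul_mem : ∀ {x y}, x ∈ carrier → y ∈ carrier → x * y ∈ carrier
  ldiv_mem : ∀ {x y}, x ∈ carrier → y ∈ carrier → ldiv x y ∈ carrier
  rdiv_mem : ∀ {x y}, x ∈ carrier → y ∈ carrier → rdiv x y ∈ carrier

instance (S : SubL Q) : LoopStr S.carrier where
  mul a b := ⟨a.1 * b.1, S.mul_mem a.2 b.2⟩
  one := ⟨1, S.one_mem⟩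
  ldiv a b := ⟨ldiv a.1 b.1, S.ldiv_mem a.2 b.2⟩
  rdiv a b := ⟨rdiv a.1 b.1, S.rdiv_mem a.2 b.2⟩
  one_mul' a := Subtype.ext (lone_mul a.1)
  mul_one' a := Subtype.ext (lmul_one a.1)
  mul_ldiv a b := Subtype.ext (LoopStr.mul_ldiv a.1 b.1)
  ldiv_mul a b := Subtype.ext (LoopStr.ldiv_mul a.1 b.1)
  rdiv_mul a b := Subtype.ext (LoopStr.rdiv_mul a.1 b.1)
  mul_rdiv a b := Subtype.ext (LoopStr.mul_rdiv a.1 b.1)

theorem SubL.coe_hom (S : SubL Q) : IsHom (fun x : S.carrier => x.1) := fun _ _ => rfl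

/-- The subloop generated by a set. -/
def SubL.gen (U : Set Q) : SubL Q where
  carrier := {x | ∀ S : SubL Q, U ⊆ S.carrier → x ∈ S.carrier}
  one_mem S _ := S.one_mem
  mul_mem hx hy S hS := S.mul_mem (hx S hS) (hy S hS)
  ldiv_mem hx hy S hS := S.ldiv_mem (hx S hS) (hy S hS)
  rdiv_mem hx hy S hS := S.rdiv_mem (hx S hS) (hy S hS)

theorem SubL.subset_gen (U : Set Q) : U ⊆ (SubL.gen U).carrier := fun _ hx _ hS => hS hx

/-- The loop is generated by the set `U`. -/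
def GenBy (U : Set Q) : Prop := ∀ S : SubL Q, U ⊆ S.carrier → ∀ x, x ∈ S.carrier

/-- Preimage of a subloop under a homomorphism. -/
def SubL.comap (f : Q → P) (hf : IsHom f) (S : SubL P) : SubL Q where
  carrier := {x | f x ∈ S.carrier}
  one_mem := by
    change f 1 ∈ S.carrier
    rw [hf.map_one]; exact S.one_mem
  mul_mem {x y} hx hy := by
    change f (x * y) ∈ S.carrier
    rw [hf]; exact S.mul_mem hx hy
  ldiv_mem {x y} hx hy := by
    change f (ldiv x y) ∈ S.carrier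
    rw [hf.map_ldiv]; exact S.ldiv_mem hx hy
  rdiv_mem {x y} hx hy := by
    change f (rdiv x y) ∈ S.carrier
    rw [hf.map_rdiv]; exact S.rdiv_mem hx hy

/-- Image of a subloop of a subloop. -/
def SubL.mapCoe (S : SubL Q) (T : SubL S.carrier) : SubL Q where
  carrier := {x | ∃ h : x ∈ S.carrier, (⟨x, h⟩ : S.carrier) ∈ T.carrier}
  one_mem := ⟨S.one_mem, T.one_mem⟩
  mul_mem := by
    rintro x y ⟨hx, hx'⟩ ⟨hy, hy'⟩
    exact ⟨S.mul_mem hx hy, T.mul_mem hx' hy'⟩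
  ldiv_mem := by
    rintro x y ⟨hx, hx'⟩ ⟨hy, hy'⟩
    exact ⟨S.ldiv_mem hx hy, T.ldiv_mem hx' hy'⟩
  rdiv_mem := by
    rintro x y ⟨hx, hx'⟩ ⟨hy, hy'⟩
    exact ⟨S.rdiv_mem hx hy, T.rdiv_mem hx' hy'⟩

theorem GenBy.image {U : Set Q} (h : GenBy U) {f : Q → P} (hf : IsHom f)
    (hs : Function.Surjective f) : GenBy (f '' U) := by
  intro S hS x
  obtain ⟨y, rfl⟩ := hs x
  exact h (SubL.comap f hf S) (fun z hz => hS ⟨z, hz, rfl⟩) y

theorem SubL.gen_genBy (U : Set Q) :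
    GenBy {x : (SubL.gen U).carrier | x.1 ∈ U} := by
  intro S hS x
  obtain ⟨h, h'⟩ := x.2 (SubL.mapCoe _ S) (fun z hz => ⟨SubL.subset_gen U hz, hS hz⟩)
  exact h'

/-- A homomorphism to a commutative group that vanishes on generators vanishes. -/
theorem GenBy.eq_zero {U : Set Q} (h : GenBy U) {A : Type*} [AddCommGroup A] {f : Q → A}
    (hf : ∀ x y, f (x * y) = f x + f y) (h0 : ∀ x ∈ U, f x = 0) (x : Q) : f x = 0 := by
  have h1 : f 1 = 0 := by
    have := hf 1 1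
    rw [lmul_one] at this
    exact left_eq_add.1 this
  let S : SubL Q :=
    { carrier := {x | f x = 0}
      one_mem := h1
      mul_mem := by
        intro x y hx hy
        change f (x * y) = 0
        rw [hf, show f x = 0 from hx, show f y = 0 from hy, add_zero]
      ldiv_mem := by
        intro x y hx hy
        change f (ldiv x y) = 0
        have := hf x (ldiv x y)
        rw [LoopStr.mul_ldiv, show f x = 0 from hx, show f y = 0 from hy, zero_add] at this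
        exact this.symm
      rdiv_mem := by
        intro x y hx hy
        change f (rdiv x y) = 0
        have := hf (rdiv x y) y
        rw [LoopStr.rdiv_mul, show f x = 0 from hx, show f y = 0 from hy, add_zero] at this
        exact this.symm }
  exact h S h0 x

end sub

end Pool.Agent.Lib.MP_c6182e_al
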