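import Pool.Agent.Lib.MP_c6182e_al.Structure

/-!
Three generated nilpotent loops with commuting inner mappings: all associators are central.
-/

universe u v

namespace Pool.Agent.Lib.MP_c6182e_al

open LoopStr

section classfour

variable {Q : Type u} [LoopStr Q]

/-- Elements of `kerQ` fixing `1` fix the elements `d` with `lp d ∈ cker`. -/
theorem kerQ_fix {k : Equiv.Perm Q} (hk : k ∈ kerQ Q) (hk1 : k 1 = 1) {d : Q}
    (hd : lp d ∈ cker Q) : k d = d := by
  have := congrArg (fun g : Equiv.Perm Q => g 1) ((mem_cker.1 hd).2 k hk)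
  simp only [Equiv.Perm.mul_apply, lp_apply, lmul_one, hk1] at this
  exact this

theorem ll_mem_kerQ (h : AssocCen Q) (x y : Q) : ll x y ∈ kerQ Q :=
  ⟨inn_le_mlt (ll_mem x y), fun z => pr_eq_of_sv (h x y z)⟩

theorem rr_mem_kerQ (h : AssocCen Q) (x y : Q) : rr x y ∈ kerQ Q :=
  ⟨inn_le_mlt (rr_mem x y), fun z => pr_eq_of_sv (rr_mem_cen h z x y)⟩

variable (hA : AIM Q) (hAs : AssocCen (QC Q))

include hA in
theorem hA' : AIM (QC Q) := aim_QC hA

include hA hAs in
theorem h3' : Cl2 (QC (QC Q)) := Cl2_QC_of_assocCen (aim_QC hA) hAs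

/-- The form data of the central quotient. -/
noncomputable def FP : FormData (QC Q) (Additive (Cen (QC Q))) (Additive (BB (hA' hA))) :=
  formData (hA' hA) (h3' hA hAs)

theorem alB_eq_one (x y z : QC Q) : alB (hA' hA) (h3' hA hAs) x y z = 1 := by
  unfold alB
  rw [inv_eq_one]
  apply Subtype.ext
  apply Subtype.ext
  change pr (sv (ll x y) z) = 1
  rw [pr_eq_one]
  exact hAs x y z

theorem FP_Y (a b c d : QC Q) : (FP hA hAs).Y a b c d = 0 := by
  change Additive.ofMul (phi (hA' hA) (Ti a) (alB (hA' hA) (h3' hA hAs) b c d)) = 0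
  rw [alB_eq_one hA hAs, map_one]; rfl

/-- The value of `W` in the central quotient, computed upstairs. -/
theorem FP_W (x y z : Q) :
    ((FP hA hAs).W (pr x) (pr y) (pr z)).toMul.1 = pr (sv (tt x) (sv (tt y) z)) := by
  change (phi (hA' hA) (Ti (pr x)) (sB (hA' hA) (Ti (pr y)) (pr z) _)).1 = _
  rw [phi_sB, pr_sv_tt, pr_sv_tt]
  rfl

include hA hAs in
theorem pr_sv_mem' (x y z : Q) : pr (sv (Ti x).1 (sv (tt y) z)) ∈ cen (QC Q) := by
  have := ((FP hA hAs).W (pr x) (pr y) (pr z)).toMul.2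
  rw [FP_W] at this
  exact this

/-- The value of `W` in the central quotient, as an element of `BB`. -/
noncomputable def wB (x y z : Q) : BB hA := sB hA (Ti x) (sv (tt y) z) (pr_sv_mem' hA hAs x y z)

theorem wB_coe (x y z : Q) :
    (wB hA hAs x y z).1 = ((FP hA hAs).W (pr x) (pr y) (pr z)).toMul := by
  apply Subtype.ext
  rw [FP_W]
  rfl

/-- The fourfold form. -/
noncomputable def f4 (t x y z : Q) : Additive (Cen Q) :=
  Additive.ofMul (phi hA (Ti t) (wB hA hAs x y z))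

theorem wB_ext {x y z x' y' z' : Q}
    (h : (FP hA hAs).W (pr x) (pr y) (pr z) = (FP hA hAs).W (pr x') (pr y') (pr z')) :
    wB hA hAs x y z = wB hA hAs x' y' z' := by
  apply Subtype.ext
  rw [wB_coe, wB_coe, h]

theorem wB_inv {x y z x' y' z' : Q}
    (h : (FP hA hAs).W (pr x) (pr y) (pr z) = - (FP hA hAs).W (pr x') (pr y') (pr z')) :
    wB hA hAs x y z = (wB hA hAs x' y' z')⁻¹ := by
  apply Subtype.ext
  change (wB hA hAs x y z).1 = ((wB hA hAs x' y' z').1)⁻¹
  rw [wB_coe, wB_coe, h]; rfl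

theorem wB_one {x y z : Q} (h : (FP hA hAs).W (pr x) (pr y) (pr z) = 0) :
    wB hA hAs x y z = 1 := by
  apply Subtype.ext
  rw [wB_coe, h]; rfl

theorem wB_mul {x y z x' y' z' x'' y'' z'' : Q}
    (h : (FP hA hAs).W (pr x) (pr y) (pr z) = (FP hA hAs).W (pr x') (pr y') (pr z') +
      (FP hA hAs).W (pr x'') (pr y'') (pr z'')) :
    wB hA hAs x y z = wB hA hAs x' y' z' * wB hA hAs x'' y'' z'' := by
  apply Subtype.ext
  change (wB hA hAs x y z).1 = (wB hA hAs x' y' z').1 * (wB hA hAs x'' y'' z'').1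
  rw [wB_coe, wB_coe, wB_coe, h]; rfl

theorem f4_23 (t x y z : Q) : f4 hA hAs t x y z = f4 hA hAs t y x z := by
  unfold f4
  rw [wB_ext hA hAs ((FP hA hAs).W12 (pr x) (pr y) (pr z))]

theorem f4_34 (t x y z : Q) : f4 hA hAs t x y z = - f4 hA hAs t x z y := by
  unfold f4
  rw [wB_inv hA hAs ((FP hA hAs).W23 (pr x) (pr y) (pr z)), map_inv]; rfl

theorem f4_12 (t x y z : Q) : f4 hA hAs t x y z = f4 hA hAs x t y z := by
  unfold f4 wB
  rw [phi_symm hA (Ti t) (Ti x) (sv (tt y) z)]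

theorem f4_self23 (t x z : Q) : f4 hA hAs t x x z = 0 := by
  unfold f4
  rw [wB_one hA hAs ((FP hA hAs).W_self12 (pr x) (pr z)), map_one]; rfl

theorem f4_self34 (t x y : Q) : f4 hA hAs t x y y = 0 := by
  unfold f4
  rw [wB_one hA hAs ((FP hA hAs).W_self23 (pr x) (pr y)), map_one]; rfl

theorem f4_self24 (t x y : Q) : f4 hA hAs t x y x = 0 := by
  unfold f4
  rw [wB_one hA hAs ((FP hA hAs).W_self13 (pr x) (pr y)), map_one]; rfl

theorem f4_self12 (x y z : Q) : f4 hA hAs x x y z = 0 := by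
  rw [f4_23, f4_12, f4_self23]

theorem f4_self13 (x y z : Q) : f4 hA hAs x y x z = 0 := by
  rw [f4_23, f4_self12]

theorem f4_self14 (x y z : Q) : f4 hA hAs x y z x = 0 := by
  rw [f4_34, f4_self13, neg_zero]

theorem f4_add4 (t x y z z' : Q) :
    f4 hA hAs t x y (z * z') = f4 hA hAs t x y z + f4 hA hAs t x y z' := by
  unfold f4
  rw [wB_mul hA hAs (z := z * z') (z' := z) (z'' := z')
    ((FP hA hAs).W_add3 (FP_Y hA hAs) (pr z) (pr z') (pr x) (pr y)), map_mul]
  rfl

theorem f4_add3 (t x y z z' : Q) :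
    f4 hA hAs t x (z * z') y = f4 hA hAs t x z y + f4 hA hAs t x z' y := by
  rw [f4_34, f4_add4, f4_34 hA hAs t x z y, f4_34 hA hAs t x z' y]; abel

theorem f4_add2 (t x y z z' : Q) :
    f4 hA hAs t (z * z') x y = f4 hA hAs t z x y + f4 hA hAs t z' x y := by
  rw [f4_23, f4_add3, f4_23 hA hAs t z x y, f4_23 hA hAs t z' x y]

theorem f4_add1 (t x y z z' : Q) :
    f4 hA hAs (z * z') t x y = f4 hA hAs z t x y + f4 hA hAs z' t x y := by
  rw [f4_12, f4_add2, f4_12 hA hAs z t x y, f4_12 hA hAs z' t x y]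

theorem f4_zero {g1 g2 g3 : Q} (hU : GenBy ({g1, g2, g3} : Set Q)) (a b c d : Q) :
    f4 hA hAs a b c d = 0 := by
  set U : Set Q := {g1, g2, g3} with hUdef
  have s1 : ∀ a ∈ U, ∀ b ∈ U, ∀ c ∈ U, ∀ d ∈ U, f4 hA hAs a b c d = 0 := by
    intro a ha b hb c hc d hd
    rcases FormData.pigeon ha hb hc hd with rfl | rfl | rfl | rfl | rfl | rfl
    · exact f4_self12 hA hAs _ _ _
    · exact f4_self13 hA hAs _ _ _
    · exact f4_self14 hA hAs _ _ _
    · exact f4_self23 hA hAs _ _ _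
    · exact f4_self24 hA hAs _ _ _
    · exact f4_self34 hA hAs _ _ _
  have s2 : ∀ a ∈ U, ∀ b ∈ U, ∀ c ∈ U, ∀ d, f4 hA hAs a b c d = 0 := by
    intro a ha b hb c hc d
    exact hU.eq_zero (f := fun d => f4 hA hAs a b c d) (fun x y => f4_add4 hA hAs a b c x y)
      (fun d hd => s1 a ha b hb c hc d hd) d
  have s3 : ∀ a ∈ U, ∀ b ∈ U, ∀ c d, f4 hA hAs a b c d = 0 := by
    intro a ha b hb c d
    exact hU.eq_zero (f := fun c => f4 hA hAs a b c d) (fun x y => f4_add3 hA hAs a b d x y)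
      (fun c hc => s2 a ha b hb c hc d) c
  have s4 : ∀ a ∈ U, ∀ b c d, f4 hA hAs a b c d = 0 := by
    intro a ha b c d
    exact hU.eq_zero (f := fun b => f4 hA hAs a b c d) (fun x y => f4_add2 hA hAs a c d x y)
      (fun b hb => s3 a ha b hb c d) b
  exact hU.eq_zero (f := fun a => f4 hA hAs a b c d) (fun x y => f4_add1 hA hAs b c d x y)
      (fun a ha => s4 a ha b c d) a

include hA hAs in
theorem W_zero' {g1 g2 g3 : Q} (hU : GenBy ({g1, g2, g3} : Set Q)) (x y z : Q) :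
    sv (tt x) (sv (tt y) z) ∈ cen Q := by
  have hd : lp (pr (sv (tt y) z)) ∈ cker (QC Q) := by
    rw [pr_sv_tt]
    exact lp_sv_mem (aim_QC hA) (tt_mem _) _
  apply mem_cen_of_sv
  · intro t
    have h : phi hA (Ti t) (sB hA (Ti x) (sv (tt y) z) (pr_sv_mem' hA hAs x y z)) = 1 :=
      f4_zero hA hAs hU t x y z
    exact sv_of_phi hA h
  · intro u v
    have e1 : pr (sv (Li u v).1 (sv (tt y) z)) = 1 := by
      change pr (sv (ll u v) (sv (tt y) z)) = 1
      rw [pr_sv_ll, sv_eq_one]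
      exact kerQ_fix (ll_mem_kerQ hAs _ _) (inn_one (ll_mem _ _)) hd
    have e2 : pr (sv (Li u v).1 (sv (tt y) z)) ∈ cen (QC Q) := by rw [e1]; exact one_mem_cen
    have e3 := phi_symm hA (Li u v) (Ti x) (sv (tt y) z) e2 (pr_sv_mem' hA hAs x y z)
    have e4 : sB hA (Li u v) (sv (tt y) z) e2 = 1 := by
      apply Subtype.ext
      apply Subtype.ext
      exact e1
    rw [e4, map_one] at e3
    exact sv_of_phi hA e3
  · intro u v
    have e1 : pr (sv (Ri u v).1 (sv (tt y) z)) = 1 := by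
      change pr (sv (rr u v) (sv (tt y) z)) = 1
      rw [pr_sv_rr, sv_eq_one]
      exact kerQ_fix (rr_mem_kerQ hAs _ _) (inn_one (rr_mem _ _)) hd
    have e2 : pr (sv (Ri u v).1 (sv (tt y) z)) ∈ cen (QC Q) := by rw [e1]; exact one_mem_cen
    have e3 := phi_symm hA (Ri u v) (Ti x) (sv (tt y) z) e2 (pr_sv_mem' hA hAs x y z)
    have e4 : sB hA (Ri u v) (sv (tt y) z) e2 = 1 := by
      apply Subtype.ext
      apply Subtype.ext
      exact e1
    rw [e4, map_one] at e3
    exact sv_of_phi hA e3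

include hA hAs in
/-- The central quotient has class at most two. -/
theorem cl2_quot {g1 g2 g3 : Q} (hU : GenBy ({g1, g2, g3} : Set Q)) : Cl2 (QC Q) := by
  apply Cl2_of_gens
  · intro y z
    obtain ⟨y, rfl⟩ := pr_surjective y
    obtain ⟨z, rfl⟩ := pr_surjective z
    have hd : lp (sv (tt (pr y)) (pr z)) ∈ cker (QC Q) := lp_sv_mem (aim_QC hA) (tt_mem _) _
    apply mem_cen_of_sv
    · intro x
      obtain ⟨x, rfl⟩ := pr_surjective x
      rw [← pr_sv_tt, ← pr_sv_tt, pr_eq_one]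
      exact W_zero' hA hAs hU x y z
    · intro u v
      rw [sv_eq_one]
      exact kerQ_fix (ll_mem_kerQ hAs _ _) (inn_one (ll_mem _ _)) hd
    · intro u v
      rw [sv_eq_one]
      exact kerQ_fix (rr_mem_kerQ hAs _ _) (inn_one (rr_mem _ _)) hd
  · intro x y z
    exact hAs x y z
  · intro x y z
    exact rr_mem_cen hAs z x y

include hA hAs in
/-- One step of the descent. -/
theorem three_gen_step {g1 g2 g3 : Q} (hU : GenBy ({g1, g2, g3} : Set Q)) : AssocCen Q :=
  three_gen_cl3 hA (cl2_quot hA hAs hU) hU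

end classfour

/-- Nilpotency of class at most `n`. -/
def LNil : ℕ → ∀ (Q : Type u) [LoopStr Q], Prop
  | 0, Q, _ => Subsingleton Q
  | n + 1, Q, _ => LNil n (QC Q)

theorem three_gen (n : ℕ) : ∀ (Q : Type u) [LoopStr Q], AIM Q → LNil n Q →
    ∀ {g1 g2 g3 : Q}, GenBy ({g1, g2, g3} : Set Q) → AssocCen Q := by
  induction n with
  | zero =>
    intro Q _ _ hn g1 g2 g3 _ x y z
    have : Subsingleton Q := hn
    rw [Subsingleton.elim (sv (ll x y) z) 1]
    exact one_mem_cen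
  | succ n ih =>
    intro Q _ hA hn g1 g2 g3 hU
    have hU' : GenBy ({pr g1, pr g2, pr g3} : Set (QC Q)) := by
      have := hU.image pr_hom pr_surjective
      rwa [Set.image_insert_eq, Set.image_pair] at this
    exact three_gen_step hA (ih (QC Q) (aim_QC hA) hn hU') hU

theorem two_gen (n : ℕ) : ∀ (Q : Type u) [LoopStr Q], AIM Q → LNil n Q →
    ∀ {g1 g2 : Q}, GenBy ({g1, g2} : Set Q) → Cl2 Q := by
  induction n with
  | zero =>
    intro Q _ _ hn g1 g2 _ h _ a
    have : Subsingleton Q := hn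
    rw [Subsingleton.elim (sv h a) 1]
    exact one_mem_cen
  | succ n ih =>
    intro Q _ hA hn g1 g2 hU
    have hU' : GenBy ({pr g1, pr g2} : Set (QC Q)) := by
      have := hU.image pr_hom pr_surjective
      rwa [Set.image_pair] at this
    exact two_gen_cl3 hA (ih (QC Q) (aim_QC hA) hn hU') hU

end Pool.Agent.Lib.MP_c6182e_al
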