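import Mathlib

/-!
The purely algebraic part of the analysis of loops of nilpotency class three with commuting inner
mappings: the multilinear forms `W`, `Y`, `X`.
-/

universe u v w

namespace Pool.Agent.Lib.MP_c6182e_al

/-- The data extracted from a class three loop with commuting inner mappings. -/
structure FormData (Q : Type u) (A : Type v) (B : Type w) [Mul Q] [AddCommGroup A]
    [AddCommGroup B] where
  φT : Q → B →+ A
  φL : Q → Q → B →+ A
  φR : Q → Q → B →+ A
  φC : Q → Q → B →+ A
  α : Q → Q → Q → B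
  C : Q → Q → B
  C_anti : ∀ x y, C x y = - C y x
  C_self : ∀ x, C x x = 0
  TT : ∀ x y a, φT x (C y a) = φT y (C x a)
  TL : ∀ t u v a, φL u v (C t a) = - φT t (α u v a)
  TR : ∀ t u v a, φR u v (C t a) = φT t (α a u v)
  TC : ∀ t u v a, φC u v (C t a) = - φT t (α u a v)
  LL : ∀ x y u v z, φL x y (α u v z) = φL u v (α x y z)
  LR : ∀ x y u v z, φR x y (α u v z) = - φL u v (α z x y)
  LC : ∀ x y u v z, φC x y (α u v z) = φL u v (α x z y)
  RR : ∀ x y u v z, φR x y (α z u v) = φR u v (α z x y)
  RC : ∀ x y u v z, φR x y (α u z v) = - φC u v (α z x y)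
  CC : ∀ x y u v z, φC x y (α u z v) = φC u v (α x z y)
  Tid : ∀ x y b, φT (x * y) b = φT x b + φT y b + φC x y b + φR x y b - φL x y b
  cocyc : ∀ x y z u, α y z u - α (x * y) z u + α x (y * z) u - α x y (z * u) + α x y z = 0
  αcomm : ∀ x y u v, α (x * y) u v = α (y * x) u v

namespace FormData

variable {Q : Type u} {A : Type v} {B : Type w} [Mul Q] [AddCommGroup A] [AddCommGroup B]
variable (F : FormData Q A B)

/-- The form `Y`. -/
def Y (t u v z : Q) : A := F.φT t (F.α u v z)
/-- The form `X`. -/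
def X (x y u v z : Q) : A := F.φL x y (F.α u v z)
/-- The form `W`. -/
def W (x y a : Q) : A := F.φT x (F.C y a)

theorem Y4 (t u v a : Q) : F.Y t u v a = - F.Y a u v t := by
  have h1 := F.TL t u v a
  have h2 := F.TL a u v t
  rw [F.C_anti t a, map_neg, h2, neg_neg] at h1
  unfold Y
  rw [h1, neg_neg]

theorem Y2 (t u v a : Q) : F.Y t a u v = - F.Y a t u v := by
  have h1 := F.TR t u v a
  have h2 := F.TR a u v t
  rw [F.C_anti t a, map_neg, h2] at h1
  unfold Y
  rw [← h1]

theorem Y3 (t u v a : Q) : F.Y t u a v = - F.Y a u t v := by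
  have h1 := F.TC t u v a
  have h2 := F.TC a u v t
  rw [F.C_anti t a, map_neg, h2, neg_neg] at h1
  unfold Y
  rw [h1, neg_neg]

theorem Y4_self (t u v : Q) : F.Y t u v t = 0 := by
  have h1 := F.TL t u v t
  rw [F.C_self, map_zero] at h1
  unfold Y
  rw [← neg_eq_zero, ← h1]

theorem Y2_self (t u v : Q) : F.Y t t u v = 0 := by
  have h1 := F.TR t u v t
  rw [F.C_self, map_zero] at h1
  unfold Y
  exact h1.symm

theorem Y3_self (t u v : Q) : F.Y t u t v = 0 := by
  have h1 := F.TC t u v t
  rw [F.C_self, map_zero] at h1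
  unfold Y
  rw [← neg_eq_zero, ← h1]

/-- antisymmetry in the last three variables -/
theorem Y23 (t a b c : Q) : F.Y t a b c = - F.Y t b a c := by
  rw [F.Y2 t b c a, F.Y3 a t c b, neg_neg, F.Y2 b a c t]

theorem Y34 (t a b c : Q) : F.Y t a b c = - F.Y t a c b := by
  rw [F.Y3 t a c b, F.Y4 b a t c, neg_neg, F.Y3 c a b t]

theorem Y24 (t a b c : Q) : F.Y t a b c = - F.Y t c b a := by
  rw [F.Y2 t b c a, F.Y4 a t b c, neg_neg, F.Y2 c b a t]

theorem p1 (a b c d e : Q) : F.X a b c d e = F.X c d a b e := F.LL a b c d e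

theorem p2 (a b c d e : Q) : F.X a b c d e = F.X a d e b c := by
  have h := F.RR d e b c a
  rw [F.LR, F.LR, neg_inj] at h
  exact h

theorem p3 (a b c d e : Q) : F.X a b c d e = F.X b d a e c := by
  have h := F.RC d e a c b
  rw [F.LR, F.LC, neg_inj] at h
  exact h

theorem p4 (a b c d e : Q) : F.X a b c d e = F.X c b a e d := by
  have h := F.CC c e a d b
  rw [F.LC, F.LC] at h
  exact h

theorem X231 (a b c d e : Q) : F.X a b c d e = F.X b c a d e := by
  rw [F.p3 a b c d e, F.p4 b d a e c, F.p1 a d b c e]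

theorem X342 (a b c d e : Q) : F.X a b c d e = F.X a c d b e := by
  rw [F.p4 a b c d e, F.p3 a c d b e]

theorem X453 (a b c d e : Q) : F.X a b c d e = F.X a b d e c := by
  rw [F.p2 a b c d e, F.p3 a d e b c, F.p4 d b a c e]

/-- The defect of additivity of `Y` in the first variable. -/
def D (x y u v z : Q) : A := F.Y (x * y) u v z - F.Y x u v z - F.Y y u v z

theorem D_eq (x y u v z : Q) : F.D x y u v z = F.X y x u v z - F.X x y u v z - F.X x y u v z := by
  have h1 : F.D x y u v z = F.φC x y (F.α u v z) + F.φR x y (F.α u v z)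
      - F.φL x y (F.α u v z) := by
    unfold D Y
    rw [F.Tid]; abel
  rw [h1, F.LC, F.LR]
  have ha : F.X u v z x y = F.X x y u v z := by
    rw [F.p1 u v z x y, F.p3 z x u v y, F.p2 x v z y u]
  have hb : F.X u v x z y = F.X y x u v z := by
    rw [F.p1 u v x z y, F.p2 x z u v y, ← F.p3 y x u v z]
  change F.X u v x z y + - F.X u v z x y - F.X x y u v z = _
  rw [ha, hb]; abel

theorem D_symm (x y u v z : Q) : F.D x y u v z = F.D y x u v z := by
  have h : F.Y (x * y) u v z = F.Y (y * x) u v z := by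
    rw [F.Y2, F.Y2 (y * x)]
    unfold Y
    rw [F.αcomm]
  unfold D
  rw [h]; abel

theorem X3 (x y u v z : Q) :
    F.X x y u v z + F.X x y u v z + F.X x y u v z =
      F.X y x u v z + F.X y x u v z + F.X y x u v z := by
  have h := F.D_symm x y u v z
  rw [F.D_eq, F.D_eq] at h
  have : F.X y x u v z + F.X y x u v z + F.X y x u v z
      - (F.X x y u v z + F.X x y u v z + F.X x y u v z) =
      (F.X y x u v z - F.X x y u v z - F.X x y u v z)
        - (F.X x y u v z - F.X y x u v z - F.X y x u v z) := by abel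
  rw [h, sub_self] at this
  exact (sub_eq_zero.1 this).symm

theorem Xd1234 (a b c d e : Q) : F.X a b c d e = F.X b a d c e := by
  rw [F.p1 a b c d e, F.p2 c d a b e, F.p1 c b e d a, F.p3 e d c b a, F.p3 d b e a c]

theorem Xd1245 (a b c d e : Q) : F.X a b c d e = F.X b a c e d := by
  rw [F.p3 a b c d e, F.p1 b d a e c, ← F.p3 b a c e d]

theorem X3' (x y u v z : Q) :
    F.X y x u v z - F.X x y u v z - F.X x y u v z =
      F.X x y u v z - F.X y x u v z - F.X y x u v z := by
  have h := F.X3 x y u v z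
  have : (F.X y x u v z - F.X x y u v z - F.X x y u v z) -
      (F.X x y u v z - F.X y x u v z - F.X y x u v z) =
      (F.X y x u v z + F.X y x u v z + F.X y x u v z) -
      (F.X x y u v z + F.X x y u v z + F.X x y u v z) := by abel
  rw [h, sub_self] at this
  exact sub_eq_zero.1 this

/-- `D` is invariant under all permutations. -/
theorem D_swap23 (a b c d e : Q) : F.D a b c d e = F.D a c b d e := by
  rw [F.D_eq, F.D_eq]
  have h1 : F.X b a c d e = F.X a c b d e := F.X231 b a c d e
  have h2 : F.X c a b d e = F.X a b c d e := F.X231 c a b d e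
  rw [h1, h2, ← h1]
  exact F.X3' a b c d e

theorem D_swap34 (a b c d e : Q) : F.D a b c d e = F.D a b d c e := by
  rw [F.D_eq, F.D_eq, ← F.Xd1234 a b c d e, ← F.Xd1234 b a c d e]
  exact F.X3' a b c d e

theorem D_swap45 (a b c d e : Q) : F.D a b c d e = F.D a b c e d := by
  rw [F.D_eq, F.D_eq, ← F.Xd1245 a b c d e, ← F.Xd1245 b a c d e]
  exact F.X3' a b c d e

theorem Yadd1 (x y u v z : Q) : F.Y (x * y) u v z = F.Y x u v z + F.Y y u v z + F.D x y u v z := by
  unfold D; abel

theorem Yadd2 (t x y v z : Q) :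
    F.Y t (x * y) v z = F.Y t x v z + F.Y t y v z - F.D x y t v z := by
  rw [F.Y2 t v z (x * y), F.Yadd1, F.Y2 t v z x, F.Y2 t v z y]; abel

theorem Yadd3 (t u x y z : Q) :
    F.Y t u (x * y) z = F.Y t u x z + F.Y t u y z - F.D x y u t z := by
  rw [F.Y3 t u z (x * y), F.Yadd1, F.Y3 t u z x, F.Y3 t u z y]; abel

theorem Yadd4 (t u v x y : Q) :
    F.Y t u v (x * y) = F.Y t u v x + F.Y t u v y - F.D x y u v t := by
  rw [F.Y4 t u v (x * y), F.Yadd1, F.Y4 t u v x, F.Y4 t u v y]; abel

theorem Ycoc (t x y z u : Q) :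
    F.Y t y z u - F.Y t (x * y) z u + F.Y t x (y * z) u - F.Y t x y (z * u) + F.Y t x y z = 0 := by
  have h := congrArg (F.φT t) (F.cocyc x y z u)
  rw [map_add, map_sub, map_add, map_sub, map_zero] at h
  exact h

theorem Xcoc (a b x y z u : Q) :
    F.X a b y z u - F.X a b (x * y) z u + F.X a b x (y * z) u - F.X a b x y (z * u)
      + F.X a b x y z = 0 := by
  have h := congrArg (F.φL a b) (F.cocyc x y z u)
  rw [map_add, map_sub, map_add, map_sub, map_zero] at h
  exact h

theorem D_zero (x y t z u : Q) : F.D x y t z u = 0 := by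
  have h := F.Ycoc t x y z u
  rw [F.Yadd2, F.Yadd3, F.Yadd4] at h
  have h1 : F.D y z x t u = F.D x y t z u := by
    rw [F.D_swap23 y z x t u, F.D_symm y x, F.D_swap34 x y z t u]
  have h2 : F.D z u x y t = F.D x y t z u := by
    rw [F.D_swap23 z u x y t, F.D_symm z x, F.D_swap34 x z u y t, F.D_swap23 x z y u t,
      F.D_swap45 x y z u t, F.D_swap34 x y z t u]
  rw [h1, h2] at h
  have : F.D x y t z u = F.Y t y z u - (F.Y t x z u + F.Y t y z u - F.D x y t z u) +
      (F.Y t x y u + F.Y t x z u - F.D x y t z u) -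
      (F.Y t x y z + F.Y t x y u - F.D x y t z u) + F.Y t x y z := by abel
  rw [this]; exact h

theorem X12' (x y u v z : Q) : F.X y x u v z = F.X x y u v z + F.X x y u v z := by
  have h := F.D_zero x y u v z
  rw [F.D_eq] at h
  have h2 : F.X y x u v z = (F.X y x u v z - F.X x y u v z - F.X x y u v z)
    + (F.X x y u v z + F.X x y u v z) := by abel
  rw [h2, h, zero_add]

theorem three_X (x y u v z : Q) : F.X x y u v z + F.X x y u v z + F.X x y u v z = 0 := by
  have h1 := F.X12' x y u v z
  have h2 := F.X12' y x u v z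
  rw [h1] at h2
  have : F.X x y u v z + F.X x y u v z + F.X x y u v z =
    (F.X x y u v z + F.X x y u v z + (F.X x y u v z + F.X x y u v z)) - F.X x y u v z := by abel
  rw [this, ← h2, sub_self]

theorem X12 (x y u v z : Q) : F.X y x u v z = - F.X x y u v z := by
  rw [F.X12' x y u v z, eq_neg_iff_add_eq_zero]
  exact F.three_X x y u v z

theorem X34 (x y u v z : Q) : F.X x y v u z = - F.X x y u v z := by
  rw [← F.X12 x y u v z, F.Xd1234 y x u v z]

theorem X45 (x y u v z : Q) : F.X x y u z v = - F.X x y u v z := by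
  rw [← F.X12 x y u v z, F.Xd1245 y x u v z]

theorem X23 (x y u v z : Q) : F.X x u y v z = - F.X x y u v z := by
  rw [F.X231 x u y v z, F.X231 x y u v z, F.X12 y u x v z]

/-- The defect of additivity of `X` in the first variable. -/
def E (x y z u a b : Q) : A := F.X (x * y) z u a b - F.X x z u a b - F.X y z u a b

theorem E_symm (x y z u a b : Q) : F.E x y z u a b = F.E y x z u a b := by
  have h : F.X (x * y) z u a b = F.X (y * x) z u a b := by
    rw [F.p1, F.p1 (y * x)]
    unfold X
    rw [F.αcomm]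
  unfold E
  rw [h]; abel

theorem E34 (x y z u a b : Q) : F.E x y u z a b = - F.E x y z u a b := by
  unfold E
  rw [F.X23 (x * y) z u a b, F.X23 x z u a b, F.X23 y z u a b]; abel

theorem E45 (x y z u a b : Q) : F.E x y z a u b = - F.E x y z u a b := by
  unfold E
  rw [F.X34 (x * y) z u a b, F.X34 x z u a b, F.X34 y z u a b]; abel

theorem E56 (x y z u a b : Q) : F.E x y z u b a = - F.E x y z u a b := by
  unfold E
  rw [F.X45 (x * y) z u a b, F.X45 x z u a b, F.X45 y z u a b]; abel

theorem Xadd1 (x y z u a b : Q) :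
    F.X (x * y) z u a b = F.X x z u a b + F.X y z u a b + F.E x y z u a b := by
  unfold E; abel

theorem Xmove3 (a b q z u : Q) : F.X a b q z u = F.X q z u a b := by
  rw [F.X34 q z a u b, F.X45 q z a b u, F.X23 q a z b u, F.X34 q a b z u, F.X12 a q b z u,
    F.X23 a b q z u]
  simp only [neg_neg]

theorem Xmove4 (a b x q u : Q) : F.X a b x q u = - F.X q a b x u := by
  rw [F.X12 a q b x u, F.X23 a b q x u, F.X34 a b x q u]
  simp only [neg_neg]

theorem Xmove5 (a b x y q : Q) : F.X a b x y q = F.X q a b x y := by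
  rw [F.X12 a q b x y, F.X23 a b q x y, F.X34 a b x q y, F.X45 a b x y q]
  simp only [neg_neg]

theorem E_rel (x y z u a b : Q) :
    F.E x y z u a b + F.E y z x u a b + F.E z u x y a b = 0 := by
  have h := F.Xcoc a b x y z u
  rw [F.Xmove3 a b (x * y) z u, F.Xmove4 a b x (y * z) u, F.Xmove5 a b x y (z * u),
    F.Xadd1, F.Xadd1, F.Xadd1, ← F.Xmove3 a b x z u, ← F.Xmove3 a b y z u,
    ← F.Xmove5 a b x y z, ← F.Xmove5 a b x y u] at h
  have h1 := F.Xmove4 a b x y u
  have h2 := F.Xmove4 a b x z u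
  have e1 : F.E y z a b x u = F.E y z x u a b := by
    rw [F.E45 y z a x b u, F.E34 y z x a b u, F.E56 y z x a u b, F.E45 y z x u a b]
    simp only [neg_neg]
  have e2 : F.E z u a b x y = F.E z u x y a b := by
    rw [F.E45 z u a x b y, F.E34 z u x a b y, F.E56 z u x a y b, F.E45 z u x y a b]
    simp only [neg_neg]
  rw [e1, e2] at h
  have h1' : F.X y a b x u = - F.X a b x y u := by rw [h1, neg_neg]
  have h2' : F.X z a b x u = - F.X a b x z u := by rw [h2, neg_neg]
  rw [h1', h2'] at h
  rw [← neg_eq_zero, ← h]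
  abel

theorem E_zero (x u y z a b : Q) : F.E x u y z a b = 0 := by
  have r1 := F.E_rel x y z u a b
  have r2 := F.E_rel y x z u a b
  have r3 := F.E_rel x z y u a b
  have r4 := F.E_rel x y u z a b
  have r5 := F.E_rel y x u z a b
  -- normalise
  rw [F.E_symm y x z u, F.E34 z u x y] at r2
  rw [F.E_symm z y x u] at r3
  rw [F.E34 x y z u, F.E_symm u z x y] at r4
  rw [F.E_symm y x u z, F.E34 x y z u, F.E_symm u z y x, F.E34 z u x y] at r5
  have k1 : F.E y u x z a b = F.E x y z u a b - F.E z u x y a b := by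
    rw [← sub_eq_zero, ← r4]; abel
  have k2 : F.E x z y u a b = F.E z u x y a b - F.E x y z u a b := by
    rw [← sub_eq_zero, ← r2]; abel
  have k3 : F.E y z x u a b = - F.E x y z u a b - F.E z u x y a b := by
    rw [← sub_eq_zero, ← r1]; abel
  have k4 : F.E x u y z a b = F.E x y z u a b + F.E z u x y a b := by
    rw [← sub_eq_zero, ← r5]; abel
  rw [k2, k3, k1] at r3
  rw [k4]
  have : F.E x y z u a b + F.E z u x y a b =
    -(F.E z u x y a b - F.E x y z u a b + (-F.E x y z u a b - F.E z u x y a b) +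
      (F.E x y z u a b - F.E z u x y a b)) := by abel
  rw [this, r3, neg_zero]

end FormData

end Pool.Agent.Lib.MP_c6182e_al
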