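import Pool.Agent.Lib.MP_c6182e_al.Center
import Pool.Agent.Lib.MP_c6182e_al.Forms

/-!
Vanishing of the forms on loops with few generators.
-/

universe u v w

namespace Pool.Agent.Lib.MP_c6182e_al

namespace FormData

variable {Q : Type u} {A : Type v} {B : Type w} [LoopStr Q] [AddCommGroup A] [AddCommGroup B]
variable (F : FormData Q A B)

theorem zero_of_neg {t : A} (h : t = -t) (h3 : t + t + t = 0) : t = 0 := by
  have h2 : t + t = 0 := by nth_rewrite 1 [h]; exact neg_add_cancel t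
  rwa [h2, zero_add] at h3

omit [LoopStr Q] in
theorem pigeon {g1 g2 g3 a b c d : Q} (ha : a ∈ ({g1, g2, g3} : Set Q))
    (hb : b ∈ ({g1, g2, g3} : Set Q)) (hc : c ∈ ({g1, g2, g3} : Set Q))
    (hd : d ∈ ({g1, g2, g3} : Set Q)) :
    a = b ∨ a = c ∨ a = d ∨ b = c ∨ b = d ∨ c = d := by
  simp only [Set.mem_insert_iff, Set.mem_singleton_iff] at ha hb hc hd
  rcases ha with rfl | rfl | rfl <;> rcases hb with rfl | rfl | rfl <;>
    rcases hc with rfl | rfl | rfl <;> rcases hd with rfl | rfl | rfl <;> simp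

omit [LoopStr Q] in
theorem pigeon2 {g1 g2 a b c : Q} (ha : a ∈ ({g1, g2} : Set Q))
    (hb : b ∈ ({g1, g2} : Set Q)) (hc : c ∈ ({g1, g2} : Set Q)) :
    a = b ∨ a = c ∨ b = c := by
  simp only [Set.mem_insert_iff, Set.mem_singleton_iff] at ha hb hc
  rcases ha with rfl | rfl <;> rcases hb with rfl | rfl <;>
    rcases hc with rfl | rfl <;> simp

theorem X_self12 (a c d e : Q) : F.X a a c d e = 0 :=
  zero_of_neg (F.X12 a a c d e) (F.three_X a a c d e)

theorem X_self23 (a b d e : Q) : F.X a b b d e = 0 :=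
  zero_of_neg (F.X23 a b b d e) (F.three_X a b b d e)

theorem X_self34 (a b c e : Q) : F.X a b c c e = 0 :=
  zero_of_neg (F.X34 a b c c e) (F.three_X a b c c e)

theorem X_self13 (a b d e : Q) : F.X a b a d e = 0 := by
  rw [F.X12 b a a d e, F.X_self23, neg_zero]

theorem X_self24 (a b c e : Q) : F.X a b c b e = 0 := by
  rw [F.X34 a b b c e, F.X_self23, neg_zero]

theorem X_self14 (a b c e : Q) : F.X a b c a e = 0 := by
  rw [F.X34 a b a c e, F.X_self13, neg_zero]

theorem X_addfst (x y z u a b : Q) :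
    F.X (x * y) z u a b = F.X x z u a b + F.X y z u a b := by
  rw [F.Xadd1, F.E_zero, add_zero]

theorem X_zero {g1 g2 g3 : Q} (hU : GenBy ({g1, g2, g3} : Set Q)) (a b c d e : Q) :
    F.X a b c d e = 0 := by
  set U : Set Q := {g1, g2, g3} with hUdef
  have s1 : ∀ a ∈ U, ∀ b ∈ U, ∀ c ∈ U, ∀ d ∈ U, ∀ e, F.X a b c d e = 0 := by
    intro a ha b hb c hc d hd e
    rcases pigeon ha hb hc hd with rfl | rfl | rfl | rfl | rfl | rfl
    · exact F.X_self12 _ _ _ _
    · exact F.X_self13 _ _ _ _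
    · exact F.X_self14 _ _ _ _
    · exact F.X_self23 _ _ _ _
    · exact F.X_self24 _ _ _ _
    · exact F.X_self34 _ _ _ _
  have s2 : ∀ a ∈ U, ∀ b ∈ U, ∀ c ∈ U, ∀ d e, F.X a b c d e = 0 := by
    intro a ha b hb c hc d e
    refine hU.eq_zero (f := fun d => F.X a b c d e) ?_ (fun d hd => s1 a ha b hb c hc d hd e) d
    intro x y
    rw [F.Xmove4 a b c (x * y) e, F.X_addfst, F.Xmove4 a b c x e, F.Xmove4 a b c y e]; abel
  have s3 : ∀ a ∈ U, ∀ b ∈ U, ∀ c d e, F.X a b c d e = 0 := by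
    intro a ha b hb c d e
    refine hU.eq_zero (f := fun c => F.X a b c d e) ?_ (fun c hc => s2 a ha b hb c hc d e) c
    intro x y
    rw [F.Xmove3 a b (x * y) d e, F.X_addfst, F.Xmove3 a b x d e, F.Xmove3 a b y d e]
  have s4 : ∀ a ∈ U, ∀ b c d e, F.X a b c d e = 0 := by
    intro a ha b c d e
    refine hU.eq_zero (f := fun b => F.X a b c d e) ?_ (fun b hb => s3 a ha b hb c d e) b
    intro x y
    rw [F.X12 (x * y) a c d e, F.X_addfst, F.X12 x a c d e, F.X12 y a c d e]; abel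
  refine hU.eq_zero (f := fun a => F.X a b c d e) ?_ (fun a ha => s4 a ha b c d e) a
  intro x y
  exact F.X_addfst x y b c d e

theorem Y_add1 (x y u v z : Q) : F.Y (x * y) u v z = F.Y x u v z + F.Y y u v z := by
  rw [F.Yadd1, F.D_zero, add_zero]

theorem Y_add2 (t x y v z : Q) : F.Y t (x * y) v z = F.Y t x v z + F.Y t y v z := by
  rw [F.Yadd2, F.D_zero, sub_zero]

theorem Y_add3 (t u x y z : Q) : F.Y t u (x * y) z = F.Y t u x z + F.Y t u y z := by
  rw [F.Yadd3, F.D_zero, sub_zero]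

theorem Y_add4 (t u v x y : Q) : F.Y t u v (x * y) = F.Y t u v x + F.Y t u v y := by
  rw [F.Yadd4, F.D_zero, sub_zero]

theorem Y_self23 (t a c : Q) : F.Y t a a c = 0 := by
  rw [F.Y2, F.Y3_self, neg_zero]

theorem Y_self24 (t a b : Q) : F.Y t a b a = 0 := by
  rw [F.Y2, F.Y4_self, neg_zero]

theorem Y_self34 (t a b : Q) : F.Y t b a a = 0 := by
  rw [F.Y3, F.Y4_self, neg_zero]

theorem Y_zero {g1 g2 g3 : Q} (hU : GenBy ({g1, g2, g3} : Set Q)) (a b c d : Q) :
    F.Y a b c d = 0 := by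
  set U : Set Q := {g1, g2, g3} with hUdef
  have s1 : ∀ a ∈ U, ∀ b ∈ U, ∀ c ∈ U, ∀ d ∈ U, F.Y a b c d = 0 := by
    intro a ha b hb c hc d hd
    rcases pigeon ha hb hc hd with rfl | rfl | rfl | rfl | rfl | rfl
    · exact F.Y2_self _ _ _
    · exact F.Y3_self _ _ _
    · exact F.Y4_self _ _ _
    · exact F.Y_self23 _ _ _
    · exact F.Y_self24 _ _ _
    · exact F.Y_self34 _ _ _
  have s2 : ∀ a ∈ U, ∀ b ∈ U, ∀ c ∈ U, ∀ d, F.Y a b c d = 0 := by
    intro a ha b hb c hc d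
    exact hU.eq_zero (f := fun d => F.Y a b c d) (fun x y => F.Y_add4 a b c x y)
      (fun d hd => s1 a ha b hb c hc d hd) d
  have s3 : ∀ a ∈ U, ∀ b ∈ U, ∀ c d, F.Y a b c d = 0 := by
    intro a ha b hb c d
    exact hU.eq_zero (f := fun c => F.Y a b c d) (fun x y => F.Y_add3 a b x y d)
      (fun c hc => s2 a ha b hb c hc d) c
  have s4 : ∀ a ∈ U, ∀ b c d, F.Y a b c d = 0 := by
    intro a ha b c d
    exact hU.eq_zero (f := fun b => F.Y a b c d) (fun x y => F.Y_add2 a x y c d)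
      (fun b hb => s3 a ha b hb c d) b
  exact hU.eq_zero (f := fun a => F.Y a b c d) (fun x y => F.Y_add1 x y b c d)
      (fun a ha => s4 a ha b c d) a

theorem W12 (x y a : Q) : F.W x y a = F.W y x a := F.TT x y a

theorem W23 (x y a : Q) : F.W x y a = - F.W x a y := by
  unfold W
  rw [F.C_anti, map_neg]

theorem W_self23 (x y : Q) : F.W x y y = 0 := by
  unfold W
  rw [F.C_self, map_zero]

theorem W_self13 (x y : Q) : F.W x y x = 0 := by
  rw [F.W12, F.W_self23]

theorem W_self12 (x a : Q) : F.W x x a = 0 := by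
  rw [F.W23, F.W_self13, neg_zero]

theorem W_add1 (hY : ∀ a b c d, F.Y a b c d = 0) (x y u z : Q) :
    F.W (x * y) u z = F.W x u z + F.W y u z := by
  unfold W
  rw [F.Tid, F.TL, F.TR, F.TC]
  have h1 : F.φT u (F.α x z y) = 0 := hY u x z y
  have h2 : F.φT u (F.α z x y) = 0 := hY u z x y
  have h3 : F.φT u (F.α x y z) = 0 := hY u x y z
  rw [h1, h2, h3]; abel

theorem W_add2 (hY : ∀ a b c d, F.Y a b c d = 0) (x y u z : Q) :
    F.W u (x * y) z = F.W u x z + F.W u y z := by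
  rw [F.W12, F.W_add1 hY, F.W12 x, F.W12 y]

theorem W_add3 (hY : ∀ a b c d, F.Y a b c d = 0) (x y u z : Q) :
    F.W u z (x * y) = F.W u z x + F.W u z y := by
  rw [F.W23, F.W_add2 hY, F.W23 u x z, F.W23 u y z]; abel

theorem W_zero {g1 g2 : Q} (hU : GenBy ({g1, g2} : Set Q))
    (hY : ∀ a b c d, F.Y a b c d = 0) (a b c : Q) :
    F.W a b c = 0 := by
  set U : Set Q := {g1, g2} with hUdef
  have s1 : ∀ a ∈ U, ∀ b ∈ U, ∀ c ∈ U, F.W a b c = 0 := by
    intro a ha b hb c hc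
    rcases pigeon2 ha hb hc with rfl | rfl | rfl
    · exact F.W_self12 _ _
    · exact F.W_self13 _ _
    · exact F.W_self23 _ _
  have s2 : ∀ a ∈ U, ∀ b ∈ U, ∀ c, F.W a b c = 0 := by
    intro a ha b hb c
    exact hU.eq_zero (f := fun c => F.W a b c) (fun x y => F.W_add3 hY x y a b)
      (fun c hc => s1 a ha b hb c hc) c
  have s3 : ∀ a ∈ U, ∀ b c, F.W a b c = 0 := by
    intro a ha b c
    exact hU.eq_zero (f := fun b => F.W a b c) (fun x y => F.W_add2 hY x y a c)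
      (fun b hb => s2 a ha b hb c) b
  exact hU.eq_zero (f := fun a => F.W a b c) (fun x y => F.W_add1 hY x y b c)
      (fun a ha => s3 a ha b c) a

end FormData

end Pool.Agent.Lib.MP_c6182e_al
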