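import Pool.Agent.Lib.MP_c6182e_al.ClassTwo
import Pool.Agent.Lib.MP_c6182e_al.Forms2

/-!
The form data of a loop of nilpotency class at most three with commuting inner mappings.
-/

universe u v

namespace Pool.Agent.Lib.MP_c6182e_al

open LoopStr

variable {Q : Type u} [LoopStr Q]

theorem one_mem_ckerl : lp (1 : Q) ∈ cker Q := by rw [lp_one]; exact one_mem _

theorem mul_mem_ckerl (hA : AIM Q) {c d : Q} (hc : lp c ∈ cker Q) (hd : lp d ∈ cker Q) :
    lp (c * d) ∈ cker Q := by
  have : lp (c * d) = lp ((lp c * lp d) 1) := by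
    rw [Equiv.Perm.mul_apply, lp_apply, lp_apply, lmul_one]
  rw [this]
  exact lp_mem_cker hA (mul_mem hc hd)

theorem ldiv_mem_ckerl (hA : AIM Q) {c d : Q} (hc : lp c ∈ cker Q) (hd : lp d ∈ cker Q) :
    lp (ldiv c d) ∈ cker Q := by
  have : lp (ldiv c d) = lp (((lp c)⁻¹ * lp d) 1) := by
    rw [Equiv.Perm.mul_apply, lp_apply, lp_inv_apply, lmul_one]
  rw [this]
  exact lp_mem_cker hA (mul_mem (inv_mem hc) hd)

/-- Central elements of the central quotient having a representative in `cker`. -/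
def BB (hA : AIM Q) : Subgroup (Cen (QC Q)) where
  carrier := {b | ∃ c : Q, lp c ∈ cker Q ∧ pr c = b.1}
  mul_mem' := by
    rintro a b ⟨c, hc, ec⟩ ⟨d, hd, ed⟩
    exact ⟨c * d, mul_mem_ckerl hA hc hd, by rw [pr_hom, ec, ed]; rfl⟩
  one_mem' := ⟨1, one_mem_ckerl, rfl⟩
  inv_mem' := by
    rintro a ⟨c, hc, ec⟩
    refine ⟨ldiv c 1, ldiv_mem_ckerl hA hc one_mem_ckerl, ?_⟩
    rw [pr_hom.map_ldiv, ec]
    rfl

/-- A representative. -/
noncomputable def rep {hA : AIM Q} (b : BB hA) : Q := Classical.choose b.2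

theorem rep_cker {hA : AIM Q} (b : BB hA) : lp (rep b) ∈ cker Q := (Classical.choose_spec b.2).1
theorem rep_pr {hA : AIM Q} (b : BB hA) : pr (rep b) = b.1.1 := (Classical.choose_spec b.2).2
theorem rep_cen {hA : AIM Q} (b : BB hA) : pr (rep b) ∈ cen (QC Q) := by
  rw [rep_pr]; exact b.1.2

/-- The pairing between the inner mapping group and `BB`. -/
noncomputable def phi (hA : AIM Q) : inn Q →* (BB hA →* Cen Q) where
  toFun h :=
    { toFun := fun b => ⟨sv h.1 (rep b), sv_mem_cen h.2 (rep_cen b)⟩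
      map_one' := by
        apply Subtype.ext
        change sv h.1 (rep (1 : BB hA)) = 1
        have : pr (rep (1 : BB hA)) = pr 1 := rep_pr _
        rw [sv_congr h.2 this, sv_of_mem_cen h.2 one_mem_cen]
      map_mul' := by
        intro a b
        apply Subtype.ext
        change sv h.1 (rep (a * b)) = sv h.1 (rep a) * sv h.1 (rep b)
        have e : pr (rep (a * b)) = pr (rep a * rep b) := by
          rw [rep_pr, pr_hom, rep_pr, rep_pr]; rfl
        rw [sv_congr h.2 e, sv_mul hA h.2 (rep_cker a) (rep_cen a) (rep_cen b)] }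
  map_one' := by
    ext b
    change sv 1 (rep b) = 1
    unfold sv
    exact ldiv_self _
  map_mul' := by
    intro h g
    ext b
    change sv (h.1 * g.1) (rep b) = sv h.1 (rep b) * sv g.1 (rep b)
    exact sv_mul_left h.2 g.2 (rep_cen b)

theorem phi_coe (hA : AIM Q) (h : inn Q) (b : BB hA) {c : Q} (hc : pr c = b.1.1) :
    (phi hA h b).1 = sv h.1 c := by
  change sv h.1 (rep b) = _
  exact sv_congr h.2 (by rw [rep_pr, hc])

/-- The displacement as an element of `BB`. -/
def sB (hA : AIM Q) (h : inn Q) (a : Q) (hc : pr (sv h.1 a) ∈ cen (QC Q)) : BB hA :=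
  ⟨⟨pr (sv h.1 a), hc⟩, ⟨sv h.1 a, lp_sv_mem hA h.2 a, rfl⟩⟩

theorem phi_sB (hA : AIM Q) (h g : inn Q) (a : Q) (hc : pr (sv g.1 a) ∈ cen (QC Q)) :
    (phi hA h (sB hA g a hc)).1 = sv h.1 (sv g.1 a) := phi_coe hA h _ rfl

theorem phi_symm (hA : AIM Q) (h g : inn Q) (a : Q) (hb : pr (sv h.1 a) ∈ cen (QC Q))
    (hc : pr (sv g.1 a) ∈ cen (QC Q)) :
    phi hA h (sB hA g a hc) = phi hA g (sB hA h a hb) := by
  apply Subtype.ext
  rw [phi_sB, phi_sB, key_symm hA h.2 g.2 hb hc]

theorem pr_sv (h : Equiv.Perm Q) (a : Q) (h' : Equiv.Perm (QC Q))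
    (e : ∀ x, pr (h x) = h' (pr x)) : pr (sv h a) = sv h' (pr a) := by
  unfold sv
  rw [pr_hom.map_ldiv, e]

theorem pr_sv_mem (h3 : Cl2 (QC Q)) (h : inn Q) (a : Q) : pr (sv h.1 a) ∈ cen (QC Q) := by
  obtain ⟨h', h1, h2⟩ := pr_hom.exists_inn h.2
  rw [pr_sv _ _ h' h2]
  exact h3 _ h1 _

/-- Generators as elements of `inn`. -/
def Ti (x : Q) : inn Q := ⟨tt x, tt_mem x⟩
/-- Generators as elements of `inn`. -/
def Li (x y : Q) : inn Q := ⟨ll x y, ll_mem x y⟩
/-- Generators as elements of `inn`. -/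
def Ri (x y : Q) : inn Q := ⟨rr x y, rr_mem x y⟩
/-- Elements `C_{x,y}` of `inn`. -/
def Ci (x y : Q) : inn Q := ⟨cc x y, cc_mem x y⟩

theorem pr_sv_tt (x a : Q) : pr (sv (tt x) a) = sv (tt (pr x)) (pr a) :=
  pr_sv _ _ _ (fun z => pr_hom.map_tt x z)
theorem pr_sv_ll (x y a : Q) : pr (sv (ll x y) a) = sv (ll (pr x) (pr y)) (pr a) :=
  pr_sv _ _ _ (fun z => pr_hom.map_ll x y z)
theorem pr_sv_rr (x y a : Q) : pr (sv (rr x y) a) = sv (rr (pr x) (pr y)) (pr a) :=
  pr_sv _ _ _ (fun z => pr_hom.map_rr x y z)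
theorem pr_sv_cc (x y a : Q) : pr (sv (cc x y) a) = sv (cc (pr x) (pr y)) (pr a) :=
  pr_sv _ _ _ (fun z => pr_hom.map_cc x y z)

section formdata

variable (hA : AIM Q) (h3 : Cl2 (QC Q))

/-- The associator, as an element of `BB`. -/
noncomputable def alB (x y z : Q) : BB hA := (sB hA (Li x y) z (pr_sv_mem h3 _ _))⁻¹

/-- The commutator, as an element of `BB`. -/
noncomputable def coB (x a : Q) : BB hA := sB hA (Ti x) a (pr_sv_mem h3 _ _)

theorem alB_coe (x y z : Q) :
    (alB hA h3 x y z).1 = al h3.assocCen (pr x) (pr y) (pr z) := by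
  unfold alB al sB
  apply Subtype.ext
  change ((⟨pr (sv (ll x y) z), _⟩ : Cen (QC Q))⁻¹).1 = _
  congr 2

theorem sB_rr (x y z : Q) : sB hA (Ri y z) x (pr_sv_mem h3 _ _) = alB hA h3 x y z := by
  unfold alB
  rw [eq_inv_iff_mul_eq_one]
  apply Subtype.ext
  apply Subtype.ext
  change pr (sv (rr y z) x) * pr (sv (ll x y) z) = 1
  rw [pr_sv_rr, pr_sv_ll]
  exact r_mul_l (h3.assocCen _ _ _) (h3 _ (rr_mem _ _) _)

theorem sB_cc (x y z : Q) : sB hA (Ci x z) y (pr_sv_mem h3 _ _) = (alB hA h3 x y z)⁻¹ := by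
  unfold alB
  rw [inv_inv]
  apply Subtype.ext
  apply Subtype.ext
  change pr (sv (cc x z) y) = pr (sv (ll x y) z)
  rw [pr_sv_cc, pr_sv_ll]
  exact c_eq_l (h3.assocCen _ _ _) (h3 _ (cc_mem _ _) _)

theorem sB_ll (x y z : Q) : sB hA (Li x y) z (pr_sv_mem h3 _ _) = (alB hA h3 x y z)⁻¹ := by
  unfold alB
  rw [inv_inv]

theorem coB_anti (x a : Q) : coB hA h3 x a = (coB hA h3 a x)⁻¹ := by
  rw [eq_inv_iff_mul_eq_one]
  apply Subtype.ext
  apply Subtype.ext
  change pr (sv (tt x) a) * pr (sv (tt a) x) = 1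
  rw [pr_sv_tt, pr_sv_tt]
  exact t_mul_t (h3 _ (tt_mem _) _) (h3 _ (tt_mem _) _)

theorem coB_self (x : Q) : coB hA h3 x x = 1 := by
  apply Subtype.ext
  apply Subtype.ext
  change pr (sv (tt x) x) = 1
  rw [t_self, pr_one]

theorem Ti_mul (x y : Q) : Ti (x * y) = Ri x y * Ti x * Ci x y * Ti y * (Li x y)⁻¹ := by
  apply Subtype.ext
  exact tt_mul x y

/-- The form data of a loop of class at most three with commuting inner mappings. -/
noncomputable def formData : FormData Q (Additive (Cen Q)) (Additive (BB hA)) where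
  φT x := MonoidHom.toAdditive (phi hA (Ti x))
  φL x y := MonoidHom.toAdditive (phi hA (Li x y))
  φR x y := MonoidHom.toAdditive (phi hA (Ri x y))
  φC x y := MonoidHom.toAdditive (phi hA (Ci x y))
  α x y z := Additive.ofMul (alB hA h3 x y z)
  C x a := Additive.ofMul (coB hA h3 x a)
  C_anti x y := congrArg Additive.ofMul (coB_anti hA h3 x y)
  C_self x := congrArg Additive.ofMul (coB_self hA h3 x)
  TT x y a := congrArg Additive.ofMul (phi_symm hA (Ti x) (Ti y) a _ _)
  TL t u v a := by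
    apply congrArg Additive.ofMul
    change phi hA (Li u v) (coB hA h3 t a) = (phi hA (Ti t) (alB hA h3 u v a))⁻¹
    rw [← map_inv, ← sB_ll]
    exact phi_symm hA _ _ a _ _
  TR t u v a := by
    apply congrArg Additive.ofMul
    change phi hA (Ri u v) (coB hA h3 t a) = phi hA (Ti t) (alB hA h3 a u v)
    rw [← sB_rr]
    exact phi_symm hA _ _ a _ _
  TC t u v a := by
    apply congrArg Additive.ofMul
    change phi hA (Ci u v) (coB hA h3 t a) = (phi hA (Ti t) (alB hA h3 u a v))⁻¹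
    rw [← map_inv, ← sB_cc]
    exact phi_symm hA _ _ a _ _
  LL x y u v z := by
    apply congrArg Additive.ofMul
    change phi hA (Li x y) (alB hA h3 u v z) = phi hA (Li u v) (alB hA h3 x y z)
    rw [← inv_inj, ← map_inv, ← map_inv, ← sB_ll, ← sB_ll]
    exact phi_symm hA _ _ z _ _
  LR x y u v z := by
    apply congrArg Additive.ofMul
    change phi hA (Ri x y) (alB hA h3 u v z) = (phi hA (Li u v) (alB hA h3 z x y))⁻¹
    rw [← inv_inj, ← map_inv, ← sB_ll, inv_inv, ← sB_rr]
    exact phi_symm hA _ _ z _ _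
  LC x y u v z := by
    apply congrArg Additive.ofMul
    change phi hA (Ci x y) (alB hA h3 u v z) = phi hA (Li u v) (alB hA h3 x z y)
    rw [← inv_inj, ← map_inv, ← map_inv, ← sB_ll, ← sB_cc]
    exact phi_symm hA _ _ z _ _
  RR x y u v z := by
    apply congrArg Additive.ofMul
    change phi hA (Ri x y) (alB hA h3 z u v) = phi hA (Ri u v) (alB hA h3 z x y)
    rw [← sB_rr, ← sB_rr]
    exact phi_symm hA _ _ z _ _
  RC x y u v z := by
    apply congrArg Additive.ofMul
    change phi hA (Ri x y) (alB hA h3 u z v) = (phi hA (Ci u v) (alB hA h3 z x y))⁻¹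
    rw [← inv_inj, ← map_inv, ← sB_cc, inv_inv, ← sB_rr]
    exact phi_symm hA _ _ z _ _
  CC x y u v z := by
    apply congrArg Additive.ofMul
    change phi hA (Ci x y) (alB hA h3 u z v) = phi hA (Ci u v) (alB hA h3 x z y)
    rw [← inv_inj, ← map_inv, ← map_inv, ← sB_cc, ← sB_cc]
    exact phi_symm hA _ _ z _ _
  Tid x y b := by
    have h : phi hA (Ti (x * y)) b.toMul = phi hA (Ti x) b.toMul * phi hA (Ti y) b.toMul *
        phi hA (Ci x y) b.toMul * phi hA (Ri x y) b.toMul / phi hA (Li x y) b.toMul := by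
      rw [Ti_mul, map_mul, map_mul, map_mul, map_mul, map_inv]
      simp only [MonoidHom.mul_apply, MonoidHom.inv_apply]
      rw [div_eq_mul_inv]
      congr 1
      generalize (phi hA) (Ti x) b.toMul = p1
      generalize (phi hA) (Ti y) b.toMul = p2
      generalize (phi hA) (Ri x y) b.toMul = p3
      generalize (phi hA) (Ci x y) b.toMul = p4
      ac_rfl
    exact congrArg Additive.ofMul h
  cocyc x y z u := by
    have h : alB hA h3 y z u / alB hA h3 (x * y) z u * alB hA h3 x (y * z) u /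
        alB hA h3 x y (z * u) * alB hA h3 x y z = 1 := by
      have hc := al_cocycle h3.assocCen (pr x) (pr y) (pr z) (pr u)
      have hc' : alB hA h3 (x * y) z u * alB hA h3 x y (z * u) =
          alB hA h3 y z u * alB hA h3 x (y * z) u * alB hA h3 x y z := by
        apply Subtype.ext
        change (alB hA h3 (x * y) z u).1 * (alB hA h3 x y (z * u)).1 =
          (alB hA h3 y z u).1 * (alB hA h3 x (y * z) u).1 * (alB hA h3 x y z).1
        simp only [alB_coe]
        exact hc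
      have e : ∀ a b c d e : BB hA, a / b * c / d * e = (a * c * e) / (b * d) := by
        intro a b c d e
        simp only [div_eq_mul_inv, mul_inv]
        ac_rfl
      rw [e, hc', div_self']
    exact congrArg Additive.ofMul h
  αcomm x y u v := by
    apply congrArg Additive.ofMul
    apply Subtype.ext
    rw [alB_coe, alB_coe]
    have h1 : (pr y * pr x) * sv (tt (pr x)) (pr y) = pr x * pr y :=
      t_eq (h3 _ (tt_mem _) _)
    have h2 := al_mul_cen h3.assocCen (pr y * pr x) (pr u) (pr v)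
      ⟨sv (tt (pr x)) (pr y), h3 _ (tt_mem _) _⟩
    rw [pr_hom, pr_hom, ← h2, h1]

end formdata

end Pool.Agent.Lib.MP_c6182e_al
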