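import Pool.Agent.Lib.MP_c6182e_al.Kernel

/-!
Loops in which all displacements of inner mappings are central (nilpotency class at most two):
associators and commutators.
-/

universe u v

namespace Pool.Agent.Lib.MP_c6182e_al

open LoopStr

variable {P : Type u} [LoopStr P]

variable (P) in
/-- Nilpotency class at most two. -/
def Cl2 : Prop := ∀ h ∈ inn P, ∀ a : P, sv h a ∈ cen P

theorem l_eq {x y z : P} (hl : sv (ll x y) z ∈ cen P) :
    ((x * y) * z) * sv (ll x y) z = x * (y * z) := by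
  have h1 : z * sv (ll x y) z = ldiv (x * y) (x * (y * z)) := mul_sv _ _
  rw [eq_ldiv_iff] at h1
  rw [← h1, cen_assoc1 hl]

theorem r_eq {x y z : P} (hr : sv (rr y z) x ∈ cen P) :
    (x * (y * z)) * sv (rr y z) x = (x * y) * z := by
  have h1 : x * sv (rr y z) x = rdiv ((x * y) * z) (y * z) := mul_sv _ _
  rw [eq_rdiv_iff] at h1
  rw [← h1, ← cen_assoc3 hr, ← cen_comm hr (y * z), cen_assoc1 hr]

theorem c_eq {x y z : P} (hc : sv (cc x z) y ∈ cen P) :
    ((x * y) * z) * sv (cc x z) y = x * (y * z) := by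
  have h1 : y * sv (cc x z) y = ldiv x (rdiv (x * (y * z)) z) := mul_sv _ _
  rw [eq_ldiv_iff, eq_rdiv_iff] at h1
  rw [← h1, cen_assoc1 hc, ← cen_assoc3 hc (x * y) z, ← cen_comm hc z, cen_assoc1 hc]

theorem t_eq {x a : P} (ht : sv (tt x) a ∈ cen P) :
    (a * x) * sv (tt x) a = x * a := by
  have h1 : a * sv (tt x) a = rdiv (x * a) x := mul_sv _ _
  rw [eq_rdiv_iff] at h1
  rw [← h1, ← cen_assoc3 ht, ← cen_comm ht x, cen_assoc1 ht]

theorem c_eq_l {x y z : P} (hl : sv (ll x y) z ∈ cen P) (hc : sv (cc x z) y ∈ cen P) :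
    sv (cc x z) y = sv (ll x y) z := by
  apply mul_left_cancel' (a := (x * y) * z)
  rw [l_eq hl, c_eq hc]

theorem r_mul_l {x y z : P} (hl : sv (ll x y) z ∈ cen P) (hr : sv (rr y z) x ∈ cen P) :
    sv (rr y z) x * sv (ll x y) z = 1 := by
  apply mul_left_cancel' (a := x * (y * z))
  rw [cen_assoc1 hl, r_eq hr, l_eq hl, lmul_one]

theorem t_mul_t {x a : P} (ht : sv (tt x) a ∈ cen P) (ht' : sv (tt a) x ∈ cen P) :
    sv (tt x) a * sv (tt a) x = 1 := by
  apply mul_left_cancel' (a := a * x)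
  rw [cen_assoc1 ht', t_eq ht, t_eq ht', lmul_one]

theorem t_self (x : P) : sv (tt x) x = 1 := by
  unfold sv
  rw [tt_apply, LoopStr.mul_rdiv, ldiv_self]

variable (P) in
/-- All associators are central. -/
def AssocCen : Prop := ∀ x y z : P, sv (ll x y) z ∈ cen P

theorem Cl2.assocCen (h : Cl2 P) : AssocCen P := fun x y z => h _ (ll_mem x y) z

/-- The associator as an element of the centre: `(x * (y * z)) * α = (x * y) * z`. -/
noncomputable def al (h : AssocCen P) (x y z : P) : Cen P := (⟨sv (ll x y) z, h x y z⟩ : Cen P)⁻¹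

theorem al_spec (h : AssocCen P) (x y z : P) : (x * (y * z)) * (al h x y z).1 = (x * y) * z := by
  have h1 := l_eq (h x y z)
  have h2 : ((⟨sv (ll x y) z, h x y z⟩ : Cen P) * al h x y z).1 = 1 := by
    unfold al; rw [mul_inv_cancel]; rfl
  rw [Cen.coe_mul] at h2
  rw [← h1, ← cen_assoc1 (al h x y z).2, h2, lmul_one]

theorem al_unique (h : AssocCen P) {x y z : P} {c : Cen P}
    (hc : (x * (y * z)) * c.1 = (x * y) * z) : al h x y z = c := by
  apply Subtype.ext
  apply mul_left_cancel' (a := x * (y * z))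
  rw [al_spec, hc]

theorem mul_coe_coe (x : P) (a b : Cen P) : (x * a.1) * b.1 = x * (a * b).1 := by
  rw [Cen.coe_mul, cen_assoc1 b.2]

theorem coe_mul_right (x y : P) (a : Cen P) : (x * a.1) * y = (x * y) * a.1 := by
  rw [← cen_assoc3 a.2, ← cen_comm a.2 y, cen_assoc1 a.2]

theorem mul_coe_mul (x y : P) (a : Cen P) : x * (y * a.1) = (x * y) * a.1 :=
  cen_assoc1 a.2 x y

/-- The pentagon identity. -/
theorem al_cocycle (h : AssocCen P) (x y z u : P) :
    al h (x * y) z u * al h x y (z * u) = al h y z u * al h x (y * z) u * al h x y z := by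
  apply Subtype.ext
  apply mul_left_cancel' (a := x * (y * (z * u)))
  have e1 : ((x * y) * z) * u = (x * (y * (z * u))) * (al h x y (z * u) * al h (x * y) z u).1 := by
    rw [← al_spec h (x * y) z u, ← al_spec h x y (z * u), mul_coe_coe]
  have e2 : ((x * y) * z) * u =
      (x * (y * (z * u))) * (al h y z u * al h x (y * z) u * al h x y z).1 := by
    rw [← al_spec h x y z, coe_mul_right, ← al_spec h x (y * z) u, ← al_spec h y z u,
      mul_coe_mul, mul_coe_coe, mul_coe_coe, mul_assoc]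
  rw [mul_comm (al h (x * y) z u), ← e1, e2]

theorem al_mul_cen (h : AssocCen P) (x u v : P) (c : Cen P) :
    al h (x * c.1) u v = al h x u v := by
  apply al_unique
  rw [coe_mul_right x (u * v) c, coe_mul_right x u c, coe_mul_right (x * u) v c,
    ← al_spec h x u v, mul_coe_coe, mul_coe_coe, mul_comm]

theorem tt_mul (x y : P) :
    tt (x * y) = rr x y * tt x * cc x y * tt y * (ll x y)⁻¹ := by
  unfold tt rr cc ll
  group

end Pool.Agent.Lib.MP_c6182e_al
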