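import Pool.Agent.Lib.MP_c6182e_al.LoopNil

/-!
Finitely generated loops with finite abelian inner mapping groups are centrally nilpotent.
-/

universe u v

namespace Pool.Agent.Lib.MP_c6182e_al

open LoopStr

section fc

variable {Q : Type u} [LoopStr Q]

/-- The conjugates of a permutation under the multiplication group. -/
def conjSet (a : Equiv.Perm Q) : Set (Equiv.Perm Q) := {b | ∃ g ∈ mlt Q, b = g⁻¹ * a * g}

theorem mlt_decomp_rp {σ : Equiv.Perm Q} (hσ : σ ∈ mlt Q) : (rp (σ 1))⁻¹ * σ ∈ inn Q := by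
  rw [mem_inn]
  refine ⟨mul_mem (inv_mem (rp_mem _)) hσ, ?_⟩
  rw [Equiv.Perm.mul_apply, rp_inv_apply, rdiv_self]

theorem cc_mem' (x y : Q) : (rp x)⁻¹ * (lp y)⁻¹ * rp x * lp y ∈ inn Q := by
  rw [mem_inn]
  refine ⟨mul_mem (mul_mem (mul_mem (inv_mem (rp_mem _)) (inv_mem (lp_mem _))) (rp_mem x))
    (lp_mem y), ?_⟩
  simp only [Equiv.Perm.mul_apply, lp_apply, rp_apply, lp_inv_apply, rp_inv_apply]
  rw [lmul_one, LoopStr.ldiv_mul, rdiv_self]

theorem conjSet_lp (hf : (inn Q : Set (Equiv.Perm Q)).Finite) (x : Q) :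
    (conjSet (lp x)).Finite := by
  apply ((hf.prod hf).image
    (fun t : Equiv.Perm Q × Equiv.Perm Q => t.1⁻¹ * (lp x * t.2) * t.1)).subset
  rintro _ ⟨g, hg, rfl⟩
  refine ⟨((rp (g 1))⁻¹ * g, cc x (g 1)), ⟨mlt_decomp_rp hg, cc_mem _ _⟩, ?_⟩
  simp only [cc]; group

theorem conjSet_rp (hf : (inn Q : Set (Equiv.Perm Q)).Finite) (x : Q) :
    (conjSet (rp x)).Finite := by
  apply ((hf.prod hf).image
    (fun t : Equiv.Perm Q × Equiv.Perm Q => t.1⁻¹ * (rp x * t.2) * t.1)).subset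
  rintro _ ⟨g, hg, rfl⟩
  refine ⟨((lp (g 1))⁻¹ * g, (rp x)⁻¹ * (lp (g 1))⁻¹ * rp x * lp (g 1)),
    ⟨mlt_decomp' hg, cc_mem' _ _⟩, ?_⟩
  group

theorem conjSet_finite (hf : (inn Q : Set (Equiv.Perm Q)).Finite) {a : Equiv.Perm Q}
    (ha : a ∈ mlt Q) : (conjSet a).Finite := by
  unfold mlt at ha
  induction ha using Subgroup.closure_induction with
  | mem x hx =>
    obtain ⟨b, rfl | rfl⟩ := hx
    · exact conjSet_lp hf b
    · exact conjSet_rp hf b
  | one =>
    apply (Set.finite_singleton (1 : Equiv.Perm Q)).subset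
    rintro _ ⟨g, hg, rfl⟩
    rw [mul_one, inv_mul_cancel]; rfl
  | mul x y hx hy ihx ihy =>
    apply (ihx.image2 (· * ·) ihy).subset
    rintro _ ⟨g, hg, rfl⟩
    refine ⟨g⁻¹ * x * g, ⟨g, hg, rfl⟩, g⁻¹ * y * g, ⟨g, hg, rfl⟩, ?_⟩
    group
  | inv x hx ih =>
    apply (ih.image (·⁻¹)).subset
    rintro _ ⟨g, hg, rfl⟩
    refine ⟨g⁻¹ * x * g, ⟨g, hg, rfl⟩, ?_⟩
    group

/-- A subgroup containing the inner mapping group and the left translations by generators contains
the multiplication group. -/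
theorem mlt_le_of_genBy {U : Set Q} (hU : GenBy U) {C : Subgroup (Equiv.Perm Q)}
    (h1 : inn Q ≤ C) (h2 : ∀ u ∈ U, lp u ∈ C) : mlt Q ≤ C := by
  let T : SubL Q :=
    { carrier := {x | lp x ∈ C}
      one_mem := by
        change lp 1 ∈ C
        rw [lp_one]; exact one_mem C
      mul_mem := by
        intro x y hx hy
        change lp (x * y) ∈ C
        have e : lp (x * y) = lp x * lp y * (ll x y)⁻¹ := by rw [lp_mul_lp]; group
        rw [e]
        exact mul_mem (mul_mem hx hy) (inv_mem (h1 (ll_mem _ _)))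
      ldiv_mem := by
        intro x y hx hy
        change lp (ldiv x y) ∈ C
        have e : lp (ldiv x y) = (lp x)⁻¹ * (lp y * ll x (ldiv x y)) := by
          have := lp_mul_lp x (ldiv x y)
          rw [LoopStr.mul_ldiv] at this
          rw [← this]; group
        rw [e]
        exact mul_mem (inv_mem hx) (mul_mem hy (h1 (ll_mem _ _)))
      rdiv_mem := by
        intro x y hx hy
        change lp (rdiv x y) ∈ C
        have e : lp (rdiv x y) = lp x * ll (rdiv x y) y * (lp y)⁻¹ := by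
          have := lp_mul_lp (rdiv x y) y
          rw [LoopStr.rdiv_mul] at this
          rw [← this]; group
        rw [e]
        exact mul_mem (mul_mem hx (h1 (ll_mem _ _))) (inv_mem hy) }
  have hall : ∀ x, lp x ∈ C := fun x => hU T h2 x
  unfold mlt
  rw [Subgroup.closure_le]
  rintro _ ⟨a, rfl | rfl⟩
  · exact hall a
  · rw [rp_eq]
    exact mul_mem (hall a) (inv_mem (h1 (tt_mem a)))

/-- The central quotient of a finitely generated loop with finite inner mapping group is finite. -/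
theorem finite_QC (hf : (inn Q : Set (Equiv.Perm Q)).Finite) {U : Set Q} (hU : U.Finite)
    (hg : GenBy U) : Finite (QC Q) := by
  classical
  set A : Set (Equiv.Perm Q) := (lp '' U) ∪ inn Q with hAdef
  have hAfin : A.Finite := (hU.image _).union hf
  have hAm : ∀ a ∈ A, a ∈ mlt Q := by
    rintro a (⟨u, _, rfl⟩ | ha)
    · exact lp_mem u
    · exact inn_le_mlt ha
  have : Finite A := hAfin
  let F : Q → (A → Equiv.Perm Q) := fun q a => (lp q)⁻¹ * a.1 * lp q
  have hrange : (Set.range F).Finite := by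
    apply (Set.Finite.pi' (t := fun a : A => conjSet a.1)
      (fun a => conjSet_finite hf (hAm _ a.2))).subset
    rintro _ ⟨q, rfl⟩ a
    exact ⟨lp q, lp_mem q, rfl⟩
  have hfib : ∀ q q' : Q, F q = F q' → pr q = pr q' := by
    intro q q' hqq
    set g := lp q' * (lp q)⁻¹ with hgdef
    have hcA : ∀ a ∈ A, g * a = a * g := by
      intro a ha
      have h1 : (lp q)⁻¹ * a * lp q = (lp q')⁻¹ * a * lp q' := congrFun hqq ⟨a, ha⟩
      calc g * a = lp q' * ((lp q)⁻¹ * a * lp q) * (lp q)⁻¹ := by rw [hgdef]; group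
        _ = lp q' * ((lp q')⁻¹ * a * lp q') * (lp q)⁻¹ := by rw [h1]
        _ = a * g := by rw [hgdef]; group
    have hle : mlt Q ≤ Subgroup.centralizer ({g} : Set (Equiv.Perm Q)) := by
      apply mlt_le_of_genBy hg
      · intro h hh
        rw [Subgroup.mem_centralizer_iff]
        intro x hx
        rw [Set.mem_singleton_iff] at hx
        rw [hx]
        exact hcA h (Or.inr hh)
      · intro u hu
        rw [Subgroup.mem_centralizer_iff]
        intro x hx
        rw [Set.mem_singleton_iff] at hx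
        rw [hx]
        exact hcA _ (Or.inl ⟨u, hu, rfl⟩)
    have hc : ∀ σ ∈ mlt Q, g * σ = σ * g := by
      intro σ hσ
      have := hle hσ
      rw [Subgroup.mem_centralizer_iff] at this
      exact this g (Set.mem_singleton g)
    rw [pr_eq_iff]
    refine ⟨g 1, ?_, ?_⟩
    · intro σ hσ
      have h1 := congrArg (fun s : Equiv.Perm Q => s 1) (hc σ (inn_le_mlt hσ))
      simp only [Equiv.Perm.mul_apply, inn_one hσ] at h1
      exact h1.symm
    · have h1 := congrArg (fun s : Equiv.Perm Q => s 1) (hc _ (lp_mem q))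
      simp only [Equiv.Perm.mul_apply, lp_apply, lmul_one] at h1
      rw [← h1, hgdef]
      simp only [Equiv.Perm.mul_apply, lp_apply, lp_inv_apply, ldiv_self, lmul_one]
  have : Finite (Set.range F) := hrange
  let out : QC Q → Q := fun c => (pr_surjective c).choose
  have hout : ∀ c, pr (out c) = c := fun c => (pr_surjective c).choose_spec
  refine Finite.of_injective (fun c : QC Q => (⟨F (out c), out c, rfl⟩ : Set.range F)) ?_
  intro c c' h
  have h1 := hfib _ _ (congrArg Subtype.val h)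
  rwa [hout, hout] at h1

end fc

section transport

variable {Q : Type u} [LoopStr Q] {P : Type v} [LoopStr P] {f : Q → P}

theorem IsHom.inn_finite_of_injective (hf : IsHom f) (hi : Function.Injective f)
    (h : (inn P : Set (Equiv.Perm P)).Finite) : (inn Q : Set (Equiv.Perm Q)).Finite := by
  classical
  let F : Equiv.Perm Q → Equiv.Perm P := fun σ =>
    if hσ : σ ∈ inn Q then (hf.exists_inn hσ).choose else 1
  have hF : ∀ σ, ∀ hσ : σ ∈ inn Q, F σ ∈ inn P ∧ ∀ x, f (σ x) = F σ (f x) := by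
    intro σ hσ
    simp only [F, dif_pos hσ]
    exact (hf.exists_inn hσ).choose_spec
  refine Set.Finite.of_injOn (f := F) (t := (inn P : Set (Equiv.Perm P))) ?_ ?_ h
  · intro σ hσ
    exact (hF σ hσ).1
  · intro σ hσ τ hτ e
    ext x
    apply hi
    rw [(hF σ hσ).2, (hF τ hτ).2, e]

theorem IsHom.inn_finite_of_surjective (hf : IsHom f) (hs : Function.Surjective f)
    (h : (inn Q : Set (Equiv.Perm Q)).Finite) : (inn P : Set (Equiv.Perm P)).Finite := by
  classical
  let F : Equiv.Perm P → Equiv.Perm Q := fun σ =>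
    if hσ : σ ∈ inn P then (hf.exists_inn_lift hs hσ).choose else 1
  have hF : ∀ σ, ∀ hσ : σ ∈ inn P, F σ ∈ inn Q ∧ ∀ x, f (F σ x) = σ (f x) := by
    intro σ hσ
    simp only [F, dif_pos hσ]
    exact (hf.exists_inn_lift hs hσ).choose_spec
  refine Set.Finite.of_injOn (f := F) (t := (inn Q : Set (Equiv.Perm Q))) ?_ ?_ h
  · intro σ hσ
    exact (hF σ hσ).1
  · intro σ hσ τ hτ e
    ext y
    obtain ⟨x, rfl⟩ := hs y
    rw [← (hF σ hσ).2, ← (hF τ hτ).2, e]

end transport

section fg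

variable {Q : Type u} [LoopStr Q]

/-- Finitely generated subloops of loops with finite abelian inner mapping groups are centrally
nilpotent. -/
theorem fg_nil (hA : AIM Q) (hf : (inn Q : Set (Equiv.Perm Q)).Finite) {U : Set Q}
    (hU : U.Finite) : ∃ n, LNil n (SubL.gen U).carrier := by
  have hinj : Function.Injective (fun x : (SubL.gen U).carrier => x.1) := Subtype.val_injective
  have hf' := (SubL.gen U).coe_hom.inn_finite_of_injective hinj hf
  have hA' := (SubL.gen U).coe_hom.aim_of_injective hinj hA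
  have hU' : {x : (SubL.gen U).carrier | x.1 ∈ U}.Finite :=
    hU.preimage (hinj.injOn)
  have hfin := finite_QC hf' hU' (SubL.gen_genBy U)
  obtain ⟨n, hn⟩ := finite_nil _ (QC (SubL.gen U).carrier) rfl (aim_QC hA')
  exact ⟨n + 1, hn⟩

/-- An inner mapping restricts to an inner mapping of some finitely generated subloop. -/
theorem exists_fg {h : Equiv.Perm Q} (hh : h ∈ inn Q) : ∃ U : Set Q, U.Finite ∧
    ∀ S : SubL Q, U ⊆ S.carrier → ∃ h' ∈ inn S.carrier, ∀ x : S.carrier, (h' x).1 = h x.1 := by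
  rw [inn_eq_closure] at hh
  induction hh using Subgroup.closure_induction with
  | mem x hx =>
    rcases hx with ⟨a, rfl⟩ | ⟨a, b, rfl⟩ | ⟨a, b, rfl⟩
    · refine ⟨{a}, Set.finite_singleton a, fun S hS => ?_⟩
      have ha : a ∈ S.carrier := hS rfl
      exact ⟨tt ⟨a, ha⟩, tt_mem _, fun x => S.coe_hom.map_tt ⟨a, ha⟩ x⟩
    · refine ⟨{a, b}, Set.toFinite _, fun S hS => ?_⟩
      have ha : a ∈ S.carrier := hS (by simp)
      have hb : b ∈ S.carrier := hS (by simp)
      exact ⟨ll ⟨a, ha⟩ ⟨b, hb⟩, ll_mem _ _, fun x => S.coe_hom.map_ll ⟨a, ha⟩ ⟨b, hb⟩ x⟩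
    · refine ⟨{a, b}, Set.toFinite _, fun S hS => ?_⟩
      have ha : a ∈ S.carrier := hS (by simp)
      have hb : b ∈ S.carrier := hS (by simp)
      exact ⟨rr ⟨a, ha⟩ ⟨b, hb⟩, rr_mem _ _, fun x => S.coe_hom.map_rr ⟨a, ha⟩ ⟨b, hb⟩ x⟩
  | one => exact ⟨∅, Set.finite_empty, fun S _ => ⟨1, one_mem _, fun x => rfl⟩⟩
  | mul x y hx hy ihx ihy =>
    obtain ⟨U, hU, h1⟩ := ihx
    obtain ⟨V, hV, h2⟩ := ihy
    refine ⟨U ∪ V, hU.union hV, fun S hS => ?_⟩
    obtain ⟨x', hx', e1⟩ := h1 S (Set.subset_union_left.trans hS)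
    obtain ⟨y', hy', e2⟩ := h2 S (Set.subset_union_right.trans hS)
    refine ⟨x' * y', mul_mem hx' hy', fun z => ?_⟩
    rw [Equiv.Perm.mul_apply, Equiv.Perm.mul_apply, e1, e2]
  | inv x hx ih =>
    obtain ⟨U, hU, h1⟩ := ih
    refine ⟨U, hU, fun S hS => ?_⟩
    obtain ⟨x', hx', e1⟩ := h1 S hS
    refine ⟨x'⁻¹, inv_mem hx', fun z => ?_⟩
    rw [Equiv.Perm.eq_inv_iff_eq, ← e1]
    simp

theorem coe_pow {S : SubL Q} {h' : Equiv.Perm S.carrier} {h : Equiv.Perm Q}
    (e : ∀ x : S.carrier, (h' x).1 = h x.1) (n : ℕ) (x : S.carrier) :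
    ((h' ^ n) x).1 = (h ^ n) x.1 :=
  IsHom.pow_apply (f := fun x : S.carrier => x.1) e n x

end fg

/-- The nilpotent case of the main theorem. -/
theorem nil_case (n : ℕ) : ∀ (Q : Type u) [LoopStr Q], LNil n Q → AIM Q →
    (inn Q : Set (Equiv.Perm Q)).Finite → ∀ (p : ℕ), p.Prime → ∀ (e : ℕ) (h0 : Equiv.Perm Q),
    h0 ∈ inn Q → (h0 ^ e) ^ p = 1 → (∀ h ∈ inn Q, ∃ i : ℕ, h ^ e = (h0 ^ e) ^ i) → h0 ^ e = 1 := by
  induction n with
  | zero =>
    intro Q _ hn _ _ p _ e h0 _ _ _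
    have : Subsingleton Q := hn
    exact Subsingleton.elim _ _
  | succ n ih =>
    intro Q _ hn hA hf p hp e h0 hh0 hσp hcyc
    obtain ⟨h0', hh0', e0⟩ := (pr_hom (Q := Q)).exists_inn hh0
    have e0' : ∀ (k : ℕ) (x : Q), pr ((h0 ^ k) x) = (h0' ^ k) (pr x) := IsHom.pow_apply e0
    have h1 : h0' ^ e = 1 := by
      refine ih (QC Q) hn (aim_QC hA) (pr_hom.inn_finite_of_surjective pr_surjective hf) p hp e h0'
        hh0' ?_ ?_
      · ext y
        obtain ⟨x, rfl⟩ := pr_surjective y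
        rw [← pow_mul, ← e0', pow_mul, hσp]
        rfl
      · intro h' hh'
        obtain ⟨h, hh, e1⟩ := pr_hom.exists_inn_lift pr_surjective hh'
        have e1' : ∀ (k : ℕ) (x : Q), pr ((h ^ k) x) = (h' ^ k) (pr x) := IsHom.pow_apply e1
        obtain ⟨i, hi⟩ := hcyc h hh
        refine ⟨i, ?_⟩
        ext y
        obtain ⟨x, rfl⟩ := pr_surjective y
        rw [← e1', hi, ← pow_mul, ← pow_mul, e0']
    have hker : h0 ^ e ∈ kerQ Q := by
      rw [mem_kerQ]
      refine ⟨pow_mem (inn_le_mlt hh0) e, fun x => ?_⟩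
      rw [e0', h1]; rfl
    exact final hA (fun x y z => fg_nil hA hf (Set.toFinite _)) hker hp hσp hcyc h0 hh0

/-- The main theorem, first form. -/
theorem main_nec {Q : Type u} [LoopStr Q] (hA : AIM Q) (hf : (inn Q : Set (Equiv.Perm Q)).Finite)
    {p : ℕ} (hp : p.Prime) {e : ℕ} {h0 : Equiv.Perm Q} (hh0 : h0 ∈ inn Q)
    (hσp : (h0 ^ e) ^ p = 1) (hcyc : ∀ h ∈ inn Q, ∃ i : ℕ, h ^ e = (h0 ^ e) ^ i) :
    h0 ^ e = 1 := by
  by_contra hne
  obtain ⟨u, hu⟩ : ∃ u, (h0 ^ e) u ≠ u := by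
    by_contra hcon
    push Not at hcon
    exact hne (Equiv.ext hcon)
  obtain ⟨U, hU, hres⟩ := exists_fg hh0
  set S := SubL.gen (U ∪ {u}) with hS
  have hUS : U ∪ {u} ⊆ S.carrier := SubL.subset_gen _
  obtain ⟨h', hh', e'⟩ := hres S (Set.subset_union_left.trans hUS)
  have hu' : u ∈ S.carrier := hUS (Or.inr rfl)
  have hinj : Function.Injective (fun x : S.carrier => x.1) := Subtype.val_injective
  have hAS : AIM S.carrier := S.coe_hom.aim_of_injective hinj hA
  have hfS := S.coe_hom.inn_finite_of_injective hinj hf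
  obtain ⟨n, hn⟩ := fg_nil hA hf (hU.union (Set.finite_singleton u))
  have e1 := coe_pow e'
  have h1 := nil_case n S.carrier hn hAS hfS p hp e h' hh' (by
    ext x
    rw [← pow_mul, e1, pow_mul, hσp]
    rfl) (by
    intro h hh
    obtain ⟨g, hg, e2⟩ := S.coe_hom.exists_inn hh
    obtain ⟨i, hi⟩ := hcyc g hg
    refine ⟨i, ?_⟩
    ext x
    have e3 := coe_pow e2
    rw [e3, hi, ← pow_mul, ← pow_mul, e1])
  apply hu
  have h2 := e1 e ⟨u, hu'⟩
  rw [h1] at h2
  exact h2.symm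

end Pool.Agent.Lib.MP_c6182e_al
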