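import Pool.Agent.Lib.MP_c6182e_al.ClassFour

/-!
The final argument: if the `e`-th powers of inner mappings form a cyclic group of prime order acting
trivially modulo the centre, there is a contradiction.
-/

universe u v

namespace Pool.Agent.Lib.MP_c6182e_al

open LoopStr

section pow

variable {S : Type u} [LoopStr S]

theorem pow_cen {h : Equiv.Perm S} (hh : h ∈ mlt S) {a : S} {c : Cen S} (e : h a = a * c.1)
    (n : ℕ) : (h ^ n) a = a * (c ^ n).1 := by
  induction n with
  | zero =>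
    rw [pow_zero, pow_zero]
    exact (lmul_one a).symm
  | succ n ih =>
    rw [pow_succ', Equiv.Perm.mul_apply, ih, cen_apply' (c ^ n).2 hh, e, mul_coe_coe, ← pow_succ']

end pow

section final

variable {Q : Type u} [LoopStr Q]

/-- Powers of `T_x` and `T_y` on `y` and `x`. -/
theorem pair_lemma (hA : AIM Q) (x y : Q) (hn : ∃ n, LNil n (SubL.gen ({x, y} : Set Q)).carrier)
    (e : ℕ) : ∃ a b : Q, a * b = 1 ∧ (tt x ^ e) y = y * b ∧ (tt y ^ e) x = x * a := by
  obtain ⟨n, hn⟩ := hn
  set S := SubL.gen ({x, y} : Set Q) with hS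
  have hx : x ∈ S.carrier := SubL.subset_gen _ (by simp)
  have hy : y ∈ S.carrier := SubL.subset_gen _ (by simp)
  set x' : S.carrier := ⟨x, hx⟩
  set y' : S.carrier := ⟨y, hy⟩
  have hinj : Function.Injective (fun x : S.carrier => x.1) := Subtype.val_injective
  have hAS : AIM S.carrier := S.coe_hom.aim_of_injective hinj hA
  have hgen : GenBy ({x', y'} : Set S.carrier) := by
    have h1 := SubL.gen_genBy ({x, y} : Set Q)
    have h2 : ({x', y'} : Set S.carrier) = {z | z.1 ∈ ({x, y} : Set Q)} := by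
      ext z
      simp only [Set.mem_insert_iff, Set.mem_singleton_iff, Set.mem_ofPred_eq, Subtype.ext_iff]
      rfl
    rw [h2]; exact h1
  have h2 := two_gen n S.carrier hAS hn hgen
  set t : Cen S.carrier := ⟨sv (tt x') y', h2 _ (tt_mem x') y'⟩ with ht
  set s : Cen S.carrier := ⟨sv (tt y') x', h2 _ (tt_mem y') x'⟩ with hs
  have e1 := pow_cen (inn_le_mlt (tt_mem x')) (c := t) (mul_sv (tt x') y').symm e
  have e2 := pow_cen (inn_le_mlt (tt_mem y')) (c := s) (mul_sv (tt y') x').symm e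
  have hst : s * t = 1 := Subtype.ext (t_mul_t s.2 t.2)
  refine ⟨((s ^ e).1).1, ((t ^ e).1).1, ?_, ?_, ?_⟩
  · have h3 : s ^ e * t ^ e = 1 := by rw [← mul_pow, hst, one_pow]
    have h4 := congrArg (fun z : Cen S.carrier => (z.1).1) h3
    exact h4
  · have h5 := IsHom.pow_apply (f := fun x : S.carrier => x.1) (σ := tt x') (σ' := tt x)
      (fun z => S.coe_hom.map_tt x' z) e y'
    rw [e1] at h5
    exact h5.symm
  · have h5 := IsHom.pow_apply (f := fun x : S.carrier => x.1) (σ := tt y') (σ' := tt y)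
      (fun z => S.coe_hom.map_tt y' z) e x'
    rw [e2] at h5
    exact h5.symm

/-- Powers of `L_{x,y}`, `R_{y,z}`, `C_{x,z}`. -/
theorem triple_lemma (hA : AIM Q) (x y z : Q)
    (hn : ∃ n, LNil n (SubL.gen ({x, y, z} : Set Q)).carrier)
    (e : ℕ) : ∃ a b : Q, a * b = 1 ∧ (ll x y ^ e) z = z * b ∧ (rr y z ^ e) x = x * a ∧
      (cc x z ^ e) y = y * b := by
  obtain ⟨n, hn⟩ := hn
  set S := SubL.gen ({x, y, z} : Set Q) with hS
  have hx : x ∈ S.carrier := SubL.subset_gen _ (by simp)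
  have hy : y ∈ S.carrier := SubL.subset_gen _ (by simp)
  have hz : z ∈ S.carrier := SubL.subset_gen _ (by simp)
  set x' : S.carrier := ⟨x, hx⟩
  set y' : S.carrier := ⟨y, hy⟩
  set z' : S.carrier := ⟨z, hz⟩
  have hinj : Function.Injective (fun x : S.carrier => x.1) := Subtype.val_injective
  have hAS : AIM S.carrier := S.coe_hom.aim_of_injective hinj hA
  have hgen : GenBy ({x', y', z'} : Set S.carrier) := by
    have h1 := SubL.gen_genBy ({x, y, z} : Set Q)
    have h2 : ({x', y', z'} : Set S.carrier) = {w | w.1 ∈ ({x, y, z} : Set Q)} := by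
      ext w
      simp only [Set.mem_insert_iff, Set.mem_singleton_iff, Set.mem_ofPred_eq, Subtype.ext_iff]
      rfl
    rw [h2]; exact h1
  have h2 := three_gen n S.carrier hAS hn hgen
  set l : Cen S.carrier := ⟨sv (ll x' y') z', h2 x' y' z'⟩ with hl
  set r : Cen S.carrier := ⟨sv (rr y' z') x', rr_mem_cen h2 x' y' z'⟩ with hr
  have hc0 : sv (cc x' z') y' ∈ cen S.carrier := by
    apply sv_mem_of_pr_eq
    have h1 := (pr_eq_one.2 (h2 x' y' z'))
    rw [pr_sv_ll, sv_eq_one, ll_apply] at h1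
    have h3 := (eq_ldiv_iff.1 h1.symm)
    rw [pr_hom.map_cc, cc_apply]
    symm
    rw [eq_ldiv_iff, eq_rdiv_iff]
    exact h3
  have hcl : sv (cc x' z') y' = l.1 := c_eq_l l.2 hc0
  have e1 := pow_cen (inn_le_mlt (ll_mem x' y')) (c := l) (mul_sv (ll x' y') z').symm e
  have e2 := pow_cen (inn_le_mlt (rr_mem y' z')) (c := r) (mul_sv (rr y' z') x').symm e
  have e3 := pow_cen (inn_le_mlt (cc_mem x' z')) (c := l) (a := y')
    (by rw [← hcl]; exact (mul_sv (cc x' z') y').symm) e
  have hst : r * l = 1 := Subtype.ext (r_mul_l l.2 r.2)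
  refine ⟨((r ^ e).1).1, ((l ^ e).1).1, ?_, ?_, ?_, ?_⟩
  · have h3 : r ^ e * l ^ e = 1 := by rw [← mul_pow, hst, one_pow]
    have h4 := congrArg (fun z : Cen S.carrier => (z.1).1) h3
    exact h4
  · have h5 := IsHom.pow_apply (f := fun x : S.carrier => x.1) (σ := ll x' y') (σ' := ll x y)
      (fun z => S.coe_hom.map_ll x' y' z) e z'
    rw [e1] at h5
    exact h5.symm
  · have h5 := IsHom.pow_apply (f := fun x : S.carrier => x.1) (σ := rr y' z') (σ' := rr y z)
      (fun z => S.coe_hom.map_rr y' z' z) e x'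
    rw [e2] at h5
    exact h5.symm
  · have h5 := IsHom.pow_apply (f := fun x : S.carrier => x.1) (σ := cc x' z') (σ' := cc x z)
      (fun z => S.coe_hom.map_cc x' z' z) e y'
    rw [e3] at h5
    exact h5.symm

theorem one_of_mul_left {a x : Q} (h : x = x * a) : a = 1 := by
  have : x * 1 = x * a := by rw [lmul_one]; exact h
  exact (mul_left_cancel' this).symm

/-- The final argument. -/
theorem final (hA : AIM Q)
    (hnil : ∀ x y z : Q, ∃ n, LNil n (SubL.gen ({x, y, z} : Set Q)).carrier)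
    {σ : Equiv.Perm Q} (hσ : σ ∈ kerQ Q) {p : ℕ} (hp : p.Prime) (hσp : σ ^ p = 1) {e : ℕ}
    (hcyc : ∀ h ∈ inn Q, ∃ i : ℕ, h ^ e = σ ^ i) : ∀ h ∈ inn Q, h ^ e = 1 := by
  by_cases hσ1 : σ = 1
  · intro h hh
    obtain ⟨i, hi⟩ := hcyc h hh
    rw [hi, hσ1, one_pow]
  -- an element moved by `σ`
  obtain ⟨u, hu⟩ : ∃ u, σ u ≠ u := by
    by_contra hcon
    push Not at hcon
    exact hσ1 (Equiv.ext hcon)
  have H : ∀ h ∈ inn Q, ∀ u, σ u ≠ u → (h ^ e) u = u → h ^ e = 1 := by
    intro h hh u hu hfix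
    obtain ⟨i, hi⟩ := hcyc h hh
    by_cases hpi : p ∣ i
    · obtain ⟨k, rfl⟩ := hpi
      rw [hi, pow_mul, hσp, one_pow]
    · exfalso
      apply hu
      have hcop : Nat.Coprime i p := ((Nat.Prime.coprime_iff_not_dvd hp).2 hpi).symm
      have hst : σ ∈ MulAction.stabilizer (Equiv.Perm Q) u := by
        have h1 : σ ^ i ∈ MulAction.stabilizer (Equiv.Perm Q) u := by
          rw [MulAction.mem_stabilizer_iff, ← hi]
          exact hfix
        have h2 : σ ^ p ∈ MulAction.stabilizer (Equiv.Perm Q) u := by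
          rw [hσp]; exact one_mem _
        have h3 : (σ ^ (i : ℤ)) ^ (Nat.gcdA i p) * (σ ^ (p : ℤ)) ^ (Nat.gcdB i p) = σ := by
          rw [← zpow_mul, ← zpow_mul, ← zpow_add, ← Nat.gcd_eq_gcd_ab, hcop.gcd_eq_one]
          simp
        rw [← h3]
        apply mul_mem
        · apply zpow_mem
          rw [zpow_natCast]; exact h1
        · apply zpow_mem
          rw [zpow_natCast]; exact h2
      exact hst
  have hnil2 : ∀ x y : Q, ∃ n, LNil n (SubL.gen ({x, y} : Set Q)).carrier := by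
    intro x y
    have := hnil x y y
    have h2 : ({x, y, y} : Set Q) = {x, y} := by rw [Set.pair_eq_singleton]
    rwa [h2] at this
  have hT : ∀ x : Q, (tt x) ^ e = 1 := by
    intro x
    by_contra hne
    have hfix : ((tt x) ^ e) x = x := by
      have h1 : tt x x = x := by rw [tt_apply, LoopStr.mul_rdiv]
      have h2 : tt x ∈ MulAction.stabilizer (Equiv.Perm Q) x := h1
      exact pow_mem h2 e
    have hx : σ x = x := by
      by_contra hmv
      exact hne (H _ (tt_mem x) x hmv hfix)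
    apply hne
    ext y
    obtain ⟨a, b, hab, e1, e2⟩ := pair_lemma hA x y (hnil2 x y) e
    obtain ⟨j, hj⟩ := hcyc _ (tt_mem y)
    have h3 : (tt y ^ e) x = x := by
      rw [hj]
      have h2 : σ ∈ MulAction.stabilizer (Equiv.Perm Q) x := hx
      exact pow_mem h2 j
    rw [h3] at e2
    have ha := one_of_mul_left e2
    rw [ha, lone_mul] at hab
    rw [e1, hab, lmul_one]; rfl
  -- step A
  have hA1 : (cc u u) ^ e = 1 := by
    obtain ⟨a, b, hab, e1, e2, e3⟩ := triple_lemma hA u u u (hnil u u u) e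
    apply H _ (cc_mem u u) u hu
    have hb : b ∈ cen Q := by
      obtain ⟨i, hi⟩ := hcyc _ (ll_mem u u)
      have h1 : σ ^ i ∈ kerQ Q := pow_mem hσ i
      rw [hi] at e1
      have h2 := h1.2 u
      rw [e1, pr_hom] at h2
      rw [← pr_eq_one]
      exact one_of_mul_left h2.symm
    have hid : (ll u u) ^ e = (rr u u) ^ e * (cc u u) ^ e := by
      have h1 := tt_mul u u
      have cA := hA
      have h2 : tt (u * u) * ll u u = rr u u * tt u * cc u u * tt u := by
        rw [h1]; group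
      have c1 : Commute (tt (u * u)) (ll u u) := hA _ (tt_mem _) _ (ll_mem _ _)
      have c2 : Commute (rr u u * tt u * cc u u) (tt u) :=
        hA _ (mul_mem (mul_mem (rr_mem _ _) (tt_mem _)) (cc_mem _ _)) _ (tt_mem _)
      have c3 : Commute (rr u u * tt u) (cc u u) :=
        hA _ (mul_mem (rr_mem _ _) (tt_mem _)) _ (cc_mem _ _)
      have c4 : Commute (rr u u) (tt u) := hA _ (rr_mem _ _) _ (tt_mem _)
      have h3 : (tt (u * u) * ll u u) ^ e = (rr u u * tt u * cc u u * tt u) ^ e := by rw [h2]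
      rw [c1.mul_pow, c2.mul_pow, c3.mul_pow, c4.mul_pow, hT, hT, one_mul, mul_one, mul_one] at h3
      exact h3
    rw [hid, Equiv.Perm.mul_apply, e3] at e1
    have hrr : (rr u u) ^ e ∈ mlt Q := pow_mem (inn_le_mlt (rr_mem u u)) e
    rw [cen_apply' hb hrr, e2, ← cen_assoc1 hb, hab, lmul_one] at e1
    rw [e3]
    exact e1.symm
  have hB1 : ∀ y : Q, (rr y u) ^ e = 1 := by
    intro y
    obtain ⟨a, b, hab, e1, e2, e3⟩ := triple_lemma hA u y u (hnil u y u) e
    apply H _ (rr_mem y u) u hu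
    rw [hA1] at e3
    have hb := one_of_mul_left e3
    rw [hb, lmul_one] at hab
    rw [e2, hab, lmul_one]
  have hC1 : ∀ x y : Q, (ll x y) ^ e = 1 := by
    intro x y
    obtain ⟨a, b, hab, e1, e2, e3⟩ := triple_lemma hA x y u (hnil x y u) e
    apply H _ (ll_mem x y) u hu
    rw [hB1] at e2
    have ha := one_of_mul_left e2
    rw [ha, lone_mul] at hab
    rw [e1, hab, lmul_one]
  have hD1 : ∀ y z : Q, (rr y z) ^ e = 1 := by
    intro y z
    obtain ⟨a, b, hab, e1, e2, e3⟩ := triple_lemma hA u y z (hnil u y z) e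
    apply H _ (rr_mem y z) u hu
    rw [hC1] at e1
    have hb := one_of_mul_left e1
    rw [hb, lmul_one] at hab
    rw [e2, hab, lmul_one]
  intro h hh
  have key : h ∈ inn Q ∧ h ^ e = 1 := by
    rw [inn_eq_closure] at hh
    induction hh using Subgroup.closure_induction with
    | mem x hx =>
      rcases hx with ⟨a, rfl⟩ | ⟨a, b, rfl⟩ | ⟨a, b, rfl⟩
      · exact ⟨tt_mem a, hT a⟩
      · exact ⟨ll_mem a b, hC1 a b⟩
      · exact ⟨rr_mem a b, hD1 a b⟩
    | one => exact ⟨one_mem _, one_pow e⟩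
    | mul x y _ _ ihx ihy =>
      refine ⟨mul_mem ihx.1 ihy.1, ?_⟩
      have c : Commute x y := hA _ ihx.1 _ ihy.1
      rw [c.mul_pow, ihx.2, ihy.2, one_mul]
    | inv x _ ih => exact ⟨inv_mem ih.1, by rw [inv_pow, ih.2, inv_one]⟩
  exact key.2

end final

end Pool.Agent.Lib.MP_c6182e_al
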