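import Mathlib

/-!
Finite abelian groups: splitting off a cyclic factor of maximal order, and a characterization of the
groups whose two largest invariant factors agree.
-/

universe u

namespace Pool.Agent.Lib.MP_c6182e_al

/-- A finite abelian group has a cyclic direct factor whose order is the exponent. -/
theorem split_off (G : Type u) [CommGroup G] [Finite G] :
    ∃ K : Subgroup G, Nonempty (G ≃* Multiplicative (ZMod (Monoid.exponent G)) × K) := by
  have hpos : Monoid.exponent G ≠ 0 := Monoid.exponent_ne_zero_of_finite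
  haveI : NeZero (Monoid.exponent G) := ⟨hpos⟩
  -- a character of maximal order
  obtain ⟨δ⟩ := CommGroup.monoidHom_mulEquiv_of_hasEnoughRootsOfUnity G ℂ
  obtain ⟨g0, hg0⟩ := Monoid.exists_orderOf_eq_exponent
    (Monoid.ExponentExists.of_finite (G := G))
  set χ : G →* ℂˣ := δ.symm g0 with hχ
  have hχo : orderOf χ = Monoid.exponent G := by
    rw [hχ, ← hg0]
    exact MulEquiv.orderOf_eq δ.symm g0
  have hfin : Finite χ.range := Finite.of_surjective _ χ.rangeRestrict_surjective
  have hcyc : IsCyclic χ.range := by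
    have : Finite χ.range := hfin
    infer_instance
  obtain ⟨ζ, hζ⟩ := hcyc.exists_generator
  obtain ⟨x, hx⟩ := ζ.2
  have hgen : ∀ a : G, ∃ k : ℤ, χ a = χ x ^ k := by
    intro a
    obtain ⟨k, hk⟩ := hζ ⟨χ a, a, rfl⟩
    refine ⟨k, ?_⟩
    have := congrArg Subtype.val hk
    simp only at this
    rw [hx, ← this]
    rfl
  have hord : orderOf (χ x) = Monoid.exponent G := by
    apply Nat.dvd_antisymm
    · exact (orderOf_map_dvd χ x).trans (Monoid.order_dvd_exponent x)
    · rw [← hχo]
      apply orderOf_dvd_of_pow_eq_one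
      ext a
      obtain ⟨k, hk⟩ := hgen a
      rw [MonoidHom.pow_apply, hk, ← zpow_natCast, ← zpow_mul, mul_comm, zpow_mul, zpow_natCast,
        pow_orderOf_eq_one, one_zpow]
      rfl
  have hordx : orderOf x = Monoid.exponent G := by
    apply Nat.dvd_antisymm (Monoid.order_dvd_exponent x)
    rw [← hord]
    exact orderOf_map_dvd χ x
  refine ⟨χ.ker, ⟨?_⟩⟩
  let F : (Subgroup.zpowers x) × χ.ker →* G :=
    MonoidHom.coprod (Subgroup.zpowers x).subtype χ.ker.subtype
  have hF : ∀ a b, F (a, b) = a.1 * b.1 := fun a b => rfl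
  have hbij : Function.Bijective F := by
    constructor
    · rw [injective_iff_map_eq_one]
      rintro ⟨⟨a, ha⟩, ⟨b, hb⟩⟩ h
      rw [hF] at h
      simp only at h
      obtain ⟨k, rfl⟩ := Subgroup.mem_zpowers_iff.1 ha
      have h1 : χ (x ^ k) = 1 := by
        have h2 := congrArg χ h
        rw [map_mul, (MonoidHom.mem_ker).1 hb, mul_one, map_one] at h2
        exact h2
      have h3 : x ^ k = 1 := by
        rw [map_zpow, ← orderOf_dvd_iff_zpow_eq_one, hord, ← hordx,
          orderOf_dvd_iff_zpow_eq_one] at h1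
        exact h1
      have h4 : b = 1 := by rw [h3, one_mul] at h; exact h
      simp only [Prod.mk_eq_one]
      exact ⟨Subtype.ext h3, Subtype.ext h4⟩
    · intro a
      obtain ⟨k, hk⟩ := hgen a
      refine ⟨(⟨x ^ k, Subgroup.zpow_mem_zpowers x k⟩, ⟨(x ^ k)⁻¹ * a, ?_⟩), ?_⟩
      · rw [MonoidHom.mem_ker, map_mul, map_inv, map_zpow, hk, inv_mul_cancel]
      · rw [hF]
        simp only
        rw [mul_inv_cancel_left]
  have hcz : Nat.card (Subgroup.zpowers x) = Monoid.exponent G := by
    rw [Nat.card_zpowers, hordx]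
  have e1 : Multiplicative (ZMod (Monoid.exponent G)) ≃* Subgroup.zpowers x := by
    rw [← hcz]
    exact zmodCyclicMulEquiv inferInstance
  exact (MulEquiv.ofBijective F hbij).symm.trans (MulEquiv.prodCongr e1.symm (MulEquiv.refl _))

/-- The characterization. -/
theorem split_two (G : Type u) [CommGroup G] [Finite G]
    (hG : ∀ (p : ℕ), p.Prime → ∀ (e : ℕ) (h0 : G), (h0 ^ e) ^ p = 1 →
      (∀ h : G, ∃ i : ℕ, h ^ e = (h0 ^ e) ^ i) → h0 ^ e = 1) :
    ∃ (n : ℕ) (D : Type u) (_ : CommGroup D), 0 < n ∧ (∀ d : D, d ^ n = 1) ∧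
      Nonempty (G ≃* Multiplicative (ZMod n) × Multiplicative (ZMod n) × D) := by
  obtain ⟨K, ⟨Φ⟩⟩ := split_off G
  obtain ⟨D, ⟨Ψ⟩⟩ := split_off K
  set n := Monoid.exponent G with hn
  set m := Monoid.exponent K with hm
  have hnpos : 0 < n := Nat.pos_of_ne_zero Monoid.exponent_ne_zero_of_finite
  have hmpos : 0 < m := Nat.pos_of_ne_zero Monoid.exponent_ne_zero_of_finite
  have hmn : m ∣ n := Monoid.exponent_dvd_of_monoidHom K.subtype Subtype.val_injective
  have hDn : ∀ d : D, d ^ n = 1 := by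
    intro d
    apply Subtype.ext
    apply Subtype.ext
    exact Monoid.pow_exponent_eq_one ((d : K) : G)
  have hnm : n = m := by
    by_contra hne
    obtain ⟨k, hk⟩ := hmn
    have hk1 : k ≠ 1 := by
      rintro rfl
      rw [mul_one] at hk
      exact hne hk
    obtain ⟨q, hq, hqk⟩ := Nat.exists_prime_and_dvd hk1
    obtain ⟨l, rfl⟩ := hqk
    -- `e = m * l`, `n = e * q`
    set e := m * l with he
    have hn2 : n = e * q := by rw [hk, he]; ring
    have hepos : 0 < e := by
      rcases Nat.eq_zero_or_pos e with h0 | h0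
      · rw [h0, zero_mul] at hn2; omega
      · exact h0
    set c : Multiplicative (ZMod n) := Multiplicative.ofAdd 1 with hc
    set h0 : G := Φ.symm (c, 1) with hh0
    have hΦ : Φ h0 = (c, 1) := by rw [hh0, MulEquiv.apply_symm_apply]
    have h1 := hG q hq e h0 (by rw [← pow_mul, ← hn2, hn, Monoid.pow_exponent_eq_one]) (by
      intro h
      have hcx : ∃ i : ℕ, (Φ h).1 = c ^ i := by
        refine ⟨(Multiplicative.toAdd (Φ h).1).val, ?_⟩
        rw [hc, ← ofAdd_nsmul, nsmul_one]
        haveI : NeZero n := ⟨hnpos.ne'⟩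
        rw [ZMod.natCast_zmod_val]
        rfl
      obtain ⟨i, hi⟩ := hcx
      refine ⟨i, ?_⟩
      apply Φ.injective
      rw [map_pow, map_pow, map_pow, hΦ]
      apply Prod.ext
      · rw [Prod.pow_fst, Prod.pow_fst, Prod.pow_fst, hi, ← pow_mul, ← pow_mul, mul_comm]
      · rw [Prod.pow_snd, Prod.pow_snd, Prod.pow_snd, one_pow, one_pow, he, pow_mul, hm,
          Monoid.pow_exponent_eq_one, one_pow])
    have h2 : c ^ e = 1 := by
      have := congrArg (fun g => (Φ g).1) h1
      simp only [map_pow, hΦ, Prod.pow_fst, map_one, Prod.fst_one] at this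
      exact this
    rw [hc, ← ofAdd_nsmul, nsmul_one, ofAdd_eq_one, ZMod.natCast_eq_zero_iff] at h2
    have h3 := Nat.le_of_dvd hepos h2
    have h4 := hq.two_le
    nlinarith
  refine ⟨n, D, inferInstance, hnpos, hDn, ?_⟩
  rw [← hnm] at Ψ
  exact ⟨Φ.trans (MulEquiv.prodCongr (MulEquiv.refl _) Ψ)⟩

end Pool.Agent.Lib.MP_c6182e_al
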