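import Pool.Agent.Lib.MP_c6182e_al.TransferLemma

/-!
Finite permutation groups with abelian point stabilizer and connected transversals: the stabilizer
of a point fixes another point (Kepka and Niemenmaa).
-/

universe u

namespace Pool.Agent.Lib.MP_c6182e_al

open MulAction Subgroup

/-- A transitive faithful permutation group with abelian stabilizer of the point `o`, and a pair of
connected fixed point free transversals. -/
structure Conn (G Q : Type u) [Group G] [MulAction G Q] where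
  o : Q
  L : Q → G
  R : Q → G
  L_o : ∀ x : Q, L x • o = x
  R_o : ∀ x : Q, R x • o = x
  L1 : L o = 1
  R1 : R o = 1
  ab : ∀ h k : G, h • o = o → k • o = o → h * k = k * h
  comm : ∀ x y : Q, ((L x)⁻¹ * (R y)⁻¹ * L x * R y) • o = o
  Lf : ∀ x q : Q, L x • q = q → x = o
  Rf : ∀ x q : Q, R x • q = q → x = o
  gen : ∀ S : Subgroup G, (∀ x, L x ∈ S) → (∀ x, R x ∈ S) → ∀ g, g ∈ S
  faith : ∀ g : G, (∀ q : Q, g • q = q) → g = 1

namespace Conn

variable {G Q : Type u} [Group G] [MulAction G Q] (S : Conn G Q)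

theorem smul_eq_iff' {g : G} {a b : Q} : g⁻¹ • a = b ↔ a = g • b := by
  rw [inv_smul_eq_iff]

theorem L_inv (x : Q) : (S.L x)⁻¹ • x = S.o := by
  rw [inv_smul_eq_iff, S.L_o]

theorem R_inv (x : Q) : (S.R x)⁻¹ • x = S.o := by
  rw [inv_smul_eq_iff, S.R_o]

theorem decL (g : G) : ((S.L (g • S.o))⁻¹ * g) • S.o = S.o := by
  rw [mul_smul, S.L_inv]

theorem decR (g : G) : ((S.R (g • S.o))⁻¹ * g) • S.o = S.o := by
  rw [mul_smul, S.R_inv]

/-- `L x • y = R y • x`. -/
theorem LR (x y : Q) : S.L x • y = S.R y • x := by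
  have h := S.comm x y
  rw [mul_smul, S.R_o, mul_smul, mul_smul, inv_smul_eq_iff, S.L_o, inv_smul_eq_iff] at h
  exact h

theorem comm' (x y : Q) : ((S.R x)⁻¹ * (S.L y)⁻¹ * S.R x * S.L y) • S.o = S.o := by
  rw [mul_smul, S.L_o, mul_smul, mul_smul, inv_smul_eq_iff, S.R_o, inv_smul_eq_iff, S.LR]

/-- A subgroup containing the stabilizer of `o`. -/
def Over (K : Subgroup G) : Prop := ∀ h : G, h • S.o = S.o → h ∈ K

variable {S}

theorem L_mem {K : Subgroup G} (hK : S.Over K) {g : G} (hg : g ∈ K) : S.L (g • S.o) ∈ K := by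
  have h := hK _ (S.decL g)
  have : S.L (g • S.o) = g * ((S.L (g • S.o))⁻¹ * g)⁻¹ := by group
  rw [this]
  exact mul_mem hg (inv_mem h)

theorem R_mem {K : Subgroup G} (hK : S.Over K) {g : G} (hg : g ∈ K) : S.R (g • S.o) ∈ K := by
  have h := hK _ (S.decR g)
  have : S.R (g • S.o) = g * ((S.R (g • S.o))⁻¹ * g)⁻¹ := by group
  rw [this]
  exact mul_mem hg (inv_mem h)

theorem conj_L_mem {K : Subgroup G} (hK : S.Over K) {x : Q} (hx : S.L x ∈ K) (g : G) :
    g⁻¹ * S.L x * g ∈ K := by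
  set y := g • S.o
  have hh := hK _ (S.decR g)
  have hc := hK _ (S.comm x y)
  have e : g⁻¹ * S.L x * g = ((S.R y)⁻¹ * g)⁻¹ * (S.L x * ((S.L x)⁻¹ * (S.R y)⁻¹ * S.L x * S.R y)) *
      ((S.R y)⁻¹ * g) := by group
  rw [e]
  exact mul_mem (mul_mem (inv_mem hh) (mul_mem hx hc)) hh

theorem conj_R_mem {K : Subgroup G} (hK : S.Over K) {x : Q} (hx : S.R x ∈ K) (g : G) :
    g⁻¹ * S.R x * g ∈ K := by
  set y := g • S.o
  have hh := hK _ (S.decL g)
  have hc := hK _ (S.comm' x y)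
  have e : g⁻¹ * S.R x * g = ((S.L y)⁻¹ * g)⁻¹ * (S.R x * ((S.R x)⁻¹ * (S.L y)⁻¹ * S.R x * S.L y)) *
      ((S.L y)⁻¹ * g) := by group
  rw [e]
  exact mul_mem (mul_mem (inv_mem hh) (mul_mem hx hc)) hh

variable (S)

/-- The stabilizer of `o`. -/
abbrev H : Subgroup G := stabilizer G S.o

theorem mem_H {h : G} : h ∈ S.H ↔ h • S.o = S.o := mem_stabilizer_iff

/-- The pointwise stabilizer of the `K`-orbit of `o`. -/
def X (K : Subgroup G) : Subgroup G where
  carrier := {h | ∀ g ∈ K, h • (g • S.o) = g • S.o}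
  mul_mem' := by
    intro a b ha hb g hg
    rw [mul_smul, hb g hg, ha g hg]
  one_mem' := fun g _ => one_smul _ _
  inv_mem' := by
    intro a ha g hg
    rw [inv_smul_eq_iff, ha g hg]

variable {S}

theorem mem_X {K : Subgroup G} {h : G} : h ∈ S.X K ↔ ∀ g ∈ K, h • (g • S.o) = g • S.o := Iff.rfl

theorem X_o {K : Subgroup G} {h : G} (hh : h ∈ S.X K) : h • S.o = S.o := by
  have := hh 1 (one_mem _)
  rwa [one_smul] at this

theorem X_conj {K : Subgroup G} {h k : G} (hh : h ∈ S.X K) (hk : k ∈ K) : k * h * k⁻¹ ∈ S.X K := by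
  intro g hg
  have := hh (k⁻¹ * g) (mul_mem (inv_mem hk) hg)
  rw [mul_smul, mul_smul, ← mul_smul k⁻¹ g, this, ← mul_smul, mul_inv_cancel_left]

theorem X_conj' {K : Subgroup G} {h k : G} (hh : h ∈ S.X K) (hk : k ∈ K) :
    k⁻¹ * h * k ∈ S.X K := by
  have := X_conj hh (inv_mem hk)
  rwa [inv_inv] at this

/-- The assumptions of the main argument, towards a contradiction. -/
structure Minim (S : Conn G Q) (K : Subgroup G) : Prop where
  ov : S.Over K
  nontriv : ∃ g ∈ K, g • S.o ≠ S.o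
  minimal : ∀ K' : Subgroup G, S.Over K' → K' ≤ K → (∃ g ∈ K', g • S.o ≠ S.o) → K' = K
  nofix : ∀ z : Q, (∀ h : G, h • S.o = S.o → h • z = z) → z = S.o

variable {K : Subgroup G}

/-- An element of the stabilizer that fixes another point of the block fixes all its points. -/
theorem Minim.key (hM : Minim S K) {g h : G} (hg : g ∈ K) (hh : h • S.o = S.o)
    (hfix : h • (g • S.o) = g • S.o) (hne : g • S.o ≠ S.o) : h ∈ S.X K := by
  -- the subgroup of elements of `K` commuting with everything fixing both points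
  let C : Subgroup G :=
    { carrier := {c | c ∈ K ∧ ∀ d : G, d • S.o = S.o → d • (g • S.o) = g • S.o → c * d = d * c}
      mul_mem' := by
        rintro a b ⟨ha, ha'⟩ ⟨hb, hb'⟩
        refine ⟨mul_mem ha hb, fun d h1 h2 => ?_⟩
        rw [mul_assoc, hb' d h1 h2, ← mul_assoc, ha' d h1 h2, mul_assoc]
      one_mem' := ⟨one_mem _, fun d _ _ => by rw [one_mul, mul_one]⟩
      inv_mem' := by
        rintro a ⟨ha, ha'⟩
        refine ⟨inv_mem ha, fun d h1 h2 => ?_⟩
        rw [inv_mul_eq_iff_eq_mul, ← mul_assoc, ha' d h1 h2, mul_assoc, mul_inv_cancel, mul_one] }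
  have hCover : S.Over C := by
    intro c hc
    exact ⟨hM.ov c hc, fun d h1 _ => S.ab c d hc h1⟩
  have hCg : ∀ k : G, k • S.o = S.o → g * k * g⁻¹ ∈ C := by
    intro k hk
    refine ⟨mul_mem (mul_mem hg (hM.ov k hk)) (inv_mem hg), fun d _ h2 => ?_⟩
    have h3 : (g⁻¹ * d * g) • S.o = S.o := by
      rw [mul_smul, mul_smul, h2, inv_smul_smul]
    have h4 := S.ab k _ hk h3
    calc g * k * g⁻¹ * d = g * (k * (g⁻¹ * d * g)) * g⁻¹ := by group
      _ = g * ((g⁻¹ * d * g) * k) * g⁻¹ := by rw [h4]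
      _ = d * (g * k * g⁻¹) := by group
  by_cases hex : ∃ c ∈ C, c • S.o ≠ S.o
  · have hCK : C = K := hM.minimal C hCover (fun c hc => hc.1) hex
    intro k hk
    rw [← hCK] at hk
    have := hk.2 h hh hfix
    rw [← mul_smul, ← this, mul_smul, hh]
  · exfalso
    push Not at hex
    have h1 : g⁻¹ • S.o = S.o := by
      apply hM.nofix
      intro k hk
      have := hex _ (hCg k hk)
      rw [mul_smul, mul_smul] at this
      exact (smul_left_cancel g (by rw [this, smul_inv_smul]))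
    apply hne
    rw [inv_smul_eq_iff] at h1
    exact h1.symm

section transfer

variable [Finite G]

/-- The first transfer. -/
theorem Minim.exists_Y (hM : Minim S K) : ∃ Y : Subgroup G, Y ≤ K ∧
    (∀ h, h • S.o = S.o → (h ∈ Y ↔ h ∈ S.X K)) ∧
    (∀ k ∈ K, ∀ y ∈ Y, k * y * k⁻¹ ∈ Y) ∧
    (∀ k ∈ K, (∀ q : Q, k • q ≠ q) → k ∈ Y) ∧
    (∀ k ∈ K, ∀ k' ∈ K, k⁻¹ * k'⁻¹ * k * k' ∈ Y) := by
  obtain ⟨A, inst, τ, ψ, hψ, hτ1, hτ2⟩ := exists_transfer (G := K) (S.H.subgroupOf K)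
    ((S.X K).subgroupOf K) (by
      intro m _ c hc
      rw [Subgroup.mem_subgroupOf] at hc ⊢
      exact X_conj hc m.2) (by
      intro m hm m' hm'
      rw [Subgroup.mem_subgroupOf, S.mem_H] at hm hm'
      have h1 := S.ab _ _ hm hm'
      have h2 : m * m' = m' * m := Subtype.ext h1
      have h3 : m⁻¹ * m'⁻¹ * m * m' = 1 := by
        rw [mul_assoc, h2, mul_assoc, inv_mul_cancel_left, inv_mul_cancel]
      rw [h3]; exact one_mem _)
  refine ⟨τ.ker.map K.subtype, ?_, ?_, ?_, ?_, ?_⟩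
  · rintro _ ⟨y, _, rfl⟩; exact y.2
  · intro h hh
    have hhK := hM.ov h hh
    have hval : τ ⟨h, hhK⟩ = ψ ⟨⟨h, hhK⟩, by rw [Subgroup.mem_subgroupOf]; exact hh⟩ := by
      refine hτ1 ⟨⟨h, hhK⟩, by rw [Subgroup.mem_subgroupOf]; exact hh⟩ ?_
      intro n g hg hgm
      rw [Subgroup.mem_subgroupOf, S.mem_H] at hg hgm
      rw [Subgroup.mem_subgroupOf]
      push_cast at hgm ⊢
      have hn : (h ^ n) • S.o = S.o := pow_mem (S.mem_H.2 hh) n
      have h1 : (h ^ n) • ((g : G) • S.o) = (g : G) • S.o := by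
        rw [mul_smul, mul_smul, inv_smul_eq_iff] at hgm
        exact hgm
      exact X_conj' (hM.key g.2 hn h1 hg) g.2
    constructor
    · rintro ⟨y, hy, e⟩
      have e2 : y = ⟨h, hhK⟩ := Subtype.ext e
      subst e2
      have hy1 : τ ⟨h, hhK⟩ = 1 := hy
      rw [hval, hψ, Subgroup.mem_subgroupOf] at hy1
      exact hy1
    · intro hX
      refine ⟨⟨h, hhK⟩, ?_, rfl⟩
      change τ ⟨h, hhK⟩ = 1
      rw [hval, hψ, Subgroup.mem_subgroupOf]
      exact hX
  · rintro k hk _ ⟨y, hy, rfl⟩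
    refine ⟨⟨k, hk⟩ * y * ⟨k, hk⟩⁻¹, ?_, rfl⟩
    exact (MonoidHom.normal_ker τ).conj_mem y hy ⟨k, hk⟩
  · intro k hk hkf
    refine ⟨⟨k, hk⟩, ?_, rfl⟩
    change τ ⟨k, hk⟩ = 1
    apply hτ2
    intro n g hgm
    rw [Subgroup.mem_subgroupOf, S.mem_H] at hgm
    rw [Subgroup.mem_subgroupOf]
    push_cast at hgm ⊢
    by_contra hnot
    -- the unique fixed point of a power is fixed
    have hg' : ((g : G)⁻¹ * k * g) ∈ K := mul_mem (mul_mem (inv_mem g.2) hk) g.2
    have h1 : ((g : G)⁻¹ * k ^ n * g) • (((g : G)⁻¹ * k * g) • S.o) =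
        ((g : G)⁻¹ * k * g) • S.o := by
      have e : (g : G)⁻¹ * k ^ n * g * ((g : G)⁻¹ * k * g) =
          (g : G)⁻¹ * k * g * ((g : G)⁻¹ * k ^ n * g) := by
        have : k ^ n * k = k * k ^ n := by rw [← pow_succ, ← pow_succ']
        calc (g : G)⁻¹ * k ^ n * g * ((g : G)⁻¹ * k * g) = (g : G)⁻¹ * (k ^ n * k) * g := by group
          _ = (g : G)⁻¹ * (k * k ^ n) * g := by rw [this]
          _ = _ := by group
      rw [← mul_smul, e, mul_smul, hgm]
    by_cases hne : ((g : G)⁻¹ * k * g) • S.o = S.o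
    · apply hkf ((g : G) • S.o)
      rw [mul_smul, mul_smul, inv_smul_eq_iff] at hne
      exact hne
    · exact hnot (hM.key hg' hgm h1 hne)
  · intro k hk k' hk'
    refine ⟨⟨k, hk⟩⁻¹ * ⟨k', hk'⟩⁻¹ * ⟨k, hk⟩ * ⟨k', hk'⟩, ?_, rfl⟩
    change τ _ = 1
    rw [map_mul, map_mul, map_mul, map_inv, map_inv, mul_comm (τ ⟨k, hk⟩)⁻¹,
      inv_mul_cancel_right, inv_mul_cancel]

end transfer

/-- An abelian normal subgroup, transitive on the block, with central-like properties. -/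
structure Pdata (S : Conn G Q) (K P : Subgroup G) : Prop where
  normal : ∀ g : G, ∀ v ∈ P, g * v * g⁻¹ ∈ P
  le : P ≤ K
  L_mem : ∀ g ∈ K, S.L (g • S.o) ∈ P
  R_mem : ∀ g ∈ K, S.R (g • S.o) ∈ P
  inter : ∀ d ∈ P, d • S.o = S.o → d ∈ S.X K
  comm : ∀ v ∈ P, ∀ w ∈ P, v * w = w * v

theorem trans (S : Conn G Q) (q : Q) : ∃ g : G, g • S.o = q := ⟨S.L q, S.L_o q⟩

theorem Minim.exists_P [Finite G] (hM : Minim S K) : ∃ P : Subgroup G, Pdata S K P := by
  obtain ⟨Y, hYK, hYX, hYn, hYf, _⟩ := hM.exists_Y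
  have hYinv : ∀ y ∈ Y.normalCore, y ∈ Y := fun y hy => Y.normalCore_le hy
  have hPn : ∀ g : G, ∀ v ∈ Y.normalCore, g * v * g⁻¹ ∈ Y.normalCore :=
    fun g v hv => Y.normalCore_normal.conj_mem v hv g
  have hLmem : ∀ g ∈ K, S.L (g • S.o) ∈ Y.normalCore := by
    intro g hg b
    by_cases hx : g • S.o = S.o
    · rw [hx, S.L1, mul_one, mul_inv_cancel]; exact one_mem _
    · apply hYf
      · have := conj_L_mem hM.ov (Conn.L_mem hM.ov hg) b⁻¹
        rwa [inv_inv] at this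
      · intro q hq
        apply hx
        apply S.Lf _ (b⁻¹ • q)
        rw [mul_smul, mul_smul] at hq
        rw [eq_inv_smul_iff]; exact hq
  have hRmem : ∀ g ∈ K, S.R (g • S.o) ∈ Y.normalCore := by
    intro g hg b
    by_cases hx : g • S.o = S.o
    · rw [hx, S.R1, mul_one, mul_inv_cancel]; exact one_mem _
    · apply hYf
      · have := conj_R_mem hM.ov (Conn.R_mem hM.ov hg) b⁻¹
        rwa [inv_inv] at this
      · intro q hq
        apply hx
        apply S.Rf _ (b⁻¹ • q)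
        rw [mul_smul, mul_smul] at hq
        rw [eq_inv_smul_iff]; exact hq
  have hint : ∀ d ∈ Y.normalCore, d • S.o = S.o → d ∈ S.X K := fun d hd hdo =>
    (hYX d hdo).1 (hYinv d hd)
  have hle : Y.normalCore ≤ K := fun y hy => hYK (hYinv y hy)
  -- elements of P commute on `o`
  have hco : ∀ v ∈ Y.normalCore, ∀ w ∈ Y.normalCore, (v * w) • S.o = (w * v) • S.o := by
    intro v hv w hw
    have hvK := hle hv
    have hwK := hle hw
    have hd1 : (S.L (v • S.o))⁻¹ * v ∈ S.X K :=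
      hint _ (mul_mem (inv_mem (hLmem v hvK)) hv) (S.decL v)
    have hd2 : (S.R (w • S.o))⁻¹ * w ∈ S.X K :=
      hint _ (mul_mem (inv_mem (hRmem w hwK)) hw) (S.decR w)
    have e1 : (v * w) • S.o = S.L (v • S.o) • (w • S.o) := by
      have : v * w = S.L (v • S.o) * (((S.L (v • S.o))⁻¹ * v) * w) := by group
      rw [this, mul_smul, mul_smul ((S.L (v • S.o))⁻¹ * v), hd1 w hwK]
    have e2 : (w * v) • S.o = S.R (w • S.o) • (v • S.o) := by
      have : w * v = S.R (w • S.o) * (((S.R (w • S.o))⁻¹ * w) * v) := by group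
      rw [this, mul_smul, mul_smul ((S.R (w • S.o))⁻¹ * w), hd2 v hvK]
    rw [e1, e2, S.LR]
  refine ⟨Y.normalCore, hPn, hle, hLmem, hRmem, hint, ?_⟩
  intro v hv w hw
  have key : (w * v)⁻¹ * (v * w) = 1 := by
    apply S.faith
    intro q
    obtain ⟨g, rfl⟩ := trans S q
    have h1 := hPn g⁻¹ v hv
    have h2 := hPn g⁻¹ w hw
    rw [inv_inv] at h1 h2
    have h3 := hco _ h1 _ h2
    have e1 : g⁻¹ * v * g * (g⁻¹ * w * g) = g⁻¹ * (v * w * g) := by group
    have e2 : g⁻¹ * w * g * (g⁻¹ * v * g) = g⁻¹ * (w * v * g) := by group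
    rw [e1, e2, mul_smul, mul_smul g⁻¹] at h3
    have h4 := smul_left_cancel _ h3
    rw [mul_smul, inv_smul_eq_iff, ← mul_smul, ← mul_smul]
    exact h4
  have := mul_eq_of_eq_inv_mul (a := w * v) (b := 1) (c := v * w)
  calc v * w = (w * v) * ((w * v)⁻¹ * (v * w)) := by group
    _ = w * v := by rw [key, mul_one]

end Conn

end Pool.Agent.Lib.MP_c6182e_al
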