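import Pool.Agent.Lib.MP_c6182e_al.KN

/-!
Second part of the argument of Kepka and Niemenmaa: the stabilizer of a point fixes another point.
-/

universe u

namespace Pool.Agent.Lib.MP_c6182e_al

open MulAction Subgroup

theorem inv_of_finite {G : Type u} [Group G] [Finite G] {p : G → Prop} (h1 : p 1)
    (hm : ∀ a b, p a → p b → p (a * b)) {a : G} (ha : p a) : p a⁻¹ := by
  have hpow : ∀ n : ℕ, p (a ^ n) := by
    intro n
    induction n with
    | zero => rw [pow_zero]; exact h1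
    | succ n ih => rw [pow_succ]; exact hm _ _ ih ha
  have h2 : a⁻¹ = a ^ (orderOf a - 1) := by
    rw [inv_eq_iff_mul_eq_one, ← pow_succ']
    have := orderOf_pos a
    rw [Nat.sub_add_cancel this, pow_orderOf_eq_one]
  rw [h2]
  exact hpow _

namespace Conn

variable {G Q : Type u} [Group G] [MulAction G Q] {S : Conn G Q} {K P : Subgroup G}

theorem mem_of_mul_inv {M : Subgroup G} (hM : S.Over M) {g : G} (h : S.L (g • S.o) ∈ M) : g ∈ M := by
  have h1 := hM _ (S.decL g)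
  have : g = S.L (g • S.o) * ((S.L (g • S.o))⁻¹ * g) := by group
  rw [this]
  exact mul_mem h h1

theorem mem_of_mul_inv' {M : Subgroup G} (hM : S.Over M) {g : G} (h : S.R (g • S.o) ∈ M) :
    g ∈ M := by
  have h1 := hM _ (S.decR g)
  have : g = S.R (g • S.o) * ((S.R (g • S.o))⁻¹ * g) := by group
  rw [this]
  exact mul_mem h h1

section

variable [Finite G]

/-- The normalizer of the stabilizer of `o` in `P`. -/
def Pdata.M (hP : Pdata S K P) : Subgroup G where
  carrier := {g | ∀ d ∈ P, d • S.o = S.o → (g * d * g⁻¹) • S.o = S.o}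
  mul_mem' := by
    intro a b ha hb d hd hdo
    have e : a * b * d * (a * b)⁻¹ = a * (b * d * b⁻¹) * a⁻¹ := by group
    rw [e]
    exact ha _ (hP.normal b d hd) (hb d hd hdo)
  one_mem' := by
    intro d _ hdo
    rw [one_mul, inv_one, mul_one]
    exact hdo
  inv_mem' := by
    intro a ha
    refine inv_of_finite (p := fun g => ∀ d ∈ P, d • S.o = S.o → (g * d * g⁻¹) • S.o = S.o)
      ?_ ?_ ha
    · intro d _ hdo
      rw [one_mul, inv_one, mul_one]
      exact hdo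
    · intro a b ha hb d hd hdo
      have e : a * b * d * (a * b)⁻¹ = a * (b * d * b⁻¹) * a⁻¹ := by group
      rw [e]
      exact ha _ (hP.normal b d hd) (hb d hd hdo)

theorem Pdata.mem_M (hP : Pdata S K P) {g : G} :
    g ∈ hP.M ↔ ∀ d ∈ P, d • S.o = S.o → (g * d * g⁻¹) • S.o = S.o := Iff.rfl

/-- The elements acting trivially on `P` modulo the stabilizer of `o`. -/
def Pdata.C (hP : Pdata S K P) : Subgroup G where
  carrier := {g | ∀ v ∈ P, (g * v * g⁻¹) • S.o = v • S.o}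
  mul_mem' := by
    intro a b ha hb v hv
    have e : a * b * v * (a * b)⁻¹ = a * (b * v * b⁻¹) * a⁻¹ := by group
    rw [e, ha _ (hP.normal b v hv), hb v hv]
  one_mem' := by
    intro v _
    rw [one_mul, inv_one, mul_one]
  inv_mem' := by
    intro a ha v hv
    have h1 := ha _ (hP.normal a⁻¹ v hv)
    have e : a * (a⁻¹ * v * a⁻¹⁻¹) * a⁻¹ = v := by group
    rw [e] at h1
    exact h1.symm

theorem Pdata.mem_C (hP : Pdata S K P) {g : G} :
    g ∈ hP.C ↔ ∀ v ∈ P, (g * v * g⁻¹) • S.o = v • S.o := Iff.rfl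

theorem Pdata.normal' (hP : Pdata S K P) (g : G) {v : G} (hv : v ∈ P) : g⁻¹ * v * g ∈ P := by
  have := hP.normal g⁻¹ v hv
  rwa [inv_inv] at this

theorem Pdata.C_le_M (hP : Pdata S K P) : hP.C ≤ hP.M := by
  intro g hg d hd hdo
  rw [hg d hd, hdo]

theorem Pdata.conj_C (hP : Pdata S K P) {m c : G} (hm : m ∈ hP.M) (hc : c ∈ hP.C) :
    m * c * m⁻¹ ∈ hP.C := by
  intro v hv
  set w := m⁻¹ * v * m with hw
  have hwP : w ∈ P := hP.normal' m hv
  have h1 := hc w hwP
  set d := w⁻¹ * (c * w * c⁻¹) with hd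
  have hdP : d ∈ P := mul_mem (inv_mem hwP) (hP.normal c w hwP)
  have hdo : d • S.o = S.o := by
    rw [hd, mul_smul, h1, inv_smul_smul]
  have e : m * c * m⁻¹ * v * (m * c * m⁻¹)⁻¹ = v * (m * d * m⁻¹) := by
    rw [hd, hw]; group
  rw [e, mul_smul, hm d hdP hdo]

theorem Pdata.K_le_M (hP : Pdata S K P) : K ≤ hP.M := by
  intro k hk d hd hdo
  exact X_o (X_conj (hP.inter d hd hdo) hk)

theorem Pdata.over_M (hP : Pdata S K P) (hM : Minim S K) : S.Over hP.M :=
  fun h hh => hP.K_le_M (hM.ov h hh)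

/-- An element of `P` is `L n * d`. -/
theorem Pdata.dec (hP : Pdata S K P) {v : G} (hv : v ∈ P) : S.L (v • S.o) ∈ P ∧
    (S.L (v • S.o))⁻¹ * v ∈ P :=
  ⟨hP.L_mem v (hP.le hv), mul_mem (inv_mem (hP.L_mem v (hP.le hv))) hv⟩

theorem Pdata.R_mem_C (hP : Pdata S K P) (hM : Minim S K) {m : G} (hm : m ∈ hP.M) :
    S.R (m • S.o) ∈ hP.C := by
  set s := m • S.o
  have hRM : S.R s ∈ hP.M := Conn.R_mem (hP.over_M hM) hm
  rw [← inv_inv (S.R s)]
  apply inv_mem
  intro v hv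
  obtain ⟨h1, h2⟩ := hP.dec hv
  set n := v • S.o with hn
  have h3 := S.comm n s
  have h4 : ((S.R s)⁻¹ * ((S.L n)⁻¹ * v) * S.R s) • S.o = S.o := by
    have := inv_mem hRM _ h2 (S.decL v)
    rwa [inv_inv] at this
  have e : (S.R s)⁻¹ * v * ((S.R s)⁻¹)⁻¹ = S.L n * (((S.L n)⁻¹ * (S.R s)⁻¹ * S.L n * S.R s) *
      ((S.R s)⁻¹ * ((S.L n)⁻¹ * v) * S.R s)) := by group
  rw [e, mul_smul, mul_smul ((S.L n)⁻¹ * (S.R s)⁻¹ * S.L n * S.R s), h4, h3, S.L_o]

theorem Pdata.trans_P (hP : Pdata S K P) {g : G} (hg : g ∈ K) : ∃ v ∈ P, v • S.o = g • S.o :=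
  ⟨_, hP.L_mem g hg, S.L_o _⟩

theorem Pdata.H_C (hP : Pdata S K P) {h : G} (hh : h • S.o = S.o) :
    h ∈ hP.C ↔ h ∈ S.X K := by
  have hh' : h⁻¹ • S.o = S.o := by rw [inv_smul_eq_iff, hh]
  have e : ∀ v, (h * v * h⁻¹) • S.o = h • v • S.o := by
    intro v
    rw [mul_smul, mul_smul, hh']
  constructor
  · intro hC g hg
    obtain ⟨v, hv, e1⟩ := hP.trans_P hg
    rw [← e1]
    have := hC v hv
    rwa [e] at this
  · intro hX v hv
    rw [e]
    exact hX v (hP.le hv)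

theorem Pdata.comm_M (hP : Pdata S K P) (hM : Minim S K) {m m' : G} (hm : m ∈ hP.M)
    (hm' : m' ∈ hP.M) : m⁻¹ * m'⁻¹ * m * m' ∈ hP.C := by
  have hN : (hP.C.subgroupOf hP.M).Normal := by
    constructor
    intro n hn g
    rw [Subgroup.mem_subgroupOf] at hn ⊢
    exact hP.conj_C g.2 hn
  have key : ∀ g (hg : g ∈ hP.M), ∃ h : G, ∃ hh : h ∈ hP.M, h • S.o = S.o ∧
      (QuotientGroup.mk' (hP.C.subgroupOf hP.M) ⟨g, hg⟩ =
        QuotientGroup.mk' (hP.C.subgroupOf hP.M) ⟨h, hh⟩) := by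
    intro g hg
    refine ⟨(S.R (g • S.o))⁻¹ * g, hP.over_M hM _ (S.decR g), S.decR g, ?_⟩
    have e1 : (⟨(S.R (g • S.o))⁻¹ * g, hP.over_M hM _ (S.decR g)⟩ : hP.M) =
        ⟨S.R (g • S.o), Conn.R_mem (hP.over_M hM) hg⟩⁻¹ * ⟨g, hg⟩ := rfl
    rw [e1, map_mul]
    have e2 : QuotientGroup.mk' (hP.C.subgroupOf hP.M)
      (⟨S.R (g • S.o), Conn.R_mem (hP.over_M hM) hg⟩⁻¹ : hP.M) = 1 := by
      rw [map_inv, inv_eq_one, QuotientGroup.mk'_apply, QuotientGroup.eq_one_iff,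
        Subgroup.mem_subgroupOf]
      exact hP.R_mem_C hM hg
    rw [e2, one_mul]
  obtain ⟨h, hh, h1, h2⟩ := key m hm
  obtain ⟨h', hh', h1', h2'⟩ := key m' hm'
  have e : QuotientGroup.mk' (hP.C.subgroupOf hP.M)
      ((⟨m, hm⟩ : hP.M)⁻¹ * (⟨m', hm'⟩ : hP.M)⁻¹ * ⟨m, hm⟩ * ⟨m', hm'⟩) = 1 := by
    rw [map_mul, map_mul, map_mul, map_inv, map_inv, h2, h2', ← map_inv, ← map_inv, ← map_mul,
      ← map_mul, ← map_mul]
    have e3 : (⟨h, hh⟩ : hP.M)⁻¹ * (⟨h', hh'⟩ : hP.M)⁻¹ * ⟨h, hh⟩ * ⟨h', hh'⟩ = 1 := by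
      apply Subtype.ext
      change h⁻¹ * h'⁻¹ * h * h' = 1
      have := S.ab h h' h1 h1'
      rw [mul_assoc, this, mul_assoc, inv_mul_cancel_left, inv_mul_cancel]
    rw [e3, map_one]
  rw [QuotientGroup.mk'_apply, QuotientGroup.eq_one_iff, Subgroup.mem_subgroupOf] at e
  exact e

/-- `M` is a proper subgroup. -/
theorem Pdata.M_ne (hP : Pdata S K P) (hM : Minim S K) (hall : ∀ g, g ∈ hP.M) : False := by
  -- the stabilizer of `o` in `P` is trivial
  have hD : ∀ d ∈ P, d • S.o = S.o → d = 1 := by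
    intro d hd hdo
    apply S.faith
    intro q
    obtain ⟨g, rfl⟩ := trans S q
    have := hall g⁻¹ d hd hdo
    rw [inv_inv, mul_smul, mul_smul, inv_smul_eq_iff] at this
    exact this
  obtain ⟨g, hg, hne⟩ := hM.nontriv
  set s := g • S.o with hs
  have hLP := hP.L_mem g hg
  have hRP := hP.R_mem g hg
  rw [← hs] at hLP hRP
  have hLR : S.L s = S.R s := by
    have h1 : (S.R s)⁻¹ * S.L s = 1 := by
      apply hD _ (mul_mem (inv_mem hRP) hLP)
      rw [mul_smul, S.L_o, S.R_inv]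
    rw [inv_mul_eq_one] at h1
    exact h1.symm
  have hcR : ∀ y, S.L s * S.R y = S.R y * S.L s := by
    intro y
    have h1 : (S.L s)⁻¹ * (S.R y)⁻¹ * S.L s * S.R y = 1 := by
      apply hD
      · have e : (S.L s)⁻¹ * (S.R y)⁻¹ * S.L s * S.R y =
          (S.L s)⁻¹ * ((S.R y)⁻¹ * S.L s * S.R y) := by group
        rw [e]
        exact mul_mem (inv_mem hLP) (hP.normal' _ hLP)
      · exact S.comm s y
    calc S.L s * S.R y = S.R y * S.L s * ((S.L s)⁻¹ * (S.R y)⁻¹ * S.L s * S.R y) := by group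
      _ = S.R y * S.L s := by rw [h1, mul_one]
  have hcL : ∀ y, S.L s * S.L y = S.L y * S.L s := by
    intro y
    rw [hLR]
    have h1 : (S.R s)⁻¹ * (S.L y)⁻¹ * S.R s * S.L y = 1 := by
      apply hD
      · have e : (S.R s)⁻¹ * (S.L y)⁻¹ * S.R s * S.L y =
          (S.R s)⁻¹ * ((S.L y)⁻¹ * S.R s * S.L y) := by group
        rw [e]
        exact mul_mem (inv_mem hRP) (hP.normal' _ hRP)
      · exact S.comm' s y
    calc S.R s * S.L y = S.L y * S.R s * ((S.R s)⁻¹ * (S.L y)⁻¹ * S.R s * S.L y) := by group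
      _ = S.L y * S.R s := by rw [h1, mul_one]
  have hc : ∀ g, g ∈ Subgroup.centralizer ({S.L s} : Set G) := by
    apply S.gen
    · intro x
      rw [Subgroup.mem_centralizer_iff]
      intro h hh
      rw [Set.mem_singleton_iff] at hh
      rw [hh]; exact hcL x
    · intro x
      rw [Subgroup.mem_centralizer_iff]
      intro h hh
      rw [Set.mem_singleton_iff] at hh
      rw [hh]; exact hcR x
  apply hne
  apply hM.nofix
  intro h hh
  have h1 := hc h
  rw [Subgroup.mem_centralizer_iff] at h1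
  have h2 := h1 _ (Set.mem_singleton _)
  have h3 : s = S.L s • S.o := (S.L_o s).symm
  rw [h3, ← mul_smul, ← h2, mul_smul, hh]

/-- The second transfer. -/
theorem Pdata.comm_X (hP : Pdata S K P) (hM : Minim S K) {h : G} (hh : h • S.o = S.o)
    (hcomm : ∀ (A : Type u) (_ : CommGroup A) (τ : G →* A), τ h = 1) : h ∈ S.X K := by
  obtain ⟨A, inst, τ, ψ, hψ, hτ1, -⟩ := exists_transfer hP.M hP.C
    (fun m hm c hc => hP.conj_C hm hc) (fun m hm m' hm' => hP.comm_M hM hm hm')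
  have hhM := hP.over_M hM h hh
  have h1 : τ h = ψ ⟨h, hhM⟩ := by
    refine hτ1 ⟨h, hhM⟩ ?_
    intro n g hg hgm
    change g⁻¹ * h ^ n * g ∈ hP.M at hgm
    change g⁻¹ * h ^ n * g ∈ hP.C
    -- `g⁻¹` does not normalize `D`
    have hg' : g⁻¹ ∉ hP.M := fun hc => hg (by
      have := inv_mem hc
      rwa [inv_inv] at this)
    rw [hP.mem_M] at hg'
    push Not at hg'
    obtain ⟨d, hd, hdo, hne⟩ := hg'
    rw [inv_inv] at hne
    set v := g⁻¹ * d * g with hv
    have hvP : v ∈ P := hP.normal' g hd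
    set m := g⁻¹ * h ^ n * g with hm
    have hmv : m * v = v * m := by
      have h2 : h ^ n * d = d * h ^ n := S.ab _ _ (pow_mem (S.mem_H.2 hh) n) hdo
      calc m * v = g⁻¹ * (h ^ n * d) * g := by rw [hm, hv]; group
        _ = g⁻¹ * (d * h ^ n) * g := by rw [h2]
        _ = v * m := by rw [hm, hv]; group
    have hRC := hP.R_mem_C hM hgm
    set s := m • S.o with hs
    set h' := (S.R s)⁻¹ * m with hh'
    have hh'o : h' • S.o = S.o := S.decR m
    have h3 : (h' * v * h'⁻¹) • S.o = v • S.o := by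
      have h4 := inv_mem hRC v hvP
      have e : h' * v * h'⁻¹ = (S.R s)⁻¹ * v * ((S.R s)⁻¹)⁻¹ := by
        calc h' * v * h'⁻¹ = (S.R s)⁻¹ * (m * v) * m⁻¹ * S.R s := by rw [hh']; group
          _ = (S.R s)⁻¹ * (v * m) * m⁻¹ * S.R s := by rw [hmv]
          _ = _ := by group
      rw [e]
      exact h4
    have h4 : h' • (v • S.o) = v • S.o := by
      have h5 : h'⁻¹ • S.o = S.o := by rw [inv_smul_eq_iff, hh'o]
      rw [mul_smul, mul_smul, h5] at h3
      exact h3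
    have h5 : h' ∈ S.X K := hM.key (hP.le hvP) hh'o h4 hne
    have h6 : h' ∈ hP.C := (hP.H_C hh'o).2 h5
    have e : m = S.R s * h' := by rw [hh']; group
    rw [e]
    exact mul_mem hRC h6
  rw [hcomm A inst τ] at h1
  exact (hP.H_C hh).1 ((hψ ⟨h, hhM⟩).1 h1.symm)

theorem Pdata.comm_LR (hP : Pdata S K P) (hM : Minim S K) (x y : Q) :
    (S.L x)⁻¹ * (S.R y)⁻¹ * S.L x * S.R y ∈ S.X K := by
  apply hP.comm_X hM (S.comm x y)
  intro A _ τ
  rw [map_mul, map_mul, map_mul, map_inv, map_inv, mul_comm (τ (S.L x))⁻¹, inv_mul_cancel_right,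
    inv_mul_cancel]

/-- The pointwise stabilizer of the block centralizes `P`. -/
theorem Pdata.X_cent (hP : Pdata S K P) (hM : Minim S K) {h : G} (hh : h • S.o = S.o)
    (hhX : h ∉ S.X K) {x : G} (hx : x ∈ S.X K) {v : G} (hv : v ∈ P) : x * v = v * x := by
  classical
  have hfin : Finite Q := by
    have hsur : Function.Surjective (fun g : G => g • S.o) := fun q => trans S q
    exact Finite.of_surjective _ hsur
  -- the map on the block
  have hmem : ∀ u ∈ P, h * u * h⁻¹ * u⁻¹ ∈ P := fun u hu => mul_mem (hP.normal h u hu) (inv_mem hu)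
  let f : {q : Q // ∃ u ∈ P, u • S.o = q} → {q : Q // ∃ u ∈ P, u • S.o = q} := fun q =>
    ⟨(h * q.2.choose * h⁻¹ * (q.2.choose)⁻¹) • S.o, _, hmem _ q.2.choose_spec.1, rfl⟩
  have hinj : Function.Injective f := by
    intro q q' hqq
    have hu := q.2.choose_spec
    have hu' := q'.2.choose_spec
    set u := q.2.choose with hu0
    set u' := q'.2.choose with hu0'
    have e1 : (h * u * h⁻¹ * u⁻¹) • S.o = (h * u' * h⁻¹ * u'⁻¹) • S.o := congrArg Subtype.val hqq
    set w := u'⁻¹ * u with hw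
    have hwP : w ∈ P := mul_mem (inv_mem hu'.1) hu.1
    have e2 : h * w * h⁻¹ * w⁻¹ = (h * u' * h⁻¹ * u'⁻¹)⁻¹ * (h * u * h⁻¹ * u⁻¹) := by
      have c1 := hP.comm (h * u * h⁻¹) (hP.normal h u hu.1) (h * u' * h⁻¹) (hP.normal h u' hu'.1)
      have c2 := hP.comm (u⁻¹ * u') (mul_mem (inv_mem hu.1) hu'.1)
        (h * (u'⁻¹ * u) * h⁻¹) (hP.normal h _ (mul_mem (inv_mem hu'.1) hu.1))
      have c3 := hP.comm u' hu'.1 (h * (u'⁻¹ * u) * h⁻¹) (hP.normal h _ (mul_mem (inv_mem hu'.1) hu.1))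
      have c4 := hP.comm u' hu'.1 u⁻¹ (inv_mem hu.1)
      calc h * w * h⁻¹ * w⁻¹ = (h * (u'⁻¹ * u) * h⁻¹) * (u⁻¹ * u') := by rw [hw]; group
        _ = (h * (u'⁻¹ * u) * h⁻¹) * (u' * u⁻¹) := by rw [c4]
        _ = (h * (u'⁻¹ * u) * h⁻¹ * u') * u⁻¹ := by group
        _ = (u' * (h * (u'⁻¹ * u) * h⁻¹)) * u⁻¹ := by rw [c3]
        _ = (h * u' * h⁻¹ * u'⁻¹)⁻¹ * (h * u * h⁻¹ * u⁻¹) := by group
    have e3 : (h * w * h⁻¹ * w⁻¹) • S.o = S.o := by
      rw [e2, mul_smul, e1, inv_smul_smul]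
    have e4 : h • (w • S.o) = w • S.o := by
      have c5 := hP.comm w hwP (h * w * h⁻¹ * w⁻¹) (hmem w hwP)
      have hh' : h⁻¹ • S.o = S.o := by rw [inv_smul_eq_iff, hh]
      have e5 : h * w * h⁻¹ = w * (h * w * h⁻¹ * w⁻¹) := by
        rw [c5]; group
      have e6 : (h * w * h⁻¹) • S.o = w • S.o := by
        rw [e5, mul_smul, e3]
      rw [mul_smul, mul_smul, hh'] at e6
      exact e6
    have e5 : w • S.o = S.o := by
      by_contra hne
      exact hhX (hM.key (hP.le hwP) hh e4 hne)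
    apply Subtype.ext
    rw [hw, mul_smul, inv_smul_eq_iff] at e5
    rw [← hu.2, ← hu'.2, e5]
  have hsurj : Function.Surjective f := Finite.injective_iff_surjective.1 hinj
  obtain ⟨q, hq⟩ := hsurj ⟨v • S.o, v, hv, rfl⟩
  have hu := q.2.choose_spec
  set u := q.2.choose with hu0
  have e1 : (h * u * h⁻¹ * u⁻¹) • S.o = v • S.o := congrArg Subtype.val hq
  set d := (h * u * h⁻¹ * u⁻¹)⁻¹ * v with hd
  have hdo : d • S.o = S.o := by rw [hd, mul_smul, ← e1, inv_smul_smul]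
  have hxo := X_o hx
  have hxd : x * d = d * x := S.ab x d hxo hdo
  have hxh : x * h = h * x := S.ab x h hxo hh
  -- the commutator of `x` and `u` lies in the stabilizer
  set c := x * u * x⁻¹ * u⁻¹ with hc
  have hcP : c ∈ P := mul_mem (hP.normal x u hu.1) (inv_mem hu.1)
  have hco : c • S.o = S.o := by
    have h1 : (x⁻¹ * u⁻¹) • S.o = u⁻¹ • S.o := by
      rw [mul_smul, inv_smul_eq_iff]
      exact (hx _ (inv_mem (hP.le hu.1))).symm
    rw [hc, mul_assoc, mul_smul, h1, mul_smul, smul_inv_smul, hxo]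
  have hhc : h * c = c * h := S.ab h c hh hco
  have hxu : x * (h * u * h⁻¹ * u⁻¹) = (h * u * h⁻¹ * u⁻¹) * x := by
    have e2 : x * u = c * u * x := by rw [hc]; group
    have e3 : x * u * x⁻¹ = c * u := by rw [e2]; group
    have c1 := hP.comm c hcP (h * u * h⁻¹) (hP.normal h u hu.1)
    have e4 : x * (h * u * h⁻¹ * u⁻¹) * x⁻¹ = h * u * h⁻¹ * u⁻¹ := by
      have hxh' : x * h⁻¹ = h⁻¹ * x := by
        rw [mul_inv_eq_iff_eq_mul, mul_assoc, hxh, inv_mul_cancel_left]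
      calc x * (h * u * h⁻¹ * u⁻¹) * x⁻¹ = (x * h) * u * h⁻¹ * u⁻¹ * x⁻¹ := by group
        _ = (h * x) * u * h⁻¹ * u⁻¹ * x⁻¹ := by rw [hxh]
        _ = h * (x * u * x⁻¹) * (x * h⁻¹) * u⁻¹ * x⁻¹ := by group
        _ = h * (c * u) * (h⁻¹ * x) * u⁻¹ * x⁻¹ := by rw [e3, hxh']
        _ = (h * c) * u * h⁻¹ * (x * u * x⁻¹)⁻¹ := by group
        _ = (c * h) * u * h⁻¹ * (c * u)⁻¹ := by rw [hhc, e3]
        _ = (c * (h * u * h⁻¹)) * u⁻¹ * c⁻¹ := by group
        _ = ((h * u * h⁻¹) * c) * u⁻¹ * c⁻¹ := by rw [c1]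
        _ = h * u * h⁻¹ * (c * u⁻¹) * c⁻¹ := by group
        _ = h * u * h⁻¹ * (u⁻¹ * c) * c⁻¹ := by rw [hP.comm c hcP u⁻¹ (inv_mem hu.1)]
        _ = h * u * h⁻¹ * u⁻¹ := by group
    rw [mul_inv_eq_iff_eq_mul] at e4
    exact e4
  have ev : v = (h * u * h⁻¹ * u⁻¹) * d := by rw [hd]; group
  rw [ev]
  calc x * ((h * u * h⁻¹ * u⁻¹) * d) = (x * (h * u * h⁻¹ * u⁻¹)) * d := by group
    _ = ((h * u * h⁻¹ * u⁻¹) * x) * d := by rw [hxu]
    _ = (h * u * h⁻¹ * u⁻¹) * (x * d) := by group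
    _ = (h * u * h⁻¹ * u⁻¹) * (d * x) := by rw [hxd]
    _ = (h * u * h⁻¹ * u⁻¹) * d * x := by group

/-- The contradiction. -/
theorem Pdata.false (hP : Pdata S K P) (hM : Minim S K) : False := by
  -- an element of the stabilizer outside `X`
  have hex : ∃ h : G, h • S.o = S.o ∧ h ∉ S.X K := by
    by_contra hcon
    push Not at hcon
    obtain ⟨g, hg, hne⟩ := hM.nontriv
    apply hne
    apply hM.nofix
    intro h hh
    exact hcon h hh g hg
  obtain ⟨h, hh, hhX⟩ := hex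
  have hPn : P.Normal := ⟨fun n hn g => hP.normal g n hn⟩
  let π : G →* MulAut P := MulAut.conjNormal
  have hπ : ∀ (g : G) (v : P), ((π g v : P) : G) = g * v * g⁻¹ := fun g v => rfl
  have hX1 : ∀ x ∈ S.X K, π x = 1 := by
    intro x hx
    ext v
    rw [hπ, MulAut.one_apply, hP.X_cent hM hh hhX hx v.2, mul_inv_cancel_right]
  have hZ : ∀ k g : G, k • S.o = S.o → k ∉ S.X K → π k * π g = π g * π k → g ∈ hP.M := by
    intro k g hk hkX hcomm d hd hdo
    by_contra hne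
    apply hkX
    refine hM.key (hP.le (hP.normal g d hd)) hk ?_ hne
    have h1 := congrArg (fun a : MulAut P => ((a ⟨d, hd⟩ : P) : G)) hcomm
    simp only [MulAut.mul_apply, hπ] at h1
    have h2 : k * d = d * k := S.ab k d hk hdo
    have h3 : k * (g * d * g⁻¹) * k⁻¹ = g * d * g⁻¹ := by
      rw [h1, h2]; group
    have hk' : k⁻¹ • S.o = S.o := by rw [inv_smul_eq_iff, hk]
    calc k • ((g * d * g⁻¹) • S.o) = (k * (g * d * g⁻¹) * k⁻¹) • S.o := by
          rw [mul_smul (k * (g * d * g⁻¹)), hk', mul_smul k]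
      _ = (g * d * g⁻¹) • S.o := by rw [h3]
  have hover := hP.over_M hM
  have hLR : ∀ x y, π (S.L x) * π (S.R y) = π (S.R y) * π (S.L x) := by
    intro x y
    have h1 := hX1 _ (hP.comm_LR hM x y)
    rw [map_mul, map_mul, map_mul, map_inv, map_inv] at h1
    calc π (S.L x) * π (S.R y) = π (S.R y) * π (S.L x) *
          ((π (S.L x))⁻¹ * (π (S.R y))⁻¹ * π (S.L x) * π (S.R y)) := by group
      _ = π (S.R y) * π (S.L x) := by rw [h1, mul_one]
  have hLL : ∀ x y, π (S.L (S.L x • y)) = π (S.L x) * π (S.L y) := by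
    intro x y
    have h0 : ((S.L (S.L x • y))⁻¹ * (S.L x * S.L y)) • S.o = S.o := by
      rw [mul_smul, mul_smul, S.L_o, S.L_inv]
    by_cases hX : (S.L (S.L x • y))⁻¹ * (S.L x * S.L y) ∈ S.X K
    · have h1 := hX1 _ hX
      rw [map_mul, map_mul, map_inv, inv_mul_eq_one] at h1
      exact h1
    · exfalso
      apply hP.M_ne hM
      intro g
      apply mem_of_mul_inv' hover
      refine hZ _ _ h0 hX ?_
      rw [map_mul, map_mul, map_inv]
      have c1 := hLR (S.L x • y) (g • S.o)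
      have c2 := hLR x (g • S.o)
      have c3 := hLR y (g • S.o)
      have c1' : (π (S.L (S.L x • y)))⁻¹ * π (S.R (g • S.o)) =
          π (S.R (g • S.o)) * (π (S.L (S.L x • y)))⁻¹ := by
        rw [inv_mul_eq_iff_eq_mul, ← mul_assoc, c1, mul_inv_cancel_right]
      rw [mul_assoc, mul_assoc, c3, ← mul_assoc (π (S.L x)), c2, mul_assoc, ← mul_assoc, c1']
      simp only [mul_assoc]
  have hRR : ∀ x y, π (S.R (S.R x • y)) = π (S.R x) * π (S.R y) := by
    intro x y
    have h0 : ((S.R (S.R x • y))⁻¹ * (S.R x * S.R y)) • S.o = S.o := by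
      rw [mul_smul, mul_smul, S.R_o, S.R_inv]
    by_cases hX : (S.R (S.R x • y))⁻¹ * (S.R x * S.R y) ∈ S.X K
    · have h1 := hX1 _ hX
      rw [map_mul, map_mul, map_inv, inv_mul_eq_one] at h1
      exact h1
    · exfalso
      apply hP.M_ne hM
      intro g
      apply mem_of_mul_inv hover
      refine hZ _ _ h0 hX ?_
      rw [map_mul, map_mul, map_inv]
      have c1 := (hLR (g • S.o) (S.R x • y)).symm
      have c2 := (hLR (g • S.o) x).symm
      have c3 := (hLR (g • S.o) y).symm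
      have c1' : (π (S.R (S.R x • y)))⁻¹ * π (S.L (g • S.o)) =
          π (S.L (g • S.o)) * (π (S.R (S.R x • y)))⁻¹ := by
        rw [inv_mul_eq_iff_eq_mul, ← mul_assoc, c1, mul_inv_cancel_right]
      rw [mul_assoc, mul_assoc, c3, ← mul_assoc (π (S.R x)), c2, mul_assoc, ← mul_assoc, c1']
      simp only [mul_assoc]
  have hT1 : ∀ x, S.L x ∉ hP.M → π (S.L x) = π (S.R x) := by
    intro x hx
    have h0 : ((S.R x)⁻¹ * S.L x) • S.o = S.o := by rw [mul_smul, S.L_o, S.R_inv]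
    by_cases hX : (S.R x)⁻¹ * S.L x ∈ S.X K
    · have h1 := hX1 _ hX
      rw [map_mul, map_inv, inv_mul_eq_one] at h1
      exact h1.symm
    · exfalso
      apply hx
      refine hZ _ _ h0 hX ?_
      rw [map_mul, map_inv]
      have c1 := hLR x x
      have c1' : (π (S.R x))⁻¹ * π (S.L x) = π (S.L x) * (π (S.R x))⁻¹ := by
        rw [inv_mul_eq_iff_eq_mul, ← mul_assoc, ← c1, mul_inv_cancel_right]
      rw [c1', mul_assoc, c1']
  have hy : ∃ y, S.L y ∉ hP.M := by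
    by_contra hcon
    push Not at hcon
    exact hP.M_ne hM (fun g => mem_of_mul_inv hover (hcon _))
  obtain ⟨y, hy⟩ := hy
  have hT : ∀ x, π (S.L x) = π (S.R x) := by
    intro x
    by_cases hx : S.L x ∈ hP.M
    · have hz : S.L (S.L x • y) ∉ hP.M := by
        intro hz
        apply hy
        have h0 : ((S.L (S.L x • y))⁻¹ * (S.L x * S.L y)) • S.o = S.o := by
          rw [mul_smul, mul_smul, S.L_o, S.L_inv]
        have h1 := hover _ h0
        have e : S.L y = (S.L x)⁻¹ * (S.L (S.L x • y) *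
            ((S.L (S.L x • y))⁻¹ * (S.L x * S.L y))) := by group
        rw [e]
        exact mul_mem (inv_mem hx) (mul_mem hz h1)
      have h1 := hT1 _ hz
      rw [hLL, S.LR, hRR, hT1 y hy, hLR x y] at h1
      exact mul_left_cancel h1
    · exact hT1 x hx
  have hcL : ∀ x z, π (S.L x) * π (S.L z) = π (S.L z) * π (S.L x) := by
    intro x z
    rw [hT z, hLR, ← hT z]
  have hall : ∀ x : Q, ∀ g : G, π g * π (S.L x) = π (S.L x) * π g := by
    intro x
    have := S.gen ((Subgroup.centralizer ({π (S.L x)} : Set (MulAut P))).comap π) ?_ ?_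
    · intro g
      have h1 := this g
      rw [Subgroup.mem_comap, Subgroup.mem_centralizer_iff] at h1
      exact (h1 _ (Set.mem_singleton _)).symm
    · intro z
      rw [Subgroup.mem_comap, Subgroup.mem_centralizer_iff]
      intro a ha
      rw [Set.mem_singleton_iff] at ha
      rw [ha, hcL]
    · intro z
      rw [Subgroup.mem_comap, Subgroup.mem_centralizer_iff]
      intro a ha
      rw [Set.mem_singleton_iff] at ha
      rw [ha, ← hT, hcL]
  apply hP.M_ne hM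
  intro g
  apply mem_of_mul_inv hover
  exact hZ h _ hh hhX (hall _ _)

end

/-- The stabilizer of a point fixes another point. -/
theorem exists_fix [Finite G] (S : Conn G Q) (hne : ∃ q : Q, q ≠ S.o) :
    ∃ z : Q, z ≠ S.o ∧ ∀ h : G, h • S.o = S.o → h • z = z := by
  by_contra hcon
  have hcon' : ∀ z : Q, (∀ h : G, h • S.o = S.o → h • z = z) → z = S.o := by
    intro z hz
    by_contra hzo
    exact hcon ⟨z, hzo, hz⟩
  obtain ⟨q, hq⟩ := hne
  have hset : ({K : Subgroup G | S.Over K ∧ ∃ g ∈ K, g • S.o ≠ S.o}).Nonempty :=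
    ⟨⊤, fun _ _ => Subgroup.mem_top _, S.L q, Subgroup.mem_top _, by rw [S.L_o]; exact hq⟩
  have hwf : WellFounded ((· < ·) : Subgroup G → Subgroup G → Prop) := wellFounded_lt
  obtain ⟨hK1, hK2⟩ := hwf.min_mem _ hset
  have hM : Minim S (hwf.min _ hset) := by
    refine ⟨hK1, hK2, ?_, hcon'⟩
    intro K' h1 h2 h3
    by_contra hne
    have h4 : K' ∈ {K : Subgroup G | S.Over K ∧ ∃ g ∈ K, g • S.o ≠ S.o} := ⟨h1, h3⟩
    exact hwf.not_lt_min _ h4 (lt_of_le_of_ne h2 hne)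
  obtain ⟨P, hP⟩ := hM.exists_P
  exact hP.false hM

end Conn

end Pool.Agent.Lib.MP_c6182e_al
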