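import Pool.Agent.Lib.MP_c6182e_al.Center

/-!
The kernel of the map from the multiplication group of a loop to that of the central quotient, for
loops with commuting inner mappings.
-/

universe u v

namespace Pool.Agent.Lib.MP_c6182e_al

open LoopStr

variable {Q : Type u} [LoopStr Q]

variable (Q) in
/-- Elements of the multiplication group acting trivially on the central quotient. -/
def kerQ : Subgroup (Equiv.Perm Q) where
  carrier := {σ | σ ∈ mlt Q ∧ ∀ x, pr (σ x) = pr x}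
  mul_mem' := by
    rintro a b ⟨ha, ha'⟩ ⟨hb, hb'⟩
    exact ⟨mul_mem ha hb, fun x => by rw [Equiv.Perm.mul_apply, ha', hb']⟩
  one_mem' := ⟨one_mem _, fun _ => rfl⟩
  inv_mem' := by
    rintro a ⟨ha, ha'⟩
    refine ⟨inv_mem ha, fun x => ?_⟩
    rw [← ha' (a⁻¹ x)]
    simp

theorem mem_kerQ {σ : Equiv.Perm Q} : σ ∈ kerQ Q ↔ σ ∈ mlt Q ∧ ∀ x, pr (σ x) = pr x := Iff.rfl

theorem kerQ_le : kerQ Q ≤ mlt Q := fun _ h => h.1

theorem kerQ_one {k : Equiv.Perm Q} (hk : k ∈ kerQ Q) : k 1 ∈ cen Q := by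
  rw [← pr_eq_one, hk.2 1, pr_one]

theorem kerQ_comm_inn (hA : AIM Q) {k h : Equiv.Perm Q} (hk : k ∈ kerQ Q) (hh : h ∈ inn Q) :
    k * h = h * k := by
  have h0 := mlt_decomp' hk.1
  have h1 := hA _ h0 _ hh
  have h2 := cen_lp_comm (kerQ_one hk) (inn_le_mlt hh)
  have h3 : k = lp (k 1) * ((lp (k 1))⁻¹ * k) := by group
  calc k * h = lp (k 1) * (((lp (k 1))⁻¹ * k) * h) := by group
    _ = lp (k 1) * (h * ((lp (k 1))⁻¹ * k)) := by rw [h1]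
    _ = (lp (k 1) * h) * ((lp (k 1))⁻¹ * k) := by group
    _ = (h * lp (k 1)) * ((lp (k 1))⁻¹ * k) := by rw [h2]
    _ = h * k := by group

theorem kerQ_conj {k g : Equiv.Perm Q} (hk : k ∈ kerQ Q) (hg : g ∈ mlt Q) :
    g⁻¹ * k * g ∈ kerQ Q := by
  refine ⟨mul_mem (mul_mem (inv_mem hg) hk.1) hg, fun x => ?_⟩
  obtain ⟨g', _, h2⟩ := pr_hom.exists_mlt hg
  have h3 : ∀ y, pr (g⁻¹ y) = g'⁻¹ (pr y) := by
    intro y
    rw [Equiv.Perm.eq_inv_iff_eq, ← h2]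
    simp
  rw [Equiv.Perm.mul_apply, Equiv.Perm.mul_apply, h3, hk.2, ← h3]
  simp

theorem kerQ_conj' {k g : Equiv.Perm Q} (hk : k ∈ kerQ Q) (hg : g ∈ mlt Q) :
    g * k * g⁻¹ ∈ kerQ Q := by
  have := kerQ_conj hk (inv_mem hg)
  rwa [inv_inv] at this

theorem kerQ_comm (hA : AIM Q) {k k' : Equiv.Perm Q} (hk : k ∈ kerQ Q) (hk' : k' ∈ kerQ Q) :
    k * k' = k' * k := by
  have h0 := mlt_decomp' hk'.1
  have h1 := kerQ_comm_inn hA hk h0
  have h2 := cen_lp_comm (kerQ_one hk') hk.1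
  calc k * k' = (k * lp (k' 1)) * ((lp (k' 1))⁻¹ * k') := by group
    _ = (lp (k' 1) * k) * ((lp (k' 1))⁻¹ * k') := by rw [h2]
    _ = lp (k' 1) * (k * ((lp (k' 1))⁻¹ * k')) := by group
    _ = lp (k' 1) * (((lp (k' 1))⁻¹ * k') * k) := by rw [h1]
    _ = k' * k := by group

variable (Q) in
/-- The centralizer of `kerQ Q` in the multiplication group. -/
def cker : Subgroup (Equiv.Perm Q) := mlt Q ⊓ Subgroup.centralizer (kerQ Q : Set (Equiv.Perm Q))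

theorem mem_cker {g : Equiv.Perm Q} : g ∈ cker Q ↔ g ∈ mlt Q ∧ ∀ k ∈ kerQ Q, k * g = g * k := by
  unfold cker
  rw [Subgroup.mem_inf, Subgroup.mem_centralizer_iff]
  rfl

theorem inn_le_cker (hA : AIM Q) : inn Q ≤ cker Q := fun _ hh =>
  mem_cker.2 ⟨inn_le_mlt hh, fun _ hk => kerQ_comm_inn hA hk hh⟩

theorem kerQ_le_cker (hA : AIM Q) : kerQ Q ≤ cker Q := fun _ hh =>
  mem_cker.2 ⟨hh.1, fun _ hk => kerQ_comm hA hk hh⟩

theorem cker_conj {c g : Equiv.Perm Q} (hc : c ∈ cker Q) (hg : g ∈ mlt Q) :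
    g⁻¹ * c * g ∈ cker Q := by
  rw [mem_cker] at hc ⊢
  refine ⟨mul_mem (mul_mem (inv_mem hg) hc.1) hg, fun k hk => ?_⟩
  have h := hc.2 _ (kerQ_conj' hk hg)
  calc k * (g⁻¹ * c * g) = g⁻¹ * ((g * k * g⁻¹) * c) * g := by group
    _ = g⁻¹ * (c * (g * k * g⁻¹)) * g := by rw [h]
    _ = g⁻¹ * c * g * k := by group

theorem lp_mem_cker (hA : AIM Q) {g : Equiv.Perm Q} (hg : g ∈ cker Q) : lp (g 1) ∈ cker Q := by
  have h0 := inn_le_cker hA (mlt_decomp' (mem_cker.1 hg).1)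
  have : lp (g 1) = g * ((lp (g 1))⁻¹ * g)⁻¹ := by group
  rw [this]
  exact mul_mem hg (inv_mem h0)

/-- The displacement of `a` under `h`. -/
def sv (h : Equiv.Perm Q) (a : Q) : Q := ldiv a (h a)

theorem sv_eq {h : Equiv.Perm Q} (hh : h ∈ inn Q) (a : Q) : sv h a = ((lp a)⁻¹ * h * lp a) 1 := by
  rw [Equiv.Perm.mul_apply, Equiv.Perm.mul_apply, lp_apply, lmul_one]
  rfl

theorem mul_sv (h : Equiv.Perm Q) (a : Q) : a * sv h a = h a := LoopStr.mul_ldiv _ _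

theorem lp_sv_mem (hA : AIM Q) {h : Equiv.Perm Q} (hh : h ∈ inn Q) (a : Q) :
    lp (sv h a) ∈ cker Q := by
  rw [sv_eq hh]
  exact lp_mem_cker hA (cker_conj (inn_le_cker hA hh) (lp_mem a))

theorem pr_inn {h : Equiv.Perm Q} (hh : h ∈ inn Q) {c : Q} (hc : pr c ∈ cen (QC Q)) :
    pr (h c) = pr c := by
  obtain ⟨h', h1, h2⟩ := pr_hom.exists_inn hh
  rw [h2, hc _ h1]

theorem sv_mem_cen {h : Equiv.Perm Q} (hh : h ∈ inn Q) {c : Q} (hc : pr c ∈ cen (QC Q)) :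
    sv h c ∈ cen Q := by
  rw [← pr_eq_one]
  unfold sv
  rw [pr_hom.map_ldiv, pr_inn hh hc, ldiv_self]

theorem conj_lp {c : Q} (hc : pr c ∈ cen (QC Q)) {g : Equiv.Perm Q} (hg : g ∈ mlt Q) :
    (lp c)⁻¹ * (g⁻¹ * lp c * g) ∈ kerQ Q := by
  refine ⟨mul_mem (inv_mem (lp_mem c)) (mul_mem (mul_mem (inv_mem hg) (lp_mem c)) hg),
    fun x => ?_⟩
  obtain ⟨g', h1, h2⟩ := pr_hom.exists_mlt hg
  have h3 : ∀ y, pr (g⁻¹ y) = g'⁻¹ (pr y) := by
    intro y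
    rw [Equiv.Perm.eq_inv_iff_eq, ← h2]
    simp
  have h4 : pr (((lp c)⁻¹ * (g⁻¹ * lp c * g)) x) = ldiv (pr c) (g'⁻¹ (pr c * g' (pr x))) := by
    rw [Equiv.Perm.mul_apply, lp_inv_apply, pr_hom.map_ldiv, Equiv.Perm.mul_apply,
      Equiv.Perm.mul_apply, h3, lp_apply, pr_hom, h2]
  rw [h4, cen_apply hc (inv_mem h1)]
  simp [LoopStr.ldiv_mul]

theorem conj_lp' {c : Q} (hc : pr c ∈ cen (QC Q)) {g : Equiv.Perm Q} (hg : g ∈ mlt Q) :
    (lp c)⁻¹ * (g * lp c * g⁻¹) ∈ kerQ Q := by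
  have := conj_lp hc (inv_mem hg)
  rwa [inv_inv] at this

theorem rp_conj {w : Q} (hw : pr w ∈ cen (QC Q)) {h : Equiv.Perm Q} (hh : h ∈ inn Q) :
    (rp w)⁻¹ * (h * rp w * h⁻¹) ∈ kerQ Q := by
  have hh' := inn_le_mlt hh
  refine ⟨mul_mem (inv_mem (rp_mem w)) (mul_mem (mul_mem hh' (rp_mem w)) (inv_mem hh')),
    fun x => ?_⟩
  obtain ⟨g', h1, h2⟩ := pr_hom.exists_mlt hh'
  have h3 : ∀ y, pr (h⁻¹ y) = g'⁻¹ (pr y) := by
    intro y
    rw [Equiv.Perm.eq_inv_iff_eq, ← h2]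
    simp
  have h4 : pr (((rp w)⁻¹ * (h * rp w * h⁻¹)) x) = rdiv (g' (g'⁻¹ (pr x) * pr w)) (pr w) := by
    rw [Equiv.Perm.mul_apply, rp_inv_apply, pr_hom.map_rdiv, Equiv.Perm.mul_apply,
      Equiv.Perm.mul_apply, h2, rp_apply, pr_hom, h3]
  rw [h4, cen_apply' hw h1]
  simp [LoopStr.mul_rdiv]

/-- How an inner mapping acts on a product `c * w`, `w` in the second centre. -/
theorem inn_mul (hA : AIM Q) {h : Equiv.Perm Q} (hh : h ∈ inn Q) {c w : Q}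
    (hc : lp c ∈ cker Q) (hw : pr w ∈ cen (QC Q)) :
    h (c * w) = (h c * w) * sv h w := by
  set k := (rp w)⁻¹ * (h * rp w * h⁻¹) with hk
  have hkm : k ∈ kerQ Q := rp_conj hw hh
  have hz := kerQ_one hkm
  have h1 : h (c * w) = k (h c) * w := by
    have : h * rp w = rp w * k * h := by rw [hk]; group
    have := congrArg (fun g : Equiv.Perm Q => g c) this
    simpa using this
  have h2 : k (h c) = h c * k 1 := by
    have e1 : k * h * lp c = h * lp c * k := by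
      rw [kerQ_comm_inn hA hkm hh, mul_assoc, (mem_cker.1 hc).2 k hkm, mul_assoc]
    have := congrArg (fun g : Equiv.Perm Q => g 1) e1
    simp only [Equiv.Perm.mul_apply, lp_apply, lmul_one] at this
    rw [this, cen_apply' hz (inn_le_mlt hh)]
  have h3 : k 1 = sv h w := by
    have : h * rp w = rp w * k * h := by rw [hk]; group
    have := congrArg (fun g : Equiv.Perm Q => g 1) this
    simp only [Equiv.Perm.mul_apply, rp_apply, lone_mul, inn_one hh] at this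
    unfold sv
    rw [eq_ldiv_iff, this, cen_comm hz]
  rw [h1, h2, ← h3, ← cen_assoc3 hz, ← cen_comm hz w, cen_assoc1 hz]

theorem sv_mul (hA : AIM Q) {h : Equiv.Perm Q} (hh : h ∈ inn Q) {c w : Q}
    (hc : lp c ∈ cker Q) (hc' : pr c ∈ cen (QC Q)) (hw : pr w ∈ cen (QC Q)) :
    sv h (c * w) = sv h c * sv h w := by
  have h1 := inn_mul hA hh hc hw
  have h2 := sv_mem_cen hh hc'
  have h3 := sv_mem_cen hh hw
  change ldiv (c * w) (h (c * w)) = _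
  symm
  rw [eq_ldiv_iff, h1, ← mul_sv h c, cen_assoc1 h3, ← cen_assoc3 h2 c w, ← cen_comm h2 w,
    cen_assoc1 h2 c w]

theorem sv_of_mem_cen {h : Equiv.Perm Q} (hh : h ∈ inn Q) {c : Q} (hc : c ∈ cen Q) :
    sv h c = 1 := by
  unfold sv
  rw [hc _ hh, ldiv_self]

/-- The value `sv h c` depends only on the image of `c` in the central quotient. -/
theorem sv_congr {h : Equiv.Perm Q} (hh : h ∈ inn Q) {c c' : Q} (e : pr c = pr c') :
    sv h c = sv h c' := by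
  obtain ⟨z, hz, rfl⟩ := pr_eq_iff.1 e
  unfold sv
  rw [cen_apply' hz (inn_le_mlt hh)]
  rw [eq_ldiv_iff, ← cen_assoc3 hz, ← cen_comm hz, cen_assoc1 hz, LoopStr.mul_ldiv]

theorem sv_mul_left {h g : Equiv.Perm Q} (hh : h ∈ inn Q) (hg : g ∈ inn Q) {c : Q}
    (hc : pr c ∈ cen (QC Q)) : sv (h * g) c = sv h c * sv g c := by
  have h2 := sv_mem_cen hh hc
  have h3 := sv_mem_cen hg hc
  have e1 : (h * g) c = (c * sv h c) * sv g c := by
    rw [Equiv.Perm.mul_apply, ← mul_sv g c, cen_apply' h3 (inn_le_mlt hh), mul_sv h c]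
  change ldiv c ((h * g) c) = _
  symm
  rw [eq_ldiv_iff, e1, cen_assoc1 h3]

theorem lp_comm (hA : AIM Q) {b c : Q} (hb : pr b ∈ cen (QC Q)) (hc : pr c ∈ cen (QC Q))
    (hb' : lp b ∈ cker Q) (hc' : lp c ∈ cker Q) : lp b * lp c = lp c * lp b := by
  have hTb : tt b ∈ kerQ Q := by
    refine ⟨inn_le_mlt (tt_mem b), fun x => ?_⟩
    rw [pr_hom.map_tt, tt_apply, ← cen_comm hb, LoopStr.mul_rdiv]
  have hbc : b * c = c * b := by
    have e1 := congrArg (fun g : Equiv.Perm Q => g 1) ((mem_cker.1 hc').2 _ hTb)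
    simp only [Equiv.Perm.mul_apply, lp_apply, lmul_one, inn_one (tt_mem b)] at e1
    rw [tt_apply] at e1
    exact (eq_rdiv_iff.1 e1.symm).symm
  set κ := (lp b)⁻¹ * (lp c)⁻¹ * lp b * lp c with hκ
  have hcomm : ∀ g ∈ mlt Q, κ * g = g * κ := by
    intro g hg
    obtain ⟨k1, hk1, e1⟩ : ∃ k1 ∈ kerQ Q, g⁻¹ * lp b * g = lp b * k1 :=
      ⟨_, conj_lp hb hg, by group⟩
    obtain ⟨k2, hk2, e2⟩ : ∃ k2 ∈ kerQ Q, g⁻¹ * lp c * g = lp c * k2 :=
      ⟨_, conj_lp hc hg, by group⟩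
    have c12 := kerQ_comm hA hk1 hk2
    have cb1 := (mem_cker.1 hb').2 _ hk1
    have cb2 := (mem_cker.1 hb').2 _ hk2
    have cc1 := (mem_cker.1 hc').2 _ hk1
    have cc2 := (mem_cker.1 hc').2 _ hk2
    have e3 : g⁻¹ * κ * g = (g⁻¹ * lp b * g)⁻¹ * (g⁻¹ * lp c * g)⁻¹ * (g⁻¹ * lp b * g) *
        (g⁻¹ * lp c * g) := by rw [hκ]; group
    have e4 : g⁻¹ * κ * g = κ := by
      rw [e3, e1, e2, hκ]
      have f1 : (lp b * k1)⁻¹ * (lp c * k2)⁻¹ * (lp b * k1) * (lp c * k2) =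
        k1⁻¹ * (lp b)⁻¹ * k2⁻¹ * (lp c)⁻¹ * lp b * k1 * lp c * k2 := by group
      rw [f1]
      have g1 : Commute k1 k2 := c12
      have g2 : Commute k1 (lp b) := cb1
      have g3 : Commute k2 (lp b) := cb2
      have g4 : Commute k1 (lp c) := cc1
      have g5 : Commute k2 (lp c) := cc2
      have x1 : (lp b)⁻¹ * k2⁻¹ = k2⁻¹ * (lp b)⁻¹ := (g3.inv_inv.eq).symm
      have x2 : k1 * lp c = lp c * k1 := g4
      have x3 : k1⁻¹ * k2⁻¹ = k2⁻¹ * k1⁻¹ := g1.inv_inv.eq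
      calc k1⁻¹ * (lp b)⁻¹ * k2⁻¹ * (lp c)⁻¹ * lp b * k1 * lp c * k2
          = k1⁻¹ * ((lp b)⁻¹ * k2⁻¹) * (lp c)⁻¹ * lp b * (k1 * lp c) * k2 := by group
        _ = k1⁻¹ * (k2⁻¹ * (lp b)⁻¹) * (lp c)⁻¹ * lp b * (lp c * k1) * k2 := by rw [x1, x2]
        _ = (k1⁻¹ * k2⁻¹) * ((lp b)⁻¹ * (lp c)⁻¹ * lp b * lp c) * (k1 * k2) := by group
        _ = (lp b)⁻¹ * (lp c)⁻¹ * lp b * lp c := by
            have y1 : Commute (k1 * k2) ((lp b)⁻¹ * (lp c)⁻¹ * lp b * lp c) := by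
              apply Commute.mul_left
              · exact (((g2.inv_right.mul_right g4.inv_right).mul_right g2).mul_right g4)
              · exact (((g3.inv_right.mul_right g5.inv_right).mul_right g3).mul_right g5)
            have y2 : k1⁻¹ * k2⁻¹ = (k1 * k2)⁻¹ := by rw [x3, mul_inv_rev]
            rw [y2, mul_assoc, ← y1.eq]
            group
    calc κ * g = g * (g⁻¹ * κ * g) := by group
      _ = g * κ := by rw [e4]
  have hκ1 : κ 1 = 1 := by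
    rw [hκ]
    simp only [Equiv.Perm.mul_apply, lp_apply, lmul_one, lp_inv_apply]
    rw [hbc, LoopStr.ldiv_mul, ldiv_self]
  have hκid : κ = 1 := by
    ext x
    have e1 := congrArg (fun g : Equiv.Perm Q => g 1) (hcomm (lp x) (lp_mem x))
    simp only [Equiv.Perm.mul_apply, lp_apply, lmul_one, hκ1] at e1
    exact e1
  have : lp b * lp c = lp c * lp b * κ := by rw [hκ]; group
  rw [this, hκid, mul_one]

/-- The key symmetry, on the level of groups. -/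
theorem group_key {M : Type*} [Group M] {a b c h g kb kc : M}
    (hhg : h * g = g * h)
    (hbc : b * c = c * b)
    (h1g1 : (b⁻¹ * (a⁻¹ * h * a)) * (c⁻¹ * (a⁻¹ * g * a)) =
      (c⁻¹ * (a⁻¹ * g * a)) * (b⁻¹ * (a⁻¹ * h * a)))
    (hkc : a * c * a⁻¹ = c * kc) (hkb : a * b * a⁻¹ = b * kb)
    (kch : kc * h = h * kc) (kcc : kc * c = c * kc)
    (kbg : kb * g = g * kb) (kbb : kb * b = b * kb)
    (κg : ((b⁻¹ * (a⁻¹ * h * a))⁻¹ * c⁻¹ * (b⁻¹ * (a⁻¹ * h * a)) * c) *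
      (c⁻¹ * (a⁻¹ * g * a)) = (c⁻¹ * (a⁻¹ * g * a)) *
      ((b⁻¹ * (a⁻¹ * h * a))⁻¹ * c⁻¹ * (b⁻¹ * (a⁻¹ * h * a)) * c))
    (κh : ((c⁻¹ * (a⁻¹ * g * a))⁻¹ * b⁻¹ * (c⁻¹ * (a⁻¹ * g * a)) * b) *
      (b⁻¹ * (a⁻¹ * h * a)) = (b⁻¹ * (a⁻¹ * h * a)) *
      ((c⁻¹ * (a⁻¹ * g * a))⁻¹ * b⁻¹ * (c⁻¹ * (a⁻¹ * g * a)) * b)) :
    h⁻¹ * c⁻¹ * h * c = g⁻¹ * b⁻¹ * g * b := by
  set h' := b⁻¹ * (a⁻¹ * h * a) with hh'
  set g' := c⁻¹ * (a⁻¹ * g * a) with hg'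
  have e1 : (b * h') * (c * g') = (c * g') * (b * h') := by
    rw [hh', hg']
    calc b * (b⁻¹ * (a⁻¹ * h * a)) * (c * (c⁻¹ * (a⁻¹ * g * a)))
        = a⁻¹ * (h * g) * a := by group
      _ = a⁻¹ * (g * h) * a := by rw [hhg]
      _ = _ := by group
  set κ1 := h'⁻¹ * c⁻¹ * h' * c with hκ1
  set κ2 := g'⁻¹ * b⁻¹ * g' * b with hκ2
  have e2 : (b * h') * (c * g') = b * c * (h' * g') * κ1 := by
    have : h' * c = c * h' * κ1 := by rw [hκ1]; group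
    calc (b * h') * (c * g') = b * (h' * c) * g' := by group
      _ = b * (c * h' * κ1) * g' := by rw [this]
      _ = b * c * h' * (κ1 * g') := by group
      _ = b * c * h' * (g' * κ1) := by rw [κg]
      _ = _ := by group
  have e3 : (c * g') * (b * h') = c * b * (g' * h') * κ2 := by
    have : g' * b = b * g' * κ2 := by rw [hκ2]; group
    calc (c * g') * (b * h') = c * (g' * b) * h' := by group
      _ = c * (b * g' * κ2) * h' := by rw [this]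
      _ = c * b * g' * (κ2 * h') := by group
      _ = c * b * g' * (h' * κ2) := by rw [κh]
      _ = _ := by group
  have e4 : κ1 = κ2 := by
    rw [e2, e3, ← hbc, ← h1g1] at e1
    exact mul_left_cancel e1
  have e5 : κ1 = a⁻¹ * (h⁻¹ * c⁻¹ * h * c) * a := by
    have f1 : κ1 = (a⁻¹ * h * a)⁻¹ * (b * c⁻¹ * b⁻¹) * (a⁻¹ * h * a) * c := by
      rw [hκ1, hh']; group
    have f2 : b * c⁻¹ * b⁻¹ = c⁻¹ := by
      have : Commute b c := hbc
      rw [this.inv_right.eq]; group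
    rw [f1, f2]
    have f3 : (a⁻¹ * h * a)⁻¹ * c⁻¹ * (a⁻¹ * h * a) * c =
      a⁻¹ * (h⁻¹ * (a * c * a⁻¹)⁻¹ * h * (a * c * a⁻¹)) * a := by group
    rw [f3, hkc]
    have : h⁻¹ * (c * kc)⁻¹ * h * (c * kc) = h⁻¹ * c⁻¹ * h * c := by
      have g1 : Commute kc h := kch
      have g2 : Commute kc c := kcc
      have g3 : Commute kc (h⁻¹ * c⁻¹ * h * c) :=
        (((g1.inv_right.mul_right g2.inv_right).mul_right g1).mul_right g2)
      calc h⁻¹ * (c * kc)⁻¹ * h * (c * kc) = (h⁻¹ * kc⁻¹) * c⁻¹ * h * c * kc := by group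
        _ = (kc⁻¹ * h⁻¹) * c⁻¹ * h * c * kc := by rw [g1.inv_inv.eq]
        _ = kc⁻¹ * ((h⁻¹ * c⁻¹ * h * c) * kc) := by group
        _ = kc⁻¹ * (kc * (h⁻¹ * c⁻¹ * h * c)) := by rw [g3.eq]
        _ = _ := by group
    rw [this]
  have e6 : κ2 = a⁻¹ * (g⁻¹ * b⁻¹ * g * b) * a := by
    have f1 : κ2 = (a⁻¹ * g * a)⁻¹ * (c * b⁻¹ * c⁻¹) * (a⁻¹ * g * a) * b := by
      rw [hκ2, hg']; group
    have f2 : c * b⁻¹ * c⁻¹ = b⁻¹ := by
      have : Commute c b := hbc.symm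
      rw [this.inv_right.eq]; group
    rw [f1, f2]
    have f3 : (a⁻¹ * g * a)⁻¹ * b⁻¹ * (a⁻¹ * g * a) * b =
      a⁻¹ * (g⁻¹ * (a * b * a⁻¹)⁻¹ * g * (a * b * a⁻¹)) * a := by group
    rw [f3, hkb]
    have : g⁻¹ * (b * kb)⁻¹ * g * (b * kb) = g⁻¹ * b⁻¹ * g * b := by
      have g1 : Commute kb g := kbg
      have g2 : Commute kb b := kbb
      have g3 : Commute kb (g⁻¹ * b⁻¹ * g * b) :=
        (((g1.inv_right.mul_right g2.inv_right).mul_right g1).mul_right g2)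
      calc g⁻¹ * (b * kb)⁻¹ * g * (b * kb) = (g⁻¹ * kb⁻¹) * b⁻¹ * g * b * kb := by group
        _ = (kb⁻¹ * g⁻¹) * b⁻¹ * g * b * kb := by rw [g1.inv_inv.eq]
        _ = kb⁻¹ * ((g⁻¹ * b⁻¹ * g * b) * kb) := by group
        _ = kb⁻¹ * (kb * (g⁻¹ * b⁻¹ * g * b)) := by rw [g3.eq]
        _ = _ := by group
    rw [this]
  rw [e5, e6] at e4
  exact mul_left_cancel (mul_right_cancel e4)

/-- Commutators of elements of `cker` with `lp c`, `c` in the second centre, lie in `kerQ`. -/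
theorem comm_mem_kerQ {c : Q} (hc : pr c ∈ cen (QC Q)) {g : Equiv.Perm Q} (hg : g ∈ mlt Q) :
    g⁻¹ * (lp c)⁻¹ * g * lp c ∈ kerQ Q := by
  have h1 := inv_mem (conj_lp hc hg)
  have h2 := kerQ_conj h1 (lp_mem c)
  have : (lp c)⁻¹ * ((lp c)⁻¹ * (g⁻¹ * lp c * g))⁻¹ * lp c =
    (lp c)⁻¹ * (g⁻¹ * (lp c)⁻¹ * g * lp c) * lp c := by group
  rw [this] at h2
  have h3 := kerQ_conj' h2 (lp_mem c)
  have h4 : lp c * ((lp c)⁻¹ * (g⁻¹ * (lp c)⁻¹ * g * lp c) * lp c) * (lp c)⁻¹ =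
    g⁻¹ * (lp c)⁻¹ * g * lp c := by group
  rwa [h4] at h3

/-- The key symmetry `φ_h(s_g(a)) = φ_g(s_h(a))`. -/
theorem key_symm (hA : AIM Q) {h g : Equiv.Perm Q} (hh : h ∈ inn Q) (hg : g ∈ inn Q) {a : Q}
    (hb : pr (sv h a) ∈ cen (QC Q)) (hc : pr (sv g a) ∈ cen (QC Q)) :
    sv h (sv g a) = sv g (sv h a) := by
  set b := sv h a with hbdef
  set c := sv g a with hcdef
  have hb' : lp b ∈ cker Q := lp_sv_mem hA hh a
  have hc' : lp c ∈ cker Q := lp_sv_mem hA hg a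
  have hh1 : (lp b)⁻¹ * ((lp a)⁻¹ * h * lp a) ∈ inn Q := by
    have := mlt_decomp' (σ := (lp a)⁻¹ * h * lp a)
      (mul_mem (mul_mem (inv_mem (lp_mem a)) (inn_le_mlt hh)) (lp_mem a))
    rwa [← sv_eq hh a] at this
  have hg1 : (lp c)⁻¹ * ((lp a)⁻¹ * g * lp a) ∈ inn Q := by
    have := mlt_decomp' (σ := (lp a)⁻¹ * g * lp a)
      (mul_mem (mul_mem (inv_mem (lp_mem a)) (inn_le_mlt hg)) (lp_mem a))
    rwa [← sv_eq hg a] at this
  have kc := conj_lp' hc (lp_mem a)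
  have kb := conj_lp' hb (lp_mem a)
  have key := group_key (a := lp a) (b := lp b) (c := lp c) (h := h) (g := g)
    (kc := (lp c)⁻¹ * (lp a * lp c * (lp a)⁻¹)) (kb := (lp b)⁻¹ * (lp a * lp b * (lp a)⁻¹))
    (hA _ hh _ hg) (lp_comm hA hb hc hb' hc') (hA _ hh1 _ hg1)
    (by group) (by group)
    (kerQ_comm_inn hA kc hh) ((mem_cker.1 hc').2 _ kc)
    (kerQ_comm_inn hA kb hg) ((mem_cker.1 hb').2 _ kb)
    (kerQ_comm_inn hA (comm_mem_kerQ hc (inn_le_mlt hh1)) hg1)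
    (kerQ_comm_inn hA (comm_mem_kerQ hb (inn_le_mlt hg1)) hh1)
  have ev : ∀ {h : Equiv.Perm Q}, h ∈ inn Q → ∀ {c : Q}, pr c ∈ cen (QC Q) →
      (h⁻¹ * (lp c)⁻¹ * h * lp c) 1 = sv h c := by
    intro h hh c hc
    simp only [Equiv.Perm.mul_apply, lp_apply, lmul_one, lp_inv_apply]
    exact sv_mem_cen hh hc _ (inv_mem hh)
  rw [← ev hh hc, ← ev hg hb, key]

end Pool.Agent.Lib.MP_c6182e_al
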