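import Pool.Agent.Lib.MP_c6182e_al.KN2
import Pool.Agent.Lib.MP_c6182e_al.Final

/-!
Finite loops with abelian inner mapping groups are centrally nilpotent (Kepka and Niemenmaa).
-/

universe u

namespace Pool.Agent.Lib.MP_c6182e_al

open LoopStr

section

variable {Q : Type u} [LoopStr Q]

/-- The multiplication group of a loop with abelian inner mapping group. -/
def connOf (hA : AIM Q) : Conn (mlt Q) Q where
  o := 1
  L := fun x => ⟨lp x, lp_mem x⟩
  R := fun x => ⟨rp x, rp_mem x⟩
  L_o := fun x => lmul_one x
  R_o := fun x => lone_mul x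
  L1 := Subtype.ext lp_one
  R1 := Subtype.ext rp_one
  ab := by
    intro h k hh hk
    apply Subtype.ext
    exact hA h.1 (mem_inn.2 ⟨h.2, hh⟩) k.1 (mem_inn.2 ⟨k.2, hk⟩)
  comm := fun x y => inn_one (cc_mem x y)
  Lf := by
    intro x q h
    have h1 : x * q = q := h
    have h2 : x * q = 1 * q := by rw [lone_mul]; exact h1
    exact mul_right_cancel' h2
  Rf := by
    intro x q h
    have h1 : q * x = q := h
    have h2 : q * x = q * 1 := by rw [lmul_one]; exact h1
    exact mul_left_cancel' h2
  gen := by
    intro S hL hR g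
    obtain ⟨g, hg⟩ := g
    unfold mlt at hg
    induction hg using Subgroup.closure_induction with
    | mem x hx =>
      obtain ⟨a, rfl | rfl⟩ := hx
      · exact hL a
      · exact hR a
    | one => exact one_mem S
    | mul x y hx hy ihx ihy => exact mul_mem ihx ihy
    | inv x hx ih => exact inv_mem ih
  faith := by
    intro g hg
    apply Subtype.ext
    ext q
    exact hg q

theorem exists_center [Finite Q] (hA : AIM Q) (hne : ∃ q : Q, q ≠ 1) :
    ∃ z ∈ cen Q, z ≠ 1 := by
  obtain ⟨z, hz, hfix⟩ := Conn.exists_fix (connOf hA) hne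
  refine ⟨z, ?_, hz⟩
  intro σ hσ
  exact hfix ⟨σ, (mem_inn.1 hσ).1⟩ (mem_inn.1 hσ).2

end

/-- Finite loops with abelian inner mapping groups are centrally nilpotent. -/
theorem finite_nil (N : ℕ) : ∀ (Q : Type u) [LoopStr Q] [Finite Q], Nat.card Q = N → AIM Q →
    ∃ n, LNil n Q := by
  induction N using Nat.strong_induction_on with
  | _ N ih =>
    intro Q _ _ hN hA
    by_cases hs : Subsingleton Q
    · exact ⟨0, hs⟩
    · have hne : ∃ q : Q, q ≠ 1 := by
        by_contra hcon
        push Not at hcon
        exact hs ⟨fun a b => by rw [hcon a, hcon b]⟩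
      obtain ⟨z, hz, hz1⟩ := exists_center hA hne
      have hfin : Finite (QC Q) := Finite.of_surjective _ (pr_surjective (Q := Q))
      have hlt : Nat.card (QC Q) < N := by
        rw [← hN]
        refine lt_of_le_of_ne (Nat.card_le_card_of_surjective _ (pr_surjective (Q := Q))) ?_
        intro heq
        have hinj : Function.Injective (pr : Q → QC Q) :=
          ((Nat.bijective_iff_surjective_and_card _).2 ⟨pr_surjective, heq.symm⟩).1
        apply hz1
        apply hinj
        rw [pr_one]
        exact pr_eq_one.2 hz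
      obtain ⟨n, hn⟩ := ih _ hlt (QC Q) rfl (aim_QC hA)
      exact ⟨n + 1, hn⟩

end Pool.Agent.Lib.MP_c6182e_al
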