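import Pool.Agent.Lib.MP_c6182e_al.ClassThree

/-!
Structure of nilpotent loops with commuting inner mappings and at most three generators.
-/

universe u v

namespace Pool.Agent.Lib.MP_c6182e_al

open LoopStr

section prelim

variable {Q : Type u} [LoopStr Q]

theorem sv_eq_one {h : Equiv.Perm Q} {a : Q} : sv h a = 1 ↔ h a = a := by
  unfold sv
  constructor
  · intro e
    have := eq_ldiv_iff.1 e.symm
    rw [lmul_one] at this
    exact this.symm
  · intro e; rw [e, ldiv_self]

theorem mem_cen_of_sv {z : Q} (h1 : ∀ t, sv (tt t) z = 1) (h2 : ∀ x y, sv (ll x y) z = 1)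
    (h3 : ∀ x y, sv (rr x y) z = 1) : z ∈ cen Q := by
  rw [cen_iff]
  exact ⟨fun x => sv_eq_one.1 (h1 x), fun x y => sv_eq_one.1 (h2 x y),
    fun x y => sv_eq_one.1 (h3 x y)⟩

theorem pr_eq_of_sv {h : Equiv.Perm Q} {a : Q} (hc : sv h a ∈ cen Q) : pr (h a) = pr a := by
  have : pr a = pr (h a) := by
    rw [pr_eq_iff]
    exact ⟨_, hc, (mul_sv h a).symm⟩
  exact this.symm

theorem sv_mem_of_pr_eq {h : Equiv.Perm Q} {a : Q} (hc : pr (h a) = pr a) : sv h a ∈ cen Q := by
  rw [← pr_eq_one]
  unfold sv
  rw [pr_hom.map_ldiv, hc, ldiv_self]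

theorem Cl2_of_gens (h1 : ∀ t a : Q, sv (tt t) a ∈ cen Q) (h2 : ∀ x y a : Q, sv (ll x y) a ∈ cen Q)
    (h3 : ∀ x y a : Q, sv (rr x y) a ∈ cen Q) : Cl2 Q := by
  intro h hh
  have key : ∀ a, pr (h a) = pr a := by
    rw [inn_eq_closure] at hh
    induction hh using Subgroup.closure_induction with
    | mem x hx =>
      rcases hx with ⟨a, rfl⟩ | ⟨a, b, rfl⟩ | ⟨a, b, rfl⟩
      · exact fun c => pr_eq_of_sv (h1 _ _)
      · exact fun c => pr_eq_of_sv (h2 _ _ _)
      · exact fun c => pr_eq_of_sv (h3 _ _ _)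
    | one => exact fun _ => rfl
    | mul x y _ _ ihx ihy => exact fun a => by rw [Equiv.Perm.mul_apply, ihx, ihy]
    | inv x _ ih =>
      intro a
      have := ih (x⁻¹ a)
      rw [← this]; simp
  exact fun a => sv_mem_of_pr_eq (key a)

end prelim

section classthree

variable {Q : Type u} [LoopStr Q] (hA : AIM Q) (h3 : Cl2 (QC Q))

theorem sv_of_phi {h g : inn Q} {a : Q} {hc : pr (sv g.1 a) ∈ cen (QC Q)}
    (e : phi hA h (sB hA g a hc) = 1) : sv h.1 (sv g.1 a) = 1 := by
  rw [← phi_sB hA h g a hc, e]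
  rfl

theorem phi_alB_of {h : inn Q} {x y z : Q} (e : phi hA h (alB hA h3 x y z) = 1) :
    sv h.1 (sv (ll x y) z) = 1 := by
  have h1 : phi hA h (sB hA (Li x y) z (pr_sv_mem h3 _ _)) = 1 := by
    rw [sB_ll hA h3, map_inv, e, inv_one]
  exact sv_of_phi hA h1

theorem phi_alB_of' {h : inn Q} {x y z : Q} (e : phi hA h (alB hA h3 x y z) = 1) :
    sv h.1 (sv (rr y z) x) = 1 := by
  have h1 : phi hA h (sB hA (Ri y z) x (pr_sv_mem h3 _ _)) = 1 := by
    rw [sB_rr hA h3, e]
  exact sv_of_phi hA h1

include hA h3 in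
/-- Three generators, class at most three: the associators are central. -/
theorem three_gen_cl3 {g1 g2 g3 : Q} (hU : GenBy ({g1, g2, g3} : Set Q)) : AssocCen Q := by
  intro x y z
  have hX := (formData hA h3).X_zero hU
  have hY := (formData hA h3).Y_zero hU
  apply mem_cen_of_sv
  · intro t
    exact phi_alB_of hA h3 (h := Ti t) (hY t x y z)
  · intro a b
    exact phi_alB_of hA h3 (h := Li a b) (hX a b x y z)
  · intro a b
    refine phi_alB_of hA h3 (h := Ri a b) ?_
    have e1 := (formData hA h3).LR a b x y z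
    have e2 := hX x y z a b
    unfold FormData.X at e2
    rw [e2, neg_zero] at e1
    exact e1

include hA h3 in
/-- Two generators, class at most three: the class is at most two. -/
theorem two_gen_cl3 {g1 g2 : Q} (hU : GenBy ({g1, g2} : Set Q)) : Cl2 Q := by
  have hU' : GenBy ({g1, g2, g2} : Set Q) := by
    have : ({g1, g2, g2} : Set Q) = {g1, g2} := by
      rw [Set.pair_eq_singleton]
    rw [this]; exact hU
  have hX := (formData hA h3).X_zero hU'
  have hY := (formData hA h3).Y_zero hU'
  have hW := (formData hA h3).W_zero hU hY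
  have hAs := three_gen_cl3 hA h3 hU'
  have hR : ∀ a b x y z : Q, phi hA (Ri a b) (alB hA h3 x y z) = 1 := by
    intro a b x y z
    have e1 := (formData hA h3).LR a b x y z
    have e2 := hX x y z a b
    unfold FormData.X at e2
    rw [e2, neg_zero] at e1
    exact e1
  apply Cl2_of_gens
  · intro t a
    apply mem_cen_of_sv
    · intro s
      have : phi hA (Ti s) (sB hA (Ti t) a (pr_sv_mem h3 _ _)) = 1 := hW s t a
      exact sv_of_phi hA this
    · intro x y
      have e1 := (formData hA h3).TL t x y a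
      have e2 := hY t x y a
      unfold FormData.Y at e2
      rw [e2, neg_zero] at e1
      have : phi hA (Li x y) (sB hA (Ti t) a (pr_sv_mem h3 _ _)) = 1 := e1
      exact sv_of_phi hA this
    · intro x y
      have e1 := (formData hA h3).TR t x y a
      have e2 := hY t a x y
      unfold FormData.Y at e2
      rw [e2] at e1
      have : phi hA (Ri x y) (sB hA (Ti t) a (pr_sv_mem h3 _ _)) = 1 := e1
      exact sv_of_phi hA this
  · intro x y z
    exact hAs x y z
  · intro y z x
    apply mem_cen_of_sv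
    · intro t
      exact phi_alB_of' hA h3 (h := Ti t) (hY t x y z)
    · intro a b
      exact phi_alB_of' hA h3 (h := Li a b) (hX a b x y z)
    · intro a b
      exact phi_alB_of' hA h3 (h := Ri a b) (hR a b x y z)

end classthree

section assoc

variable {G : Type u} [LoopStr G]

/-- If all associators are central, then the maps `R` and `C` also displace centrally. -/
theorem rr_mem_cen (h : AssocCen G) (x y z : G) : sv (rr y z) x ∈ cen G := by
  apply sv_mem_of_pr_eq
  have h1 := (pr_eq_one.2 (h x y z))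
  rw [pr_sv_ll, sv_eq_one] at h1
  rw [pr_hom.map_rr, rr_apply]
  rw [ll_apply] at h1
  have h2 := (eq_ldiv_iff.1 h1.symm)
  symm
  rw [eq_rdiv_iff]
  exact h2.symm

/-- If all associators are central, the central quotient has class at most two. -/
theorem Cl2_QC_of_assocCen (hA : AIM G) (h : AssocCen G) : Cl2 (QC G) := by
  have hA' : AIM (QC G) := aim_QC hA
  -- associativity of the quotient
  have hass : ∀ x y z : QC G, x * (y * z) = (x * y) * z := by
    intro x y z
    obtain ⟨x, rfl⟩ := pr_surjective x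
    obtain ⟨y, rfl⟩ := pr_surjective y
    obtain ⟨z, rfl⟩ := pr_surjective z
    have h1 := (pr_eq_one.2 (h x y z))
    rw [pr_sv_ll, sv_eq_one, ll_apply] at h1
    exact (eq_ldiv_iff.1 h1.symm).symm
  have hll : ∀ x y : QC G, ll x y = 1 := by
    intro x y; ext z
    rw [ll_apply, hass, LoopStr.ldiv_mul]; rfl
  have hrr : ∀ x y : QC G, rr x y = 1 := by
    intro x y; ext z
    rw [rr_apply, ← hass, LoopStr.mul_rdiv]; rfl
  have hcc : ∀ x y : QC G, cc x y = 1 := by
    intro x y; ext z
    rw [cc_apply, hass, LoopStr.mul_rdiv, LoopStr.ldiv_mul]; rfl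
  have htt : ∀ x y : QC G, tt (x * y) = tt x * tt y := by
    intro x y
    rw [tt_mul, hll, hrr, hcc, one_mul, mul_one, inv_one, mul_one]
  apply Cl2_of_gens
  · intro x a
    have h1 : (a * sv (tt x) a) * x = x * a := by
      have : a * sv (tt x) a = rdiv (x * a) x := mul_sv _ _
      rw [eq_rdiv_iff] at this
      exact this
    have h2 := congrArg tt h1
    rw [htt, htt, htt] at h2
    have h3 : tt (sv (tt x) a) = 1 := by
      have c1 := hA' _ (tt_mem x) _ (tt_mem a)
      have c2 := hA' _ (tt_mem (sv (tt x) a)) _ (tt_mem x)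
      rw [mul_assoc, c2, ← mul_assoc, c1, ] at h2
      exact mul_eq_left.1 h2
    have h4 : ∀ y, sv (tt x) a * y = y * sv (tt x) a := by
      intro y
      have := congrArg (fun g : Equiv.Perm (QC G) => g y) h3
      simp only [tt_apply] at this
      exact (eq_rdiv_iff.1 this.symm).symm
    apply mem_cen_of_sv
    · intro t
      rw [sv_eq_one, tt_apply, ← h4, LoopStr.mul_rdiv]
    · intro a b; rw [hll]; exact sv_eq_one.2 rfl
    · intro a b; rw [hrr]; exact sv_eq_one.2 rfl
  · intro x y a; rw [hll, sv_eq_one.2 rfl]; exact one_mem_cen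
  · intro x y a; rw [hrr, sv_eq_one.2 rfl]; exact one_mem_cen

end assoc

end Pool.Agent.Lib.MP_c6182e_al
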