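import Mathlib

/-!
Finite groups of class two with prescribed abelian inner automorphism groups.
-/

universe u v

namespace Pool.Agent.Lib.MP_c6182e_al

/-- The group on `V × W` with multiplication twisted by a biadditive map. -/
@[ext]
structure Heis {V W : Type v} [AddCommGroup V] [AddCommGroup W] (β : V →+ V →+ W) where
  x : V
  z : W

section

variable {V W : Type v} [AddCommGroup V] [AddCommGroup W] (β : V →+ V →+ W)

instance : Group (Heis β) where
  mul a b := ⟨a.x + b.x, a.z + b.z + β a.x b.x⟩
  one := ⟨0, 0⟩
  inv a := ⟨-a.x, -a.z + β a.x a.x⟩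
  mul_assoc a b c := by
    apply Heis.ext
    · exact add_assoc _ _ _
    · change a.z + b.z + β a.x b.x + c.z + β (a.x + b.x) c.x =
        a.z + (b.z + c.z + β b.x c.x) + β a.x (b.x + c.x)
      rw [map_add, map_add, AddMonoidHom.add_apply]
      abel
  one_mul a := by
    apply Heis.ext
    · exact zero_add _
    · change 0 + a.z + β 0 a.x = a.z
      rw [map_zero, AddMonoidHom.zero_apply, zero_add, add_zero]
  mul_one a := by
    apply Heis.ext
    · exact add_zero _
    · change a.z + 0 + β a.x 0 = a.z
      rw [map_zero, add_zero, add_zero]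
  inv_mul_cancel a := by
    apply Heis.ext
    · exact neg_add_cancel _
    · change -a.z + β a.x a.x + a.z + β (-a.x) a.x = 0
      rw [map_neg, AddMonoidHom.neg_apply]
      abel

theorem Heis.mul_x (a b : Heis β) : (a * b).x = a.x + b.x := rfl
theorem Heis.mul_z (a b : Heis β) : (a * b).z = a.z + b.z + β a.x b.x := rfl

instance [Finite V] [Finite W] : Finite (Heis β) :=
  Finite.of_injective (fun a : Heis β => (a.x, a.z)) (by
    intro a b h
    rw [Prod.mk.injEq] at h
    exact Heis.ext h.1 h.2)

/-- The projection to `V`. -/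
def Heis.proj : Heis β →* Multiplicative V where
  toFun a := Multiplicative.ofAdd a.x
  map_one' := rfl
  map_mul' _ _ := rfl

theorem Heis.proj_surjective : Function.Surjective (Heis.proj β) := fun v =>
  ⟨⟨Multiplicative.toAdd v, 0⟩, rfl⟩

theorem Heis.center_eq (hβ : ∀ x, (∀ y, β x y = β y x) → x = 0) :
    Subgroup.center (Heis β) = (Heis.proj β).ker := by
  ext a
  rw [Subgroup.mem_center_iff, MonoidHom.mem_ker]
  constructor
  · intro h
    have hx : a.x = 0 := by
      apply hβ
      intro y
      have h1 := congrArg Heis.z (h ⟨y, 0⟩)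
      rw [Heis.mul_z, Heis.mul_z] at h1
      simp only [zero_add, add_zero] at h1
      exact (add_left_cancel h1).symm
    change Multiplicative.ofAdd a.x = 1
    rw [hx]; rfl
  · intro h b
    have hx : a.x = 0 := h
    apply Heis.ext
    · rw [Heis.mul_x, Heis.mul_x, add_comm]
    · rw [Heis.mul_z, Heis.mul_z, hx, map_zero, map_zero, AddMonoidHom.zero_apply, add_comm b.z]

/-- The central quotient. -/
theorem Heis.quot (hβ : ∀ x, (∀ y, β x y = β y x) → x = 0) :
    Nonempty (Heis β ⧸ Subgroup.center (Heis β) ≃* Multiplicative V) :=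
  ⟨(QuotientGroup.quotientMulEquivOfEq (Heis.center_eq β hβ)).trans
    (QuotientGroup.quotientKerEquivOfSurjective _ (Heis.proj_surjective β))⟩

end

/-- Every group `C_n × C_n × D` with `D` abelian of exponent dividing `n` is a central quotient. -/
theorem exists_capable (n : ℕ) (D : Type v) [AddCommGroup D] [Finite D] (hn : 0 < n)
    (hD : ∀ d : D, n • d = 0) :
    ∃ (E : Type v) (_ : Group E), Finite E ∧
      Nonempty (E ⧸ Subgroup.center E ≃* Multiplicative (ZMod n × ZMod n × D)) := by
  let _ : Module (ZMod n) D := AddCommGroup.zmodModule hD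
  have : NeZero n := ⟨hn.ne'⟩
  let V : Type v := ULift.{v} (ZMod n) × ULift.{v} (ZMod n) × D
  let W : Type v := ULift.{v} (ZMod n) × D
  let β : V →+ V →+ W := AddMonoidHom.mk' (fun x => AddMonoidHom.mk'
    (fun y => (ULift.up (x.1.down * y.2.1.down), x.1.down • y.2.2)) (by
      intro y y'
      apply Prod.ext
      · apply ULift.ext
        exact mul_add _ _ _
      · exact smul_add _ _ _)) (by
    intro x x'
    ext y
    · exact add_mul _ _ _
    · exact add_smul _ _ _)
  have hβ1 : ∀ x y : V, (β x y).1.down = x.1.down * y.2.1.down := fun x y => rfl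
  have hβ2 : ∀ x y : V, (β x y).2 = x.1.down • y.2.2 := fun x y => rfl
  have hβ : ∀ x, (∀ y, β x y = β y x) → x = 0 := by
    intro x h
    have h1 := h (ULift.up 0, ULift.up 1, 0)
    have h2 := h (ULift.up 1, ULift.up 0, 0)
    have e1 := congrArg (fun w : W => w.1.down) h1
    have e2 := congrArg (fun w : W => w.1.down) h2
    have e3 := congrArg (fun w : W => w.2) h2
    simp only [hβ1, hβ2, mul_one, zero_mul, mul_zero, one_mul, one_smul, smul_zero] at e1 e2 e3
    apply Prod.ext
    · exact ULift.ext _ _ e1
    · apply Prod.ext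
      · exact ULift.ext _ _ e2.symm
      · exact e3.symm
  obtain ⟨ε⟩ := Heis.quot β hβ
  have hfin : Finite (Heis β) := inferInstance
  refine ⟨Heis β, inferInstance, hfin, ⟨ε.trans ?_⟩⟩
  exact AddEquiv.toMultiplicative (AddEquiv.prodCongr AddEquiv.ulift
    (AddEquiv.prodCongr AddEquiv.ulift (AddEquiv.refl D)))

/-- Change of universe. -/
theorem exists_capable' (n : ℕ) (D : Type u) [CommGroup D] [Finite D] (hn : 0 < n)
    (hD : ∀ d : D, d ^ n = 1) :
    ∃ (E : Type v) (_ : Group E), Finite E ∧
      Nonempty (E ⧸ Subgroup.center E ≃* Multiplicative (ZMod n) × Multiplicative (ZMod n) × D) := by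
  have : Small.{v} (Additive D) := Countable.toSmall _
  let D' : Type v := Shrink.{v} (Additive D)
  let f : D' ≃+ Additive D := Shrink.addEquiv
  have : Finite D' := Finite.of_equiv _ f.symm.toEquiv
  obtain ⟨E, _, hE, ⟨ε⟩⟩ := exists_capable.{v} n D' hn (by
    intro d
    apply f.injective
    rw [map_nsmul, map_zero]
    exact hD (Additive.toMul (f d)))
  refine ⟨E, inferInstance, hE, ⟨ε.trans ?_⟩⟩
  refine
    { toFun := fun w => (Multiplicative.ofAdd (Multiplicative.toAdd w).1,
        Multiplicative.ofAdd (Multiplicative.toAdd w).2.1,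
        Additive.toMul (f (Multiplicative.toAdd w).2.2))
      invFun := fun w => Multiplicative.ofAdd (Multiplicative.toAdd w.1,
        Multiplicative.toAdd w.2.1, f.symm (Additive.ofMul w.2.2))
      left_inv := ?_
      right_inv := ?_
      map_mul' := ?_ }
  · intro w
    apply Multiplicative.toAdd.injective
    apply Prod.ext
    · rfl
    · apply Prod.ext
      · rfl
      · exact f.symm_apply_apply _
  · intro w
    apply Prod.ext
    · rfl
    · apply Prod.ext
      · rfl
      · exact congrArg Additive.toMul (f.apply_symm_apply _)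
  · intro w w'
    apply Prod.ext
    · rfl
    · apply Prod.ext
      · rfl
      · exact congrArg Additive.toMul (map_add f _ _)

end Pool.Agent.Lib.MP_c6182e_al
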