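import Mathlib

/-!
A lemma on transfer homomorphisms.
-/

universe u

namespace Pool.Agent.Lib.MP_c6182e_al

open MulAction Subgroup

theorem exists_transfer {G : Type u} [Group G] (M C : Subgroup G) [M.FiniteIndex]
    (hnorm : ∀ m ∈ M, ∀ c ∈ C, m * c * m⁻¹ ∈ C)
    (hcomm : ∀ m ∈ M, ∀ m' ∈ M, m⁻¹ * m'⁻¹ * m * m' ∈ C) :
    ∃ (A : Type u) (_ : CommGroup A) (τ : G →* A) (ψ : M →* A),
      (∀ m : M, ψ m = 1 ↔ (m : G) ∈ C) ∧
      (∀ h : M, (∀ (n : ℕ) (g : G), g ∉ M → g⁻¹ * (h : G) ^ n * g ∈ M →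
        g⁻¹ * (h : G) ^ n * g ∈ C) → τ h = ψ h) ∧
      (∀ k : G, (∀ (n : ℕ) (g : G), g⁻¹ * k ^ n * g ∈ M → g⁻¹ * k ^ n * g ∈ C) → τ k = 1) := by
  classical
  set N : Subgroup M := C.subgroupOf M with hN
  have hNn : N.Normal := by
    constructor
    intro n hn g
    rw [hN, Subgroup.mem_subgroupOf] at hn ⊢
    exact hnorm _ g.2 _ hn
  let inst : CommGroup (M ⧸ N) :=
    { (inferInstance : Group (M ⧸ N)) with
      mul_comm := by
        rintro ⟨a⟩ ⟨b⟩
        change ((a * b : M) : M ⧸ N) = ((b * a : M) : M ⧸ N)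
        rw [eq_comm, QuotientGroup.eq, hN, Subgroup.mem_subgroupOf]
        have := hcomm _ a.2 _ b.2
        have e : (((b * a)⁻¹ * (a * b) : M) : G) = (a : G)⁻¹ * (b : G)⁻¹ * a * b := by
          push_cast
          group
        rw [e]; exact this }
  set ψ : M →* (M ⧸ N) := QuotientGroup.mk' N with hψ
  have hψ1 : ∀ m : M, ψ m = 1 ↔ (m : G) ∈ C := by
    intro m
    rw [hψ, QuotientGroup.mk'_apply, QuotientGroup.eq_one_iff, hN, Subgroup.mem_subgroupOf]
  let : Fintype (G ⧸ M) := M.fintypeQuotientOfFiniteIndex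
  refine ⟨M ⧸ N, inst, ψ.transfer, ψ, hψ1, ?_, ?_⟩
  · intro h hh
    let : Fintype (Quotient (orbitRel (zpowers (h : G)) (G ⧸ M))) := Fintype.ofFinite _
    rw [MonoidHom.transfer_eq_prod_quotient_orbitRel_zpowers_quot]
    set q0 : Quotient (orbitRel (zpowers (h : G)) (G ⧸ M)) := Quotient.mk _ ((1 : G) : G ⧸ M)
      with hq0
    -- the base point is fixed
    have hfix1 : (h : G) • ((1 : G) : G ⧸ M) = ((1 : G) : G ⧸ M) := by
      rw [MulAction.Quotient.smul_coe, smul_eq_mul, mul_one, QuotientGroup.eq, mul_one]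
      exact inv_mem h.2
    have hq0out : q0.out = ((1 : G) : G ⧸ M) := by
      have h1 : Quotient.mk (orbitRel (zpowers (h : G)) (G ⧸ M)) q0.out =
        Quotient.mk _ ((1 : G) : G ⧸ M) := by rw [Quotient.out_eq]
      have h2 := Quotient.exact h1
      obtain ⟨⟨z, hz⟩, e⟩ := (orbitRel_apply.1 h2)
      obtain ⟨k, rfl⟩ := mem_zpowers_iff.1 hz
      have h3 : ∀ k : ℤ, (h : G) ^ k ∈ stabilizer G ((1 : G) : G ⧸ M) := by
        intro k
        exact zpow_mem (mem_stabilizer_iff.2 hfix1) k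
      rw [← e]
      exact mem_stabilizer_iff.1 (h3 k)
    have hmem : ∀ q : Quotient (orbitRel (zpowers (h : G)) (G ⧸ M)), q.out.out ∈ M → q = q0 := by
      intro q hq
      have h1 : q.out = ((1 : G) : G ⧸ M) := by
        rw [← QuotientGroup.out_eq' q.out, eq_comm, QuotientGroup.eq]
        simpa using hq
      rw [hq0, ← h1, Quotient.out_eq]
    rw [Fintype.prod_eq_single q0]
    · have hg : q0.out.out ∈ M := by
        rw [hq0out]
        have h2 : ((((1 : G) : G ⧸ M).out : G) : G ⧸ M) = ((1 : G) : G ⧸ M) :=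
          QuotientGroup.out_eq' _
        rw [eq_comm, QuotientGroup.eq] at h2
        simpa using h2
      have hper : Function.minimalPeriod ((h : G) • ·) q0.out = 1 := by
        rw [hq0out]
        exact Function.minimalPeriod_eq_one_iff_isFixedPt.2 hfix1
      have key : ψ ⟨q0.out.out⁻¹ * (h : G) ^ Function.minimalPeriod ((h : G) • ·) q0.out *
          q0.out.out, QuotientGroup.out_conj_pow_minimalPeriod_mem M (h : G) q0.out⟩ =
          ψ (⟨q0.out.out, hg⟩⁻¹ * h * ⟨q0.out.out, hg⟩) := by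
        congr 1
        apply Subtype.ext
        change q0.out.out⁻¹ * (h : G) ^ Function.minimalPeriod ((h : G) • ·) q0.out *
          q0.out.out = q0.out.out⁻¹ * (h : G) * q0.out.out
        rw [hper, pow_one]
      rw [key, map_mul, map_mul, map_inv, mul_comm, mul_inv_cancel_left]
    · intro q hq
      rw [hψ1]
      exact hh _ _ (fun hm => hq (hmem q hm))
        (QuotientGroup.out_conj_pow_minimalPeriod_mem M (h : G) q.out)
  · intro k hk
    let : Fintype (Quotient (orbitRel (zpowers k) (G ⧸ M))) := Fintype.ofFinite _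
    rw [MonoidHom.transfer_eq_prod_quotient_orbitRel_zpowers_quot]
    apply Fintype.prod_eq_one
    intro q
    rw [hψ1]
    exact hk _ _ (QuotientGroup.out_conj_pow_minimalPeriod_mem M k q.out)

end Pool.Agent.Lib.MP_c6182e_al
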